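import Pool.Agent.Lib.helper20.PCPD
import Pool.Agent.Lib.lead.CXGraphRed

/-! Gap amplification and the PCP theorem. -/

namespace Pool.Agent.Lib.helper20.PCP

open Finset BigOperators Classical Pool.Agent.Lib.CX

section
variable {α β : Type} [Enc α] [Enc β]

theorem pt_fin {u : α → ℕ} (hu : PT u) (B : ℕ) (hB : ∀ x, u x < B) {F : ℕ → α → β} (hF : ∀ t, PT (F t)) :
    PT fun x => F (u x) x := by
  have : ∀ B, ∃ G : α → β, PT G ∧ ∀ x, u x < B → G x = F (u x) x := fun B => by
    induction B with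
    | zero => exact ⟨_, hF 0, by simp⟩
    | succ B ih =>
      obtain ⟨G, hG, e⟩ := ih
      have := hF B
      refine ⟨fun x => if u x = B then F B x else G x, by fun_prop, fun x hx => ?_⟩
      beta_reduce; split_ifs with h
      exacts [by rw [h], e x (by omega)]
  obtain ⟨G, hG, e⟩ := this B
  exact hG.congr fun x => (e x (hB x)).symm

theorem pt_map_const {ι : Type} (L : List ι) {F : ι → α → β} (h : ∀ i, PT (F i)) : PT fun a => L.map fun i => F i a := by
  induction L with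
  | nil => exact PT.const []
  | cons i L ih => exact (h i).cons ih

@[fun_prop] theorem pt_cmp (K : ℕ) {es : α → List (ℕ × ℕ × List (List (ℕ × ℕ)))} (h : PT es) :
    PT fun a => cmp K (es a) := by unfold cmp nm; fun_prop

@[fun_prop] theorem pb_sq {n : α → ℕ} (hb : PB n) : PB fun a => sq (n a) :=
  (hb.add (PB.const 1)).mono fun _ => Nat.succ_le_succ (Nat.sqrt_le_self _)
end

def wkN (φ : List (List ℕ)) (p : List DD) (v : ℕ) : ℕ := p.foldl (fun v i => pi φ i v) v
def tys (φ : List (List ℕ)) : List DD → ℕ → List ℕ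
  | [], _ => []
  | i :: p, v => ty φ i v :: tys φ p (pi φ i v)

theorem pt_wkN (p : List DD) : PT fun x : List (List ℕ) × ℕ => wkN x.1 p x.2 := by
  induction p with
  | nil => exact PT.snd'
  | cons i p ih => exact ih.comp (PT.fst'.pair (pt_pi i))

theorem pt_tys {β : Type} [Enc β] (p : List DD) (F : List ℕ → β) :
    PT fun x : List (List ℕ) × ℕ => F (tys x.1 p x.2) := by
  induction p generalizing F with
  | nil => exact PT.const (F [])
  | cons i p ih =>
    exact pt_fin (pt_ty i) 102 (fun _ => ty_lt _ _ _) (F := fun t x => F (t :: tys x.1 p (pi x.1 i x.2)))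
      fun t => (ih fun l => F (t :: l)).comp (g := fun x : List (List ℕ) × ℕ => (x.1, pi x.1 i x.2))
        (PT.fst'.pair (pt_pi i))

theorem tys_getD (φ x i y v) : (tys φ (x ++ i :: y) v).getD x.length 0 = ty φ i (wkN φ x v) := by
  induction x generalizing v with
  | nil => rfl
  | cons j x ih => exact ih _

theorem wk_val {φ} (h : 0 < n0 φ) (p v) : ((RR h).wk p v : ℕ) = wkN φ p v := by
  induction p generalizing v with
  | nil => rfl
  | cons j x ih => exact ih _

abbrev WW (H : ℕ) := {p : List DD // p.length < H} → Sg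
noncomputable instance (H : ℕ) : Fintype {p : List DD // p.length < H} := (List.finite_length_lt DD H).fintype
def ext {H : ℕ} (w : WW H) (p : List DD) : Sg := if h : p.length < H then w ⟨p, h⟩ else 0
def PRl (H : ℕ) (p : List DD) (τ : List ℕ) (w : WW H × WW H) : Prop :=
  ∀ x i y, p = x ++ i :: y → x.length < H → y.length < H →
    rel (τ.getD x.length 0) (ext w.1 x) (ext w.2 (y.map fun i => (i.1, ginv i.2)).reverse)

theorem Gap.mono {ε η : ℝ} {φ} (h : Gap ε φ) (e : η ≤ ε) : Gap η φ := fun a =>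
  (mul_le_mul_of_nonneg_right e (Nat.cast_nonneg _)).trans (h a)

theorem round : ∃ (rd : List (List ℕ) → List (List ℕ)) (C K : ℕ) (ε0 : ℝ), 0 < ε0 ∧ PT rd ∧ ∀ φ, φ ≠ [] →
    WF K (rd φ) ∧ (rd φ).length ≤ C * φ.length ∧ (Sat φ → Sat (rd φ)) ∧
      ∀ ε, 0 ≤ ε → Gap ε φ → Gap (min (2 * ε) ε0) (rd φ) := by
  obtain ⟨H, hH⟩ := exists_nat_ge (2 * 92160 * 640 * 1024 ^ 4 * 1729 : ℝ)
  have H0 : (0 : ℝ) < H := lt_of_lt_of_le (by norm_num) hH
  obtain ⟨ws, hw, hws⟩ := exists_ws (D := DD) (Nat.cast_pos.1 H0)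
  obtain ⟨K, Λ, tm, Λ0, hc⟩ := compo (WW H)
  let es : List (List ℕ) → List (ℕ × ℕ × (WW H × WW H → Prop)) := fun φ =>
    (List.range (MM φ * MM φ)).flatMap fun v => ws.map fun p => (v, wkN φ p v, PRl H p (tys φ p v))
  refine ⟨fun φ => cmp K ((es φ).map fun e => (e.1, e.2.1, tm e.2.2)), 160 * ws.length * Λ, 2 * K,
    1 / (1280 * 1024 ^ 4), by positivity, ?_, fun φ hφ => ?_⟩
  · simp only [es, List.map_flatMap, List.map_map, Function.comp_def]
    refine pt_cmp K (PT.flatMap (pt_map_const ws fun p => PT.snd'.pair ((pt_wkN p).pair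
      (pt_tys p fun τ => tm (PRl H p τ)))) ?_)
    unfold MM n0; fun_prop
  have h : 0 < n0 φ := by have := List.length_pos_iff.2 hφ; unfold n0; omega
  have N0 : 0 < MM φ * MM φ := h.trans_le n0_lt
  have w0 := List.length_pos_iff.2 hw
  have len : (es φ).length = MM φ * MM φ * ws.length := by simp [es]
  have mem : ∀ e ∈ es φ, ∃ v : Fin (MM φ * MM φ), ∃ p, e = (v.1, wkN φ p v, PRl H p (tys φ p v)) := fun e he => by
    simp only [es, List.mem_flatMap, List.mem_map, List.mem_range] at he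
    obtain ⟨v, hv, p, -, rfl⟩ := he
    exact ⟨⟨v, hv⟩, p, rfl⟩
  obtain ⟨c1, c2, c3, c4⟩ := hc (es φ) _ rfl
  refine ⟨⟨List.length_pos_iff.1 (by rw [c1, len]; positivity), fun c hc => ?_⟩, ?_, fun hs => ?_, fun ε ε0 hg => ?_⟩
  · have := c2 _ le_rfl (fun e he => by
      obtain ⟨v, p, rfl⟩ := mem e he
      have : MM φ * MM φ ≤ (es φ).length := len ▸ Nat.le_mul_of_pos_right _ w0
      exact ⟨v.2.trans_le this, wk_val h p v ▸ ((RR h).wk p v).2.trans_le this⟩) c hc
    refine ⟨this.1, fun x hx => (this.2 x hx).trans ?_⟩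
    rw [c1]; exact Nat.mul_le_mul_left _ (Nat.le_mul_of_pos_right _ Λ0)
  · have := sq_le (n := 4 * n0 φ) (by omega)
    have h2 : MM φ * MM φ ≤ 160 * φ.length := by unfold MM; unfold n0 at *; omega
    rw [c1, len]; nlinarith [Nat.mul_le_mul_right (ws.length * Λ) h2]
  · obtain ⟨σ, hσ⟩ := pre_sat h hs
    refine c3 (fun v p => σ (wkN φ p v)) fun e he => ?_
    obtain ⟨v, p, rfl⟩ := mem e he
    rintro x i y rfl hx hy
    have e := congrArg Fin.val ((RR h).wk_rv y ((RR h).π i ((RR h).wk x v)))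
    rw [wk_val, wk_val] at e
    have e2 : ((RR h).π i ((RR h).wk x v) : ℕ) = pi φ i (wkN φ x v) := by rw [← wk_val h]; rfl
    have e3 : wkN φ (x ++ i :: y) v = wkN φ y (pi φ i (wkN φ x v)) := by simp [wkN]
    have := hσ i (wkN φ x v)
    rw [e2] at e
    rw [← e] at this
    simpa [tys_getD, ext, hx, hy, e3, -List.getD_eq_getElem?_getD, RG.rv, RR] using this
  · haveI : Nonempty (Fin (MM φ * MM φ)) := ⟨⟨0, N0⟩⟩
    refine (c4 (ε / 92160 * H / (8 * 1024 ^ 4 * (1729 + 2 * H * (ε / 92160)))) fun A => ?_).mono ?_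
    · have := (RR h).power (by norm_num) (RR_poin h) (fun v i => rel (ty φ i v)) (ε / 92160) (by positivity)
        (pre_gap h hg ε0) H fun v => ext (A v)
      have e : ∀ (v : Fin (MM φ * MM φ)) p, (RR h).PR (fun v i => rel (ty φ i v)) H v p (ext (A v))
          (ext (A ((RR h).wk p v))) ↔ PRl H p (tys φ p v) (A v, A (wkN φ p v)) := fun v p => by
        refine forall₃_congr fun x i y => forall_congr' fun e => ?_
        beta_reduce
        rw [e, tys_getD, wk_val, wk_val]; rfl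
      simp only [e] at this
      rw [← expect_sum_comm, expect_eq_sum_div_card, card_univ, Fintype.card_fin, show Fintype.card Sg = 1024 by simp,
        le_div_iff₀ (by exact_mod_cast N0)] at this
      have e2 : ((es φ).map fun e => if e.2.2 (A e.1, A e.2.1) then (0 : ℝ) else 1).sum = ws.length / (2 * H) *
          ∑ v : Fin (MM φ * MM φ), ∑ l ∈ range (2 * H), av l fun p =>
            if PRl H p (tys φ p v) (A v, A (wkN φ p v)) then (0 : ℝ) else 1 := by
        rw [mul_sum]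
        simp only [← hws, es, List.map_flatten, List.map_map, List.flatMap_def, List.sum_flatten, Function.comp_def]
        rw [Fin.sum_univ_eq_sum_range fun v => (ws.map fun p =>
          if PRl H p (tys φ p v) (A v, A (wkN φ p v)) then (0 : ℝ) else 1).sum]
        rfl
      rw [e2, len]
      refine le_trans (le_of_eq ?_) (mul_le_mul_of_nonneg_left this (by positivity))
      push_cast; field_simp; ring
    · by_cases h1 : 2 * H * (ε / 92160) ≤ 1729
      · refine (min_le_left _ _).trans ?_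
        rw [div_div, le_div_iff₀ (by positivity)]
        nlinarith [mul_le_mul_of_nonneg_left h1 ε0, mul_le_mul_of_nonneg_left hH ε0]
      · refine (min_le_right _ _).trans ?_
        rw [div_div, div_le_div_iff₀ (by positivity) (by positivity)]
        nlinarith

theorem one_le_sum {α : Type} {l : List α} {P : α → Prop} (h : ¬ ∀ x ∈ l, P x) :
    1 ≤ (l.map fun x => if P x then (0 : ℝ) else 1).sum := by
  push Not at h
  obtain ⟨x, hx, h⟩ := h
  refine List.single_le_sum (fun y hy => ?_) _ (List.mem_map.2 ⟨x, hx, if_neg h⟩)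
  obtain ⟨z, -, rfl⟩ := List.mem_map.1 hy
  split_ifs <;> norm_num

theorem start (A : List Bool → Prop) (hA : InNP A) : ∃ f : List Bool → List (List ℕ), PT f ∧ ∀ x, f x ≠ [] ∧
    (A x → Sat (f x)) ∧ (¬ A x → Gap (1 / (f x).length) (f x)) := by
  obtain ⟨g, hg, e⟩ := col3_hard A hA
  obtain ⟨K, Λ, tm, Λ0, hc⟩ := compo (Fin 3)
  let es : Gr → List (ℕ × ℕ) := fun a => (a.n, a.n + 1) :: a.2.filter fun e => e.1 < a.n ∧ e.2 < a.n ∧ e.1 ≠ e.2
  refine ⟨fun x => cmp K ((es (g x)).map fun e => (e.1, e.2, tm fun w => w.1 ≠ w.2)), by simp only [es]; fun_prop,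
    fun x => ?_⟩
  obtain ⟨c1, -, c3, c4⟩ := hc ((es (g x)).map fun e => (e.1, e.2, fun w => w.1 ≠ w.2))
    (cmp K ((es (g x)).map fun e => (e.1, e.2, tm fun w => w.1 ≠ w.2))) (by rw [List.map_map]; rfl)
  have l0 : 0 < ((es (g x)).map fun e => (e.1, e.2, fun w : Fin 3 × Fin 3 => w.1 ≠ w.2)).length := by simp [es]
  have l1 := c1 ▸ Nat.mul_pos l0 Λ0
  rw [e]
  refine ⟨List.length_pos_iff.1 l1, fun ⟨c⟩ => ?_, fun hn a => ?_⟩
  · refine c3 (fun v => if h : v < (g x).n then c ⟨v, h⟩ else if v = (g x).n then 0 else 1) fun y hy => ?_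
    obtain ⟨z, hz, rfl⟩ := List.mem_map.1 hy
    clear hy
    rcases List.mem_cons.1 hz with rfl | hy
    · simp
    · simp only [List.mem_filter, decide_eq_true_eq] at hy
      simp only [hy.2.1, hy.2.2.1, dif_pos]
      exact c.valid (((g x).adj_iff _ _).2 ⟨hy.2.2.2, .inl hy.1⟩)
  · have l2 : (0 : ℝ) < _ := Nat.cast_pos.2 l0
    have l3 : (0 : ℝ) < _ := Nat.cast_pos.2 l1
    rw [one_div_mul_cancel l3.ne']
    refine one_le_sum fun ha => ?_
    have := c4 (1 / _) (fun B => by
      rw [one_div_mul_cancel l2.ne']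
      refine one_le_sum fun hB => hn ⟨SimpleGraph.Coloring.mk (fun v => B v) fun {u v} h => ?_⟩
      obtain ⟨h1, h2 | h2⟩ := ((g x).adj_iff _ _).1 h
      · exact hB _ (List.mem_map.2 ⟨_, List.mem_cons_of_mem _ (List.mem_filter.2 ⟨h2, by simp [h1]⟩), rfl⟩)
      · exact (hB _ (List.mem_map.2 ⟨_, List.mem_cons_of_mem _ (List.mem_filter.2 ⟨h2, by simp [h1.symm]⟩), rfl⟩)).symm) a
    rw [bad, List.sum_eq_zero fun y hy => by obtain ⟨z, hz, rfl⟩ := List.mem_map.1 hy; exact if_pos (ha z hz)] at this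
    exact absurd this (not_le.2 (by positivity))

theorem WF.size {K φ} (h : WF K φ) : size φ ≤ φ.length * (10 * (3 * (K * φ.length) + 2 + 1) + 2 + 1) + 2 :=
  size_list_le fun c hc => (h.2 c hc).1 ▸ size_list_le fun x hx =>
    (size_nat_le x).trans (by have := (h.2 c hc).2 x hx; omega)

/-- the PCP theorem -/
theorem pcp : ∃ (ε : ℝ) (K : ℕ), 0 < ε ∧ ∀ A : List Bool → Prop, InNP A → ∃ f : List Bool → List (List ℕ), PT f ∧
    ∀ x, WF K (f x) ∧ (A x → Sat (f x)) ∧ (¬ A x → Gap ε (f x)) := by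
  obtain ⟨rd, C, K, ε0, h0, hr, h⟩ := round
  refine ⟨min 1 ε0, K, by positivity, fun A hA => ?_⟩
  obtain ⟨f, hf, e⟩ := start A hA
  have it : ∀ φ, φ ≠ [] → ∀ k, rd^[k] φ ≠ [] ∧ (0 < k → WF K (rd^[k] φ)) ∧ (rd^[k] φ).length ≤ C ^ k * φ.length ∧
      (Sat φ → Sat (rd^[k] φ)) ∧ ∀ ε, 0 ≤ ε → Gap ε φ → Gap (min (2 ^ k * ε) ε0) (rd^[k] φ) := fun φ hφ k => by
    induction k with
    | zero => exact ⟨hφ, by simp, by simp, id, fun ε _ h => h.mono (by simp)⟩
    | succ k ih =>
      obtain ⟨a1, a2, a3, a4⟩ := h _ ih.1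
      rw [Function.iterate_succ_apply']
      refine ⟨a1.1, fun _ => a1, a2.trans ?_, fun s => a3 (ih.2.2.2.1 s), fun ε ε0 hg =>
        (a4 _ (by positivity) (ih.2.2.2.2 ε ε0 hg)).mono ?_⟩
      · rw [pow_succ', mul_assoc]; exact Nat.mul_le_mul_left _ ih.2.2.1
      · rw [mul_min_of_nonneg _ _ zero_le_two, pow_succ', mul_assoc]
        exact le_min (min_le_min le_rfl (by linarith)) (min_le_right _ _)
  refine ⟨fun x => rd^[(f x).length.size] (f x), ?_, fun x => ?_⟩
  · let L := fun x => (2 * (f x).length + 1) ^ (C + 1) * (f x).length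
    refine PT.iterate (F := fun _ => rd) (B := fun x => size (f x) + (L x * (10 * (3 * (K * L x) + 2 + 1) + 2 + 1) + 2))
      (by fun_prop) hf (by fun_prop) (by fun_prop) (by simp only [L]; fun_prop) fun x k hk => ?_
    rcases Nat.eq_zero_or_pos k with rfl | k0
    · simp
    obtain ⟨-, a1, a2, -⟩ := it _ (e x).1 k
    have h1 : 2 ^ k ≤ 2 * (f x).length + 1 := by
      have := Nat.lt_size.1 (show k - 1 < (f x).length.size by omega)
      rw [show k = k - 1 + 1 by omega, pow_succ]; omega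
    have h2 : (rd^[k] (f x)).length ≤ L x := a2.trans (Nat.mul_le_mul_right _ (calc
      C ^ k ≤ (2 ^ (C + 1)) ^ k := Nat.pow_le_pow_left (by have := @Nat.lt_two_pow_self (C + 1); omega) _
      _ = (2 ^ k) ^ (C + 1) := by rw [← pow_mul, ← pow_mul, mul_comm]
      _ ≤ _ := Nat.pow_le_pow_left h1 _))
    refine (a1 k0).size.trans (le_add_left ?_)
    gcongr
  · obtain ⟨-, a1, -, a3, a4⟩ := it _ (e x).1 (f x).length.size
    have l0 := List.length_pos_iff.2 (e x).1
    refine ⟨a1 (Nat.size_pos.2 l0), fun hx => a3 ((e x).2.1 hx), fun hx =>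
      (a4 _ (by positivity) ((e x).2.2 hx)).mono (min_le_min ?_ le_rfl)⟩
    rw [mul_one_div, le_div_iff₀ (by exact_mod_cast l0), one_mul]
    exact_mod_cast (Nat.lt_size_self _).le

end Pool.Agent.Lib.helper20.PCP
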