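import Mathlib

set_option autoImplicit false

/-! A type synonym `X` for real `c₀` with a single clean chain of instances; coordinates are
the continuous linear functionals `ev k`. -/

namespace Pool.Agent.Lib.helper20.C0

open Filter Topology

def X : Type := ZeroAtInftyContinuousMap ℕ ℝ

noncomputable instance : NormedAddCommGroup X :=
  inferInstanceAs (NormedAddCommGroup (ZeroAtInftyContinuousMap ℕ ℝ))
noncomputable instance : NormedSpace ℝ X :=
  inferInstanceAs (NormedSpace ℝ (ZeroAtInftyContinuousMap ℕ ℝ))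
instance : CompleteSpace X := inferInstanceAs (CompleteSpace (ZeroAtInftyContinuousMap ℕ ℝ))

def toC (x : X) : ZeroAtInftyContinuousMap ℕ ℝ := x

lemma abs_toC_le (x : X) (n : ℕ) : |toC x n| ≤ ‖x‖ := by
  have := (toC x).toBCF.norm_coe_le_norm n
  exact this

noncomputable def ev (k : ℕ) : X →L[ℝ] ℝ :=
  LinearMap.mkContinuous
    { toFun := fun x => toC x k
      map_add' := fun _ _ => rfl
      map_smul' := fun _ _ => rfl } 1 (fun x => by simpa using abs_toC_le x k)

noncomputable def mk (f : ℕ → ℝ) (hf : Tendsto f atTop (𝓝 0)) : X :=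
  show ZeroAtInftyContinuousMap ℕ ℝ from
  { toFun := f
    continuous_toFun := continuous_of_discreteTopology
    zero_at_infty' := by rwa [cocompact_eq_cofinite, Nat.cofinite_eq_atTop] }

lemma ev_mk (f : ℕ → ℝ) (hf : Tendsto f atTop (𝓝 0)) (n : ℕ) : ev n (mk f hf) = f n := rfl

lemma ext {x y : X} (h : ∀ n, ev n x = ev n y) : x = y :=
  ZeroAtInftyContinuousMap.ext (f := toC x) (g := toC y) h

lemma tend (x : X) : Tendsto (fun n => ev n x) atTop (𝓝 0) := by
  have := (toC x).zero_at_infty'
  rwa [cocompact_eq_cofinite, Nat.cofinite_eq_atTop] at this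

lemma abs_le_norm (x : X) (n : ℕ) : |ev n x| ≤ ‖x‖ := abs_toC_le x n

lemma norm_le (x : X) (c : ℝ) (hc : 0 ≤ c) (h : ∀ n, |ev n x| ≤ c) : ‖x‖ ≤ c :=
  (BoundedContinuousFunction.norm_le (f := (toC x).toBCF) hc).mpr h

noncomputable def e (k : ℕ) : X :=
  mk (fun n => if n = k then 1 else 0) (by
    apply tendsto_const_nhds.congr'
    filter_upwards [eventually_gt_atTop k] with n hn
    simp [hn.ne'])

lemma ev_e (k n : ℕ) : ev n (e k) = if n = k then 1 else 0 := rfl

lemma norm_e (k : ℕ) : ‖e k‖ = 1 := by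
  apply le_antisymm
  · apply norm_le _ _ zero_le_one
    intro n
    rw [ev_e]
    split_ifs <;> simp
  · have := abs_le_norm (e k) k
    simpa [ev_e] using this

noncomputable def trunc (m : ℕ) : X →L[ℝ] X := ∑ k ∈ Finset.range m, (ev k).smulRight (e k)

lemma trunc_eq (m : ℕ) (x : X) : trunc m x = ∑ k ∈ Finset.range m, ev k x • e k := by
  unfold trunc
  rw [sum_apply]
  rfl

lemma ev_trunc (m : ℕ) (x : X) (n : ℕ) : ev n (trunc m x) = if n < m then ev n x else 0 := by
  rw [trunc_eq, map_sum]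
  simp only [map_smul, ev_e, smul_eq_mul, mul_ite, mul_one, mul_zero]
  rw [Finset.sum_ite_eq]
  simp

lemma trunc_trunc (n m : ℕ) (x : X) : trunc n (trunc m x) = trunc (min n m) x := by
  apply ext
  intro k
  simp only [ev_trunc, lt_min_iff]
  by_cases h1 : k < n <;> by_cases h2 : k < m <;> simp [h1, h2]

lemma norm_trunc_le (m : ℕ) (x : X) : ‖trunc m x‖ ≤ ‖x‖ := by
  apply norm_le _ _ (norm_nonneg _)
  intro n
  rw [ev_trunc]
  split_ifs
  · exact abs_le_norm x n
  · simp

lemma trunc_tendsto (x : X) : Tendsto (fun m => trunc m x) atTop (𝓝 x) := by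
  rw [Metric.tendsto_atTop]
  intro ε hε
  obtain ⟨N, hN⟩ := Metric.tendsto_atTop.mp (tend x) (ε / 2) (by linarith)
  refine ⟨N, fun n hn => ?_⟩
  rw [dist_eq_norm]
  refine lt_of_le_of_lt (norm_le _ (ε / 2) (by linarith) ?_) (by linarith)
  intro k
  rw [map_sub, ev_trunc]
  split_ifs with h
  · simp; linarith
  · have := hN k (by omega)
    rw [Real.dist_eq, sub_zero] at this
    simpa using this.le

end Pool.Agent.Lib.helper20.C0
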