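import Mathlib

set_option autoImplicit false

namespace Pool.Agent.Lib.helper20.Four

open MeasureTheory Set
open scoped ENNReal

lemma ab4 {a b c d : ℝ≥0∞} (h1 : a ≤ c) (h2 : b ≤ c) (h3 : a * b ≤ c * d) : a + b ≤ c + d := by
  rcases eq_or_ne c ⊤ with rfl | hc
  · simp
  rcases eq_or_ne d ⊤ with rfl | hd
  · simp
  lift c to NNReal using hc
  lift d to NNReal using hd
  lift a to NNReal using ne_top_of_le_ne_top ENNReal.coe_ne_top h1
  lift b to NNReal using ne_top_of_le_ne_top ENNReal.coe_ne_top h2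
  norm_cast at *
  have k1 : (a : ℝ) ≤ c := h1
  have k2 : (b : ℝ) ≤ c := h2
  have k3 : (a : ℝ) * b ≤ c * d := by exact_mod_cast h3
  have a0 := a.2
  have b0 := b.2
  have d0 := d.2
  have : (a : ℝ) + b ≤ c + d := by
    by_contra hh
    push Not at hh
    have c0 : (0 : ℝ) < c := by
      rcases c.2.eq_or_lt with h | h
      · have e : (c : ℝ) = 0 := h.symm
        have a0' : (0 : ℝ) ≤ a := a.2
        have b0' : (0 : ℝ) ≤ b := b.2
        have d0' : (0 : ℝ) ≤ d := d.2
        linarith
      · exact h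
    nlinarith [mul_nonneg (sub_nonneg.2 k1) (sub_nonneg.2 k2)]
  exact_mod_cast this

lemma four1 (μ : Measure ℝ) (f1 f2 f3 f4 : ℝ → ℝ≥0∞) (m1 : Measurable f1) (m2 : Measurable f2)
    (m3 : Measurable f3) (m4 : Measurable f4)
    (h : ∀ x y, f1 x * f2 y ≤ f3 (x ⊔ y) * f4 (x ⊓ y)) :
    (∫⁻ x, f1 x ∂μ) * (∫⁻ x, f2 x ∂μ) ≤ (∫⁻ x, f3 x ∂μ) * (∫⁻ x, f4 x ∂μ) := by
  have e : ∀ f g : ℝ → ℝ≥0∞, Measurable f → Measurable g →
      ∫⁻ x, ∫⁻ y, (f x * g y + f y * g x) ∂μ ∂μ = 2 * ((∫⁻ x, f x ∂μ) * (∫⁻ x, g x ∂μ)) := by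
    intro f g mf mg
    have : ∀ x, ∫⁻ y, (f x * g y + f y * g x) ∂μ
        = f x * (∫⁻ x, g x ∂μ) + (∫⁻ x, f x ∂μ) * g x := by
      intro x
      rw [lintegral_add_left (mg.const_mul _), lintegral_const_mul _ mg, lintegral_mul_const _ mf]
    simp_rw [this]
    rw [lintegral_add_left (mf.mul_const _), lintegral_const_mul _ mg, lintegral_mul_const _ mf,
      two_mul]
  have key : ∀ x y, x ≤ y → f1 x * f2 y + f1 y * f2 x ≤ f3 x * f4 y + f3 y * f4 x := by
    intro x y hxy
    have a1 := h x y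
    have a2 := h y x
    have a3 := h x x
    have a4 := h y y
    rw [sup_eq_right.2 hxy, inf_eq_left.2 hxy] at a1
    rw [sup_eq_left.2 hxy, inf_eq_right.2 hxy] at a2
    rw [sup_idem, inf_idem] at a3 a4
    rw [add_comm (f3 x * f4 y)]
    refine ab4 a1 a2 ?_
    calc f1 x * f2 y * (f1 y * f2 x) = (f1 x * f2 x) * (f1 y * f2 y) := by ring
      _ ≤ (f3 x * f4 x) * (f3 y * f4 y) := mul_le_mul' a3 a4
      _ = _ := by ring
  have key' : ∀ x y, f1 x * f2 y + f1 y * f2 x ≤ f3 x * f4 y + f3 y * f4 x := by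
    intro x y
    rcases le_total x y with hxy | hxy
    · exact key x y hxy
    · rw [add_comm, add_comm (f3 x * f4 y)]; exact key y x hxy
  have := lintegral_mono (μ := μ) (fun x => lintegral_mono (μ := μ) (fun y => key' x y))
  rw [e f1 f2 m1 m2, e f3 f4 m3 m4] at this
  exact (ENNReal.mul_le_mul_iff_right (by norm_num) (by norm_num)).1 this

/-- Continuous four functions theorem (Ahlswede-Daykin, Karlin-Rinott) for product measures. -/
theorem four {ι : Type*} [Fintype ι] [DecidableEq ι] (μ : ι → Measure ℝ) [∀ i, SigmaFinite (μ i)]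
    (f1 f2 f3 f4 : (ι → ℝ) → ℝ≥0∞) (m1 : Measurable f1) (m2 : Measurable f2)
    (m3 : Measurable f3) (m4 : Measurable f4)
    (h : ∀ x y, f1 x * f2 y ≤ f3 (x ⊔ y) * f4 (x ⊓ y)) :
    (∫⁻ x, f1 x ∂Measure.pi μ) * (∫⁻ x, f2 x ∂Measure.pi μ)
      ≤ (∫⁻ x, f3 x ∂Measure.pi μ) * (∫⁻ x, f4 x ∂Measure.pi μ) := by
  have key : ∀ s : Finset ι, ∀ x y, (∫⋯∫⁻_s, f1 ∂μ) x * (∫⋯∫⁻_s, f2 ∂μ) y
      ≤ (∫⋯∫⁻_s, f3 ∂μ) (x ⊔ y) * (∫⋯∫⁻_s, f4 ∂μ) (x ⊓ y) := by
    intro s
    induction s using Finset.induction_on with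
    | empty => simpa using h
    | insert i s hi ih =>
      intro x y
      rw [lmarginal_insert _ m1 hi, lmarginal_insert _ m2 hi, lmarginal_insert _ m3 hi,
        lmarginal_insert _ m4 hi]
      refine four1 _ _ _ _ _ ((m1.lmarginal μ).comp (measurable_update _))
        ((m2.lmarginal μ).comp (measurable_update _)) ((m3.lmarginal μ).comp (measurable_update _))
        ((m4.lmarginal μ).comp (measurable_update _)) (fun t u => ?_)
      have e1 : Function.update (x ⊔ y) i (t ⊔ u) = Function.update x i t ⊔ Function.update y i u := by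
        funext j
        by_cases hj : j = i
        · subst hj; simp
        · simp [Function.update_of_ne hj]
      have e2 : Function.update (x ⊓ y) i (t ⊓ u) = Function.update x i t ⊓ Function.update y i u := by
        funext j
        by_cases hj : j = i
        · subst hj; simp
        · simp [Function.update_of_ne hj]
      rw [e1, e2]
      exact ih _ _
  have := key Finset.univ 0 0
  rwa [← lintegral_eq_lmarginal_univ, ← lintegral_eq_lmarginal_univ, ← lintegral_eq_lmarginal_univ,
    ← lintegral_eq_lmarginal_univ] at this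

/-- a symmetric function vanishing off injective tuples: integral over the ordered chamber -/
theorem chamber {n : ℕ} (f : (Fin n → ℝ) → ℝ≥0∞) (mf : Measurable f)
    (hs : ∀ (x : Fin n → ℝ) (σ : Equiv.Perm (Fin n)), f (x ∘ σ) = f x)
    (h0 : ∀ x, ¬ Function.Injective x → f x = 0) :
    ∫⁻ x, f x = (n.factorial : ℝ≥0∞) * ∫⁻ x, {x : Fin n → ℝ | StrictMono x}.indicator f x := by
  have mS : MeasurableSet {x : Fin n → ℝ | StrictMono x} := by
    have : {x : Fin n → ℝ | StrictMono x} = ⋂ a, ⋂ b, {x | a < b → x a < x b} := by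
      ext x; simp [StrictMono]
    rw [this]
    refine MeasurableSet.iInter (fun a => MeasurableSet.iInter (fun b => ?_))
    by_cases hab : a < b
    · simpa [hab] using measurableSet_lt (measurable_pi_apply a) (measurable_pi_apply b)
    · simp [hab]
  have mp : ∀ σ : Equiv.Perm (Fin n), MeasurePreserving (fun x : Fin n → ℝ => x ∘ σ) := by
    intro σ
    have := volume_preserving_arrowCongr' σ.symm (MeasurableEquiv.refl ℝ) (MeasurePreserving.id _)
    exact this
  have pt : ∀ x, f x = ∑ σ : Equiv.Perm (Fin n),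
      {x : Fin n → ℝ | StrictMono x}.indicator f (x ∘ σ) := by
    intro x
    by_cases hx : Function.Injective x
    · rw [Finset.sum_eq_single (Tuple.sort x)]
      · rw [indicator_of_mem, hs]
        exact (Tuple.monotone_sort x).strictMono_of_injective (hx.comp (Tuple.sort x).injective)
      · intro σ _ hσ
        refine indicator_of_notMem (fun h => hσ ?_) _
        have := Tuple.unique_monotone (f := x) (StrictMono.monotone h) (Tuple.monotone_sort x)
        ext i
        exact congrArg Fin.val (hx (congrFun this i))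
      · simp
    · rw [h0 x hx]
      refine (Finset.sum_eq_zero (fun σ _ => ?_)).symm
      refine indicator_of_notMem (fun h => hx ?_) _
      exact (Function.Injective.of_comp_iff' x σ.bijective).1 (StrictMono.injective h)
  rw [lintegral_congr pt, lintegral_finsetSum
    (f := fun (σ : Equiv.Perm (Fin n)) x => {x : Fin n → ℝ | StrictMono x}.indicator f (x ∘ σ)) _
    (fun σ _ => (mf.indicator mS).comp (mp σ).measurable),
    Finset.sum_congr rfl (fun σ _ => (mp σ).lintegral_comp (mf.indicator mS))]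
  simp [Fintype.card_perm]

end Pool.Agent.Lib.helper20.Four
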