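import Mathlib

/-! A Poincare inequality for the Margulis graphs on `range (M * M)`. -/

namespace Pool.Agent.Lib.helper20.PCP

open Finset

noncomputable def gam (a b : ℕ) : ℝ := if b < a then 5 / 4 else if a < b then 4 / 5 else 1

theorem gam_le (a b : ℕ) : gam a b ≤ 5 / 4 := by unfold gam; split_ifs <;> norm_num

theorem gam_ineq (a b : ℕ) (x y : ℝ) : 2 * x * y ≤ gam a b * x ^ 2 + gam b a * y ^ 2 := by
  unfold gam
  split_ifs <;> first | omega | nlinarith [sq_nonneg (5 * x - 4 * y), sq_nonneg (4 * x - 5 * y), sq_nonneg (x - y)]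

theorem perm_ineq {X : Type} [Fintype X] (S : Equiv.Perm X) (g : X → ℝ) (N : X → ℕ) :
    ∑ x, (2 - gam (N x) (N (S x)) - gam (N x) (N (S.symm x))) * g x ^ 2 ≤ ∑ x, (g (S x) - g x) ^ 2 := by
  have h1 : ∑ x, g (S x) ^ 2 = ∑ x, g x ^ 2 := Equiv.sum_comp S fun x => g x ^ 2
  have h2 : ∑ x, gam (N (S x)) (N x) * g (S x) ^ 2 = ∑ x, gam (N x) (N (S.symm x)) * g x ^ 2 := by
    rw [← Equiv.sum_comp S fun x => gam (N x) (N (S.symm x)) * g x ^ 2]; simp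
  have h3 : ∑ x, (g (S x) ^ 2 + g x ^ 2 - gam (N x) (N (S x)) * g x ^ 2 - gam (N (S x)) (N x) * g (S x) ^ 2) ≤
      ∑ x, (g (S x) - g x) ^ 2 := sum_le_sum fun x _ => by nlinarith [gam_ineq (N x) (N (S x)) (g x) (g (S x))]
  simp only [sum_sub_distrib, sum_add_distrib, sub_mul, h1, h2, two_mul] at h3 ⊢
  exact h3

theorem gam_box (x y : ℤ) (h : x ≠ 0 ∨ y ≠ 0) :
    gam (x.natAbs + y.natAbs) (x.natAbs + (y - 2 * x).natAbs) + gam (x.natAbs + y.natAbs) (x.natAbs + (y + 2 * x).natAbs) +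
    gam (x.natAbs + y.natAbs) ((x - 2 * y).natAbs + y.natAbs) + gam (x.natAbs + y.natAbs) ((x + 2 * y).natAbs + y.natAbs)
      ≤ 73 / 20 := by
  unfold gam
  split_ifs <;> first | (exfalso; omega) | norm_num

variable {M : ℕ} [NeZero M]

theorem char_far (a : ZMod M) (h : M ≤ 6 * a.valMinAbs.natAbs) : 4 / 9 ≤ ‖ZMod.stdAddChar (-a) - 1‖ ^ 2 := by
  have hM : (0 : ℝ) < M := Nat.cast_pos.2 (NeZero.pos M)
  set v := a.valMinAbs with hv
  have e : -a = ((-v : ℤ) : ZMod M) := by simp [hv]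
  have e2 : ZMod.stdAddChar (-a) = Complex.exp (Complex.I * ((-(2 * Real.pi * v / M) : ℝ) : ℂ)) := by
    rw [e, ZMod.stdAddChar_coe]; congr 1; push_cast; ring
  rw [e2, Complex.norm_exp_I_mul_ofReal_sub_one, Real.norm_eq_abs]
  have h2 : 2 * v.natAbs ≤ M := by have := ZMod.natAbs_valMinAbs_le a; omega
  have h3 : (2 : ℝ) * |(v : ℝ)| ≤ M := by
    have : ((2 * v.natAbs : ℕ) : ℝ) ≤ M := by exact_mod_cast h2
    simpa [Nat.cast_natAbs] using this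
  have h4 : (M : ℝ) ≤ 6 * |(v : ℝ)| := by
    have : (M : ℝ) ≤ ((6 * v.natAbs : ℕ) : ℝ) := by exact_mod_cast h
    simpa [Nat.cast_natAbs] using this
  have ha : |-(2 * Real.pi * v / M) / 2| = Real.pi * (|(v : ℝ)| / M) := by
    rw [show -(2 * Real.pi * v / M) / 2 = -(Real.pi * (v / M)) by ring, abs_neg, abs_mul, abs_div,
      abs_of_pos Real.pi_pos, abs_of_pos hM]
  have h5 : |(v : ℝ)| / M ≤ 1 / 2 := by rw [div_le_iff₀ hM]; linarith
  have h6 : 1 / 6 ≤ |(v : ℝ)| / M := by rw [le_div_iff₀ hM]; linarith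
  have h7 := Real.mul_abs_le_abs_sin (x := -(2 * Real.pi * v / M) / 2) (by rw [ha]; nlinarith [Real.pi_pos])
  rw [ha, show 2 / Real.pi * (Real.pi * (|(v : ℝ)| / M)) = 2 * (|(v : ℝ)| / M) by field_simp] at h7
  rw [abs_mul, abs_two]
  nlinarith

noncomputable def FT (u : ZMod M × ZMod M → ℝ) (ξ : ZMod M × ZMod M) : ℂ :=
  ∑ r, (u r : ℂ) * ZMod.stdAddChar (ξ.1 * r.1 + ξ.2 * r.2)

theorem char_sum (a : ZMod M) : ∑ x : ZMod M, ZMod.stdAddChar (x * a) = if a = 0 then (M : ℂ) else 0 := by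
  classical
  have := AddChar.sum_mulShift a (ZMod.isPrimitive_stdAddChar M)
  rw [this]; split_ifs <;> simp

theorem parseval (u : ZMod M × ZMod M → ℝ) : ∑ ξ, ‖FT u ξ‖ ^ 2 = (M : ℝ) ^ 2 * ∑ r, u r ^ 2 := by
  classical
  have key : ∀ r s : ZMod M × ZMod M, ∑ ξ : ZMod M × ZMod M, ZMod.stdAddChar (ξ.1 * r.1 + ξ.2 * r.2) *
      (starRingEnd ℂ) (ZMod.stdAddChar (ξ.1 * s.1 + ξ.2 * s.2)) = if r = s then (M : ℂ) ^ 2 else 0 := by
    intro r s
    have : ∀ ξ : ZMod M × ZMod M, ZMod.stdAddChar (ξ.1 * r.1 + ξ.2 * r.2) *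
        (starRingEnd ℂ) (ZMod.stdAddChar (ξ.1 * s.1 + ξ.2 * s.2)) =
        ZMod.stdAddChar (ξ.1 * (r.1 - s.1)) * ZMod.stdAddChar (ξ.2 * (r.2 - s.2)) := fun ξ => by
      rw [← AddChar.map_neg_eq_conj, ← AddChar.map_add_eq_mul, ← AddChar.map_add_eq_mul]; congr 1; ring
    simp only [this]
    rw [Fintype.sum_prod_type]
    beta_reduce
    simp only []
    rw [← sum_mul_sum, char_sum, char_sum]
    simp only [sub_eq_zero, Prod.ext_iff]
    by_cases h1 : r.1 = s.1 <;> by_cases h2 : r.2 = s.2 <;> simp [h1, h2, sq]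
  apply Complex.ofReal_injective
  push_cast
  simp only [← Complex.mul_conj', FT, map_sum, sum_mul_sum, map_mul, Complex.conj_ofReal]
  rw [sum_comm, mul_sum]
  refine sum_congr rfl fun r _ => ?_
  rw [sum_comm]
  have : ∀ s, ∑ ξ : ZMod M × ZMod M, (u r : ℂ) * ZMod.stdAddChar (ξ.1 * r.1 + ξ.2 * r.2) *
      ((u s : ℂ) * (starRingEnd ℂ) (ZMod.stdAddChar (ξ.1 * s.1 + ξ.2 * s.2))) =
      u r * u s * if r = s then (M : ℂ) ^ 2 else 0 := fun s => by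
    rw [← key, mul_sum]; exact sum_congr rfl fun _ _ => by ring
  simp only [this, mul_ite, mul_zero, sum_ite_eq, mem_univ, if_true]
  ring

theorem FT_sub (u v : ZMod M × ZMod M → ℝ) (ξ) : FT (fun r => u r - v r) ξ = FT u ξ - FT v ξ := by
  simp [FT, sub_mul]

def S1 : Equiv.Perm (ZMod M × ZMod M) :=
  ⟨fun r => (r.1, r.2 - 2 * r.1), fun r => (r.1, r.2 + 2 * r.1), fun r => by simp, fun r => by simp⟩
def S2 : Equiv.Perm (ZMod M × ZMod M) :=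
  ⟨fun r => (r.1 - 2 * r.2, r.2), fun r => (r.1 + 2 * r.2, r.2), fun r => by simp, fun r => by simp⟩

theorem poinZ (f : ZMod M × ZMod M → ℝ) (h0 : ∑ r, f r = 0) :
    1 / 12 * ∑ r, f r ^ 2 ≤ ∑ r, (f (r.1 + 2 * r.2, r.2) - f r) ^ 2 + ∑ r, (f (r.1, r.2 + 2 * r.1) - f r) ^ 2 +
      ∑ r, (f (r.1 + 1, r.2) - f r) ^ 2 + ∑ r, (f (r.1, r.2 + 1) - f r) ^ 2 := by
  have hM : (0 : ℝ) < (M : ℝ) ^ 2 := pow_pos (Nat.cast_pos.2 (NeZero.pos M)) 2
  set g : ZMod M × ZMod M → ℝ := fun ξ => ‖FT f ξ‖ with hg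
  have g0 : g 0 = 0 := by
    have : FT f 0 = ((∑ r, f r : ℝ) : ℂ) := by simp [FT]
    simp [hg, this, h0]
  have sh : ∀ (T S : Equiv.Perm (ZMod M × ZMod M)), (∀ ξ r, ξ.1 * (T r).1 + ξ.2 * (T r).2 = (S ξ).1 * r.1 + (S ξ).2 * r.2) →
      ∑ ξ, (g (S ξ) - g ξ) ^ 2 ≤ (M : ℝ) ^ 2 * ∑ r, (f (T.symm r) - f r) ^ 2 := by
    intro T S h
    rw [← parseval]
    refine sum_le_sum fun ξ _ => ?_
    have : FT (fun r => f (T.symm r)) ξ = FT f (S ξ) := by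
      unfold FT; rw [← Equiv.sum_comp T]; simp [h]
    rw [FT_sub, this]
    exact sq_le_sq.2 (by rw [abs_norm]; exact abs_norm_sub_norm_le _ _)
  have tr : ∀ t : ZMod M × ZMod M, ∑ ξ, ‖ZMod.stdAddChar (-(ξ.1 * t.1 + ξ.2 * t.2)) - 1‖ ^ 2 * g ξ ^ 2 =
      (M : ℝ) ^ 2 * ∑ r, (f (r + t) - f r) ^ 2 := by
    intro t
    rw [← parseval]
    refine sum_congr rfl fun ξ _ => ?_
    have : FT (fun r => f (r + t)) ξ = ZMod.stdAddChar (-(ξ.1 * t.1 + ξ.2 * t.2)) * FT f ξ := by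
      unfold FT; rw [← Equiv.sum_comp (Equiv.subRight t), mul_sum]
      refine sum_congr rfl fun r _ => ?_
      rw [mul_left_comm, ← AddChar.map_add_eq_mul]
      simp only [Equiv.subRight_apply, sub_add_cancel, Prod.fst_sub, Prod.snd_sub]
      congr 2; ring
    rw [FT_sub, this, ← sub_one_mul, norm_mul, mul_pow]
  have a1 := sh S2 S1 fun ξ r => by simp [S1, S2]; ring
  have a2 := sh S1 S2 fun ξ r => by simp [S1, S2]; ring
  have a3 := tr (1, 0)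
  have a4 := tr (0, 1)
  let N : ZMod M × ZMod M → ℕ := fun ξ => ξ.1.valMinAbs.natAbs + ξ.2.valMinAbs.natAbs
  have b1 := perm_ineq S1 g N
  have b2 := perm_ineq S2 g N
  have pt : ∀ ξ, 7 / 20 * g ξ ^ 2 ≤ (2 - gam (N ξ) (N (S1 ξ)) - gam (N ξ) (N (S1.symm ξ))) * g ξ ^ 2 +
      (2 - gam (N ξ) (N (S2 ξ)) - gam (N ξ) (N (S2.symm ξ))) * g ξ ^ 2 +
      4 * (‖ZMod.stdAddChar (-(ξ.1 * 1 + ξ.2 * 0)) - 1‖ ^ 2 * g ξ ^ 2) +
      4 * (‖ZMod.stdAddChar (-(ξ.1 * 0 + ξ.2 * 1)) - 1‖ ^ 2 * g ξ ^ 2) := by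
    intro ξ
    by_cases hz : ξ = 0
    · simp [hz, g0]
    simp only [mul_one, mul_zero, add_zero, zero_add, ← mul_assoc, ← add_mul]
    refine mul_le_mul_of_nonneg_right ?_ (sq_nonneg _)
    have c1 := gam_le (N ξ) (N (S1 ξ))
    have c2 := gam_le (N ξ) (N (S1.symm ξ))
    have c3 := gam_le (N ξ) (N (S2 ξ))
    have c4 := gam_le (N ξ) (N (S2.symm ξ))
    have d1 := sq_nonneg ‖ZMod.stdAddChar (-ξ.1) - 1‖
    have d2 := sq_nonneg ‖ZMod.stdAddChar (-ξ.2) - 1‖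
    by_cases h1 : M ≤ 6 * ξ.1.valMinAbs.natAbs
    · linarith [char_far _ h1]
    by_cases h2 : M ≤ 6 * ξ.2.valMinAbs.natAbs
    · linarith [char_far _ h2]
    have v : ∀ a b : ZMod M, ¬ M ≤ 6 * a.valMinAbs.natAbs → ¬ M ≤ 6 * b.valMinAbs.natAbs →
        (a - 2 * b).valMinAbs = a.valMinAbs - 2 * b.valMinAbs ∧ (a + 2 * b).valMinAbs = a.valMinAbs + 2 * b.valMinAbs := by
      intro a b ha hb
      simp only [ZMod.valMinAbs_spec, Set.mem_Ioc]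
      refine ⟨⟨by simp, ?_, ?_⟩, by simp, ?_, ?_⟩ <;> omega
    have := gam_box ξ.1.valMinAbs ξ.2.valMinAbs (by
      by_contra! hc; exact hz (Prod.ext (by simpa using hc.1) (by simpa using hc.2)))
    rw [← (v _ _ h1 h2).1, ← (v _ _ h1 h2).2, ← (v _ _ h2 h1).1, ← (v _ _ h2 h1).2] at this
    have e : gam (N ξ) (N (S1 ξ)) + gam (N ξ) (N (S1.symm ξ)) + gam (N ξ) (N (S2 ξ)) + gam (N ξ) (N (S2.symm ξ)) ≤
      73 / 20 := this
    linarith
  have c := sum_le_sum fun ξ (_ : ξ ∈ univ) => pt ξ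
  simp only [sum_add_distrib, ← mul_sum] at c
  have p := parseval f
  have e1 : ∑ r, (f (S2.symm r) - f r) ^ 2 = ∑ r, (f (r.1 + 2 * r.2, r.2) - f r) ^ 2 := rfl
  have e2 : ∑ r, (f (S1.symm r) - f r) ^ 2 = ∑ r, (f (r.1, r.2 + 2 * r.1) - f r) ^ 2 := rfl
  have e3 : ∑ r, (f (r + (1, 0)) - f r) ^ 2 = ∑ r, (f (r.1 + 1, r.2) - f r) ^ 2 :=
    sum_congr rfl fun r _ => by rw [show r + (1, 0) = (r.1 + 1, r.2) by ext <;> simp]
  have e4 : ∑ r, (f (r + (0, 1)) - f r) ^ 2 = ∑ r, (f (r.1, r.2 + 1) - f r) ^ 2 :=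
    sum_congr rfl fun r _ => by rw [show r + (0, 1) = (r.1, r.2 + 1) by ext <;> simp]
  rw [e1] at a1; rw [e2] at a2; rw [e3] at a3; rw [e4] at a4
  have n0 : 0 ≤ ∑ r, f r ^ 2 := sum_nonneg fun _ _ => sq_nonneg _
  have n1 : 0 ≤ ∑ r, (f (r.1 + 2 * r.2, r.2) - f r) ^ 2 := sum_nonneg fun _ _ => sq_nonneg _
  have n2 : 0 ≤ ∑ r, (f (r.1, r.2 + 2 * r.1) - f r) ^ 2 := sum_nonneg fun _ _ => sq_nonneg _
  refine le_of_mul_le_mul_left ?_ hM
  simp only at a3 a4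
  have q : ∑ ξ, g ξ ^ 2 = (M : ℝ) ^ 2 * ∑ r, f r ^ 2 := p
  nlinarith [mul_nonneg hM.le n0, mul_nonneg hM.le n1, mul_nonneg hM.le n2]

/-- labels of the Margulis graph -/
abbrev G := Bool × Bool × Bool
def ginv (g : G) : G := (g.1, g.2.1, !g.2.2)

/-- the neighbour of `r` along `g` -/
def mg (M : ℕ) (g : G) (r : ℕ) : ℕ :=
  if g.1 then (r / M + (if g.2.2 then 1 else M - 1) * (if g.2.1 then 2 * (r % M) else 1)) % M * M + r % M
  else r / M * M + (r % M + (if g.2.2 then 1 else M - 1) * (if g.2.1 then 2 * (r / M) else 1)) % M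

def mz (g : G) (z : ZMod M × ZMod M) : ZMod M × ZMod M :=
  if g.1 then (z.1 + (if g.2.2 then 1 else -1) * (if g.2.1 then 2 * z.2 else 1), z.2)
  else (z.1, z.2 + (if g.2.2 then 1 else -1) * (if g.2.1 then 2 * z.1 else 1))

def ps (z : ZMod M × ZMod M) : ℕ := z.1.val * M + z.2.val

theorem ps_div (z : ZMod M × ZMod M) : ps z / M = z.1.val := by
  rw [ps, mul_comm, Nat.mul_add_div (NeZero.pos M), Nat.div_eq_of_lt (ZMod.val_lt _)]; rfl
theorem ps_mod (z : ZMod M × ZMod M) : ps z % M = z.2.val := by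
  rw [ps, mul_comm, Nat.mul_add_mod, Nat.mod_eq_of_lt (ZMod.val_lt _)]
theorem ps_lt (z : ZMod M × ZMod M) : ps z < M * M := by
  have := ZMod.val_lt z.1; have := ZMod.val_lt z.2; unfold ps; nlinarith
theorem ps_surj {r : ℕ} (h : r < M * M) : ps (M := M) ((r / M : ℕ), (r % M : ℕ)) = r := by
  simp only [ps, ZMod.val_natCast, Nat.mod_mod]
  rw [Nat.mod_eq_of_lt (Nat.div_lt_of_lt_mul h), Nat.div_add_mod']

theorem mg_ps (g : G) (z : ZMod M × ZMod M) : mg M g (ps z) = ps (mz g z) := by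
  have e : ((M - 1 : ℕ) : ZMod M) = -1 := by rw [Nat.cast_sub (NeZero.one_le)]; simp
  rw [mg, ps_div, ps_mod]
  obtain ⟨a, b, c⟩ := g
  cases a <;> cases b <;> cases c <;> simp only [mz, ps, ← ZMod.val_natCast] <;> push_cast <;> simp [e]

theorem sum_ps (F : ℕ → ℝ) : ∑ r ∈ range (M * M), F r = ∑ z : ZMod M × ZMod M, F (ps z) :=
  (sum_nbij' ps (fun r => ((r / M : ℕ), (r % M : ℕ))) (fun z _ => mem_range.2 (ps_lt z)) (fun _ _ => mem_univ _)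
    (fun z _ => by simp [ps_div, ps_mod]) (fun r h => ps_surj (mem_range.1 h)) fun _ _ => rfl).symm

omit [NeZero M] in
theorem mg_lt (g : G) {r : ℕ} (h : r < M * M) : mg M g r < M * M := by
  haveI : NeZero M := ⟨by rintro rfl; simp at h⟩
  rw [← ps_surj h, mg_ps]; exact ps_lt _

omit [NeZero M] in
theorem mg_inv (g : G) {r : ℕ} (h : r < M * M) : mg M (ginv g) (mg M g r) = r := by
  haveI : NeZero M := ⟨by rintro rfl; simp at h⟩
  rw [← ps_surj h, mg_ps, mg_ps]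
  congr 1
  obtain ⟨a, b, c⟩ := g
  cases a <;> cases b <;> cases c <;> simp [mz, ginv]

omit [NeZero M] in
theorem poin (f : ℕ → ℝ) (h0 : ∑ r ∈ range (M * M), f r = 0) :
    1 / 12 * ∑ r ∈ range (M * M), f r ^ 2 ≤ ∑ g : G, ∑ r ∈ range (M * M), (f (mg M g r) - f r) ^ 2 := by
  rcases Nat.eq_zero_or_pos M with rfl | hM
  · simp
  haveI : NeZero M := ⟨hM.ne'⟩
  simp only [sum_ps, mg_ps] at h0 ⊢
  refine (poinZ (fun z => f (ps z)) h0).trans ?_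
  refine le_trans (le_of_eq ?_) (sum_le_sum_of_subset_of_nonneg
    (subset_univ {(true, true, true), (false, true, true), (true, false, true), (false, false, true)})
    fun _ _ _ => sum_nonneg fun _ _ => sq_nonneg _)
  simp [mz, add_assoc]

end Pool.Agent.Lib.helper20.PCP
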