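import Mathlib

/-! Walks on regular graphs with a Poincare inequality: powering of constraint graphs. -/

namespace Pool.Agent.Lib.helper20.PCP

open Finset BigOperators Classical

variable {V D S : Type} [Fintype V] [Fintype D] [Nonempty D] [Fintype S]

/-- average over words of length `k` -/
noncomputable def av (k : ℕ) (F : List D → ℝ) : ℝ := 𝔼 p : Fin k → D, F (List.ofFn p)

omit [Nonempty D] in
theorem av_zero (F : List D → ℝ) : av 0 F = F [] := by simp [av]

omit [Nonempty D] in
theorem av_succ (k : ℕ) (F : List D → ℝ) : av (k + 1) F = 𝔼 i, av k fun p => F (i :: p) := by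
  unfold av
  rw [← expect_product', univ_product_univ]
  exact Fintype.expect_equiv (Fin.consEquiv fun _ => D).symm _ _ fun p => by
    rw [List.ofFn_succ]; rfl

omit [Nonempty D] in
theorem av_mono {k : ℕ} {F G : List D → ℝ} (h : ∀ p, p.length = k → F p ≤ G p) : av k F ≤ av k G :=
  expect_le_expect fun _ _ => h _ (by simp)

omit [Nonempty D] in
theorem av_congr {k : ℕ} {F G : List D → ℝ} (h : ∀ p, p.length = k → F p = G p) : av k F = av k G :=
  le_antisymm (av_mono fun p hp => (h p hp).le) (av_mono fun p hp => (h p hp).ge)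

theorem av_const (k : ℕ) (c : ℝ) : av k (fun _ : List D => c) = c := Fintype.expect_const c

omit [Nonempty D] in
theorem av_append (a b : ℕ) (F : List D → ℝ) : av (a + b) F = av a fun x => av b fun y => F (x ++ y) := by
  induction a generalizing F with
  | zero => simp [av_zero]
  | succ a ih => rw [Nat.add_right_comm, av_succ, av_succ]; simp only [ih]; rfl

omit [Nonempty D] in
theorem av_expect {ι : Type} [Fintype ι] (k : ℕ) (F : ι → List D → ℝ) : av k (fun p => 𝔼 i, F i p) = 𝔼 i, av k (F i) :=
  expect_comm _ _ _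

/-- a regular graph given by a rotation -/
structure RG (V D : Type) where
  π : D → V → V
  inv : D → D
  inv_inv : ∀ i, inv (inv i) = i
  π_inv : ∀ i v, π (inv i) (π i v) = v

namespace RG

variable (R : RG V D)

def wk (p : List D) (v : V) : V := p.foldl (fun v i => R.π i v) v
def rv (p : List D) : List D := (p.map R.inv).reverse

omit [Fintype V] [Fintype D] [Nonempty D] in
theorem wk_append (x y : List D) (v : V) : R.wk (x ++ y) v = R.wk y (R.wk x v) := List.foldl_append

omit [Fintype V] [Fintype D] [Nonempty D] in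
theorem wk_rv (p : List D) (v : V) : R.wk (R.rv p) (R.wk p v) = v := by
  induction p generalizing v with
  | nil => rfl
  | cons i p ih =>
    rw [show R.rv (i :: p) = R.rv p ++ [R.inv i] by simp [rv], wk_append]
    exact (congrArg (R.π (R.inv i)) (ih (R.π i v))).trans (R.π_inv i v)

omit [Nonempty D] in
theorem dart (Φ : V → D → ℝ) : 𝔼 v, 𝔼 i, Φ (R.π i v) (R.inv i) = 𝔼 v, 𝔼 i, Φ v i := by
  rw [← expect_product', ← expect_product', univ_product_univ]
  exact Fintype.expect_equiv (Function.Involutive.toPerm (fun x : V × D => (R.π x.2 x.1, R.inv x.2))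
    fun x => by simp [R.π_inv, R.inv_inv]) _ _ fun _ => rfl

theorem step (h : V → ℝ) : 𝔼 v, 𝔼 i, h (R.π i v) = 𝔼 v, h v := by
  rw [R.dart fun v _ => h v]; simp

omit [Nonempty D] in
theorem av_rv (k : ℕ) (F : V → List D → ℝ) : 𝔼 v, av k (fun p => F (R.wk p v) (R.rv p)) = 𝔼 v, av k (F v) := by
  induction k generalizing F with
  | zero => simp [av_zero, wk, rv]
  | succ k ih =>
    have e : ∀ v, av (k + 1) (F v) = 𝔼 j, av k fun p => F v (p ++ [j]) := fun v => by
      rw [av_append, ← av_expect]; simp only [av_succ, av_zero]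
    simp only [e]
    simp only [av_succ]
    rw [expect_comm univ univ fun v j => av k fun p => F v (p ++ [j])]
    simp only [← ih fun v p => F v (p ++ [_])]
    rw [expect_comm univ univ fun j v => av k fun p => F (R.wk p v) (R.rv p ++ [j]),
      ← R.dart fun v j => av k fun p => F (R.wk p v) (R.rv p ++ [j])]
    simp [rv, wk]

/-- Poincare inequality -/
def Poin (κ : ℝ) : Prop := ∀ h : V → ℝ, 𝔼 v, h v = 0 → κ * 𝔼 v, h v ^ 2 ≤ 𝔼 v, 𝔼 i, (h (R.π i v) - h v) ^ 2

/-- total weight along a walk -/
def B (b : V → D → ℝ) : List D → V → ℝ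
  | [], _ => 0
  | i :: p, v => b v i + B b p (R.π i v)

theorem second [Nonempty V] {κ : ℝ} (hκ : 0 < κ) (hP : R.Poin κ) (b : V → D → ℝ) (b0 : ∀ v i, 0 ≤ b v i)
    (b1 : ∀ v i, b v i ≤ 1) (ε : ℝ) (hε : 𝔼 v, 𝔼 i, b v i = ε) (T : ℕ) :
    𝔼 v, av T (fun p => R.B b p v ^ 2) ≤ T * ε * (1 + 6 / κ + T * ε) := by
  have ε0 : 0 ≤ ε := hε ▸ expect_nonneg fun _ _ => expect_nonneg fun _ _ => b0 _ _
  let A : (V → ℝ) → V → ℝ := fun h v => 𝔼 i, h (R.π i v)
  let f : V → ℝ := fun v => 𝔼 i, b v i
  let a : ℕ → V → ℝ := fun k v => av k fun p => R.B b p v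
  have ha : ∀ k v, a (k + 1) v = f v + A (a k) v := fun k v => by
    simp only [a, f, A, av_succ, B, ← expect_add_distrib]
    simp only [av, expect_add_distrib, Fintype.expect_const]
  have hP01 : ∀ k v, 0 ≤ A^[k] f v ∧ A^[k] f v ≤ 1 := fun k => by
    induction k with
    | zero => exact fun v => ⟨expect_nonneg fun _ _ => b0 _ _, expect_le univ_nonempty fun _ _ => b1 _ _⟩
    | succ k ih =>
      rw [Function.iterate_succ_apply']
      exact fun v => ⟨expect_nonneg fun _ _ => (ih _).1, expect_le univ_nonempty fun _ _ => (ih _).2⟩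
  have hPE : ∀ k, 𝔼 v, A^[k] f v = ε := fun k => by
    induction k with
    | zero => exact hε
    | succ k ih => rw [Function.iterate_succ_apply']; exact (R.step _).trans ih
  have hE : ∀ k : ℕ, 𝔼 v, a k v = k * ε := fun k => by
    induction k with
    | zero => simp [a, av_zero, B]
    | succ k ih => simp only [ha, expect_add_distrib, A, R.step, ih, f, hε]; push_cast; ring
  have hD : ∀ k v, a k v - A (a k) v = f v - A^[k] f v := fun k => by
    induction k with
    | zero => simp [a, A, av_zero, B]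
    | succ k ih =>
      intro v
      have : A (a (k + 1)) v = A f v + A (A (a k)) v := by simp only [A, ha, expect_add_distrib]
      have h2 : A (a k) v - A (A (a k)) v = A f v - A (A^[k] f) v := by
        simp only [A] at ih ⊢; simp only [← expect_sub_distrib, ← ih]
      rw [Function.iterate_succ_apply', this, ha]; linarith
  have hX : ∀ k : ℕ, 𝔼 v, 𝔼 i, b v i * a k (R.π i v) ≤ k * ε ^ 2 + 3 * ε / κ := fun k => by
    let h : V → ℝ := fun v => a k v - k * ε
    have h1 := hP h (by simp [h, expect_sub_distrib, hE])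
    have h2 : 𝔼 v, 𝔼 i, (h (R.π i v) - h v) ^ 2 = 2 * 𝔼 v, h v * (f v - A^[k] f v) := by
      have : ∀ v, 𝔼 i, (h (R.π i v) - h v) ^ 2 = 𝔼 i, h (R.π i v) ^ 2 - h v ^ 2 + 2 * (h v * (f v - A^[k] f v)) := by
        intro v
        rw [← hD]
        simp only [sub_sq, A, h, expect_add_distrib, expect_sub_distrib, Fintype.expect_const, mul_assoc, ← mul_expect,
          ← expect_mul]
        ring
      simp only [this, expect_add_distrib, expect_sub_distrib, R.step fun v => h v ^ 2, ← mul_expect]
      ring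
    have h3 : 𝔼 v, h v * (f v - A^[k] f v) ≤ 𝔼 v, (κ / 4 * h v ^ 2 + 1 / κ * (f v + A^[k] f v)) :=
      expect_le_expect fun v _ => by
        have := hP01 0 v
        have := hP01 k v
        have e : (f v - A^[k] f v) ^ 2 ≤ f v + A^[k] f v := by simp only [Function.iterate_zero, id] at *; nlinarith
        have : 0 ≤ 1 / κ * (κ / 2 * h v - (f v - A^[k] f v)) ^ 2 := by positivity
        have e2 : 1 / κ * (κ / 2 * h v - (f v - A^[k] f v)) ^ 2 =
          κ / 4 * h v ^ 2 - h v * (f v - A^[k] f v) + 1 / κ * (f v - A^[k] f v) ^ 2 := by field_simp; ring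
        have := mul_le_mul_of_nonneg_left e (by positivity : 0 ≤ 1 / κ)
        linarith
    have h4 : 𝔼 v, 𝔼 i, b v i * a k (R.π i v) ≤
        𝔼 v, 𝔼 i, ((k * ε + 1 / κ) * b v i + κ / 4 * h (R.π i v) ^ 2) :=
      expect_le_expect fun v _ => expect_le_expect fun i _ => by
        have := b0 v i
        have := b1 v i
        have e : b v i ^ 2 ≤ b v i := by nlinarith
        have : 0 ≤ 1 / κ * (κ / 2 * h (R.π i v) - b v i) ^ 2 := by positivity
        have e2 : 1 / κ * (κ / 2 * h (R.π i v) - b v i) ^ 2 =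
          κ / 4 * h (R.π i v) ^ 2 - h (R.π i v) * b v i + 1 / κ * b v i ^ 2 := by field_simp; ring
        have := mul_le_mul_of_nonneg_left e (by positivity : 0 ≤ 1 / κ)
        have e3 : a k (R.π i v) = h (R.π i v) + k * ε := by simp [h]
        rw [e3]; linarith
    have h5 : 𝔼 v, f v = ε := hε
    simp only [expect_add_distrib, ← mul_expect, hPE, h5, hε, R.step fun v => h v ^ 2] at h3 h4
    have e : 3 * ε / κ = 3 * (1 / κ * ε) := by ring
    rw [e]; nlinarith
  induction T with
  | zero => simp [av_zero, B]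
  | succ T ih =>
    have : 𝔼 v, av (T + 1) (fun p => R.B b p v ^ 2) ≤
        𝔼 v, 𝔼 i, (b v i + 2 * (b v i * a T (R.π i v)) + av T fun p => R.B b p (R.π i v) ^ 2) :=
      expect_le_expect fun v _ => by
        rw [av_succ]
        refine expect_le_expect fun i _ => ?_
        have := b0 v i
        have := b1 v i
        simp only [B, add_sq, a, av, expect_add_distrib, Fintype.expect_const, ← mul_expect]
        nlinarith
    simp only [expect_add_distrib, ← mul_expect, hε, R.step fun v => av T fun p => R.B b p v ^ 2] at this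
    have := hX T
    have e : 3 * ε / κ = ε * (6 / κ) / 2 := by ring
    push_cast
    nlinarith [sq_nonneg ε]

/-- the constraint of the powered graph along the walk `p` from `v` -/
def PR (C : V → D → S → S → Prop) (H : ℕ) (v : V) (p : List D) (w1 w2 : List D → S) : Prop :=
  ∀ x i y, p = x ++ i :: y → x.length < H → y.length < H → C (R.wk x v) i (w1 x) (w2 (R.rv y))

theorem power [Nonempty V] [Nonempty S] {κ : ℝ} (hκ : 0 < κ) (hP : R.Poin κ) (C : V → D → S → S → Prop) (ε : ℝ)
    (ε0 : 0 ≤ ε) (hC : ∀ σ : V → S, ε ≤ 𝔼 v, 𝔼 i, if C v i (σ v) (σ (R.π i v)) then (0 : ℝ) else 1) (H : ℕ)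
    (A : V → List D → S) :
    ε * H ^ 2 / (4 * Fintype.card S ^ 4 * (1 + 6 / κ + 2 * H * ε)) ≤
      ∑ l ∈ range (2 * H), 𝔼 v, av l fun p => if R.PR C H v p (A v) (A (R.wk p v)) then (0 : ℝ) else 1 := by
  have q0 : (0 : ℝ) < Fintype.card S := Nat.cast_pos.2 Fintype.card_pos
  obtain ⟨q, hq⟩ : ∃ q : ℝ, q = (Fintype.card S : ℝ) := ⟨_, rfl⟩
  rw [← hq] at q0 ⊢
  have pl : ∀ u, ∃ s, H / q ≤ ∑ a ∈ range H, av a fun x => if A (R.wk x u) (R.rv x) = s then (1 : ℝ) else 0 := by
    intro u
    obtain ⟨s, -, hs⟩ := exists_le_of_le_expect (univ_nonempty (α := S)) (a := H / q)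
      (f := fun s => ∑ a ∈ range H, av a fun x => if A (R.wk x u) (R.rv x) = s then (1 : ℝ) else 0) (by
        rw [expect_sum_comm]
        simp only [← av_expect]
        simp [expect_eq_sum_div_card, av_const, hq, div_eq_mul_inv])
    exact ⟨s, hs⟩
  choose σ hσ using pl
  let b : V → D → ℝ := fun v i => if C v i (σ v) (σ (R.π i v)) then 0 else 1
  have b0 : ∀ v i, 0 ≤ b v i := fun v i => by simp only [b]; split_ifs <;> norm_num
  have b1 : ∀ v i, b v i ≤ 1 := fun v i => by simp only [b]; split_ifs <;> norm_num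
  obtain ⟨η, hη⟩ : ∃ η, 𝔼 v, 𝔼 i, b v i = η := ⟨_, rfl⟩
  have hεη : ε ≤ η := hη ▸ hC σ
  let I : V → List D → ℝ := fun u x => if A (R.wk x u) (R.rv x) = σ u then 1 else 0
  have I01 : ∀ u x, 0 ≤ I u x ∧ I u x ≤ 1 := fun u x => by simp only [I]; split_ifs <;> norm_num
  let T : V → List D → D → List D → ℝ := fun v x i y =>
    b (R.wk x v) i * (if A v x = σ (R.wk x v) then 1 else 0) * I (R.π i (R.wk x v)) y
  have T0 : ∀ v x i y, 0 ≤ T v x i y ∧ T v x i y ≤ b (R.wk x v) i := fun v x i y => by
    have := I01 (R.π i (R.wk x v)) y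
    have := b0 (R.wk x v) i
    simp only [T]; split_ifs <;> constructor <;> nlinarith
  let nn : ℕ → V → List D → ℝ := fun a v p => match p.drop a with
    | [] => 0
    | i :: y => if y.length < H then T v (p.take a) i y else 0
  have n0 : ∀ a v p, 0 ≤ nn a v p := fun a v p => by
    simp only [nn]; split
    · rfl
    · split_ifs; exacts [(T0 _ _ _ _).1, le_rfl]
  have nB : ∀ v p, ∑ a ∈ range H, nn a v p ≤ R.B b p v := by
    let bb : ℕ → V → List D → ℝ := fun a v p => match p.drop a with
      | [] => 0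
      | i :: _ => b (R.wk (p.take a) v) i
    have : ∀ p v K, ∑ a ∈ range K, bb a v p ≤ R.B b p v := fun p => by
      induction p with
      | nil => simp [bb, B]
      | cons i p ih =>
        intro v K
        have := ih (R.π i v) 0
        cases K with
        | zero => simp only [B, range_zero, sum_empty] at this ⊢; linarith [b0 v i]
        | succ K => rw [sum_range_succ', B, add_comm]; exact add_le_add le_rfl (ih _ K)
    refine fun v p => le_trans (sum_le_sum fun a _ => ?_) (this p v H)
    simp only [nn, bb]; split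
    · rfl
    · split_ifs; exacts [(T0 _ _ _ _).2, b0 _ _]
  have nP : ∀ v p, R.PR C H v p (A v) (A (R.wk p v)) → ∑ a ∈ range H, nn a v p = 0 := fun v p h =>
    sum_eq_zero fun a ha => by
      simp only [nn]; split
      · rfl
      · rename_i i y e
        split_ifs with hy
        · have e1 : p = p.take a ++ i :: y := by rw [← e, List.take_append_drop]
          have := h _ i y e1 (lt_of_le_of_lt (List.length_take_le _ _) (mem_range.1 ha)) hy
          have e2 : R.wk p v = R.wk y (R.π i (R.wk (p.take a) v)) := by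
            conv_lhs => rw [e1, wk_append]
            rfl
          simp only [T, I, b, ← e2]
          clear e e1 e2
          split_ifs with h1 h2 h3 <;> simp_all
        · rfl
  have first : η * (H / q) ^ 2 ≤ ∑ l ∈ range (2 * H), 𝔼 v, av l fun p => ∑ a ∈ range H, nn a v p := by
    have e1 : ∀ a < H, ∑ c ∈ range H, 𝔼 u, 𝔼 i, b u i * av a (I u) * av c (I (R.π i u)) ≤
        ∑ l ∈ range (2 * H), 𝔼 v, av l (nn a v) := fun a ha => by
      have e2 : ∀ c < H, 𝔼 u, 𝔼 i, b u i * av a (I u) * av c (I (R.π i u)) = 𝔼 v, av (a + (c + 1)) (nn a v) := by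
        intro c hc
        have : ∀ v, av (a + (c + 1)) (nn a v) = av a fun x => 𝔼 i, av c fun y => T v x i y := fun v => by
          rw [av_append]
          refine av_congr fun x hx => ?_
          rw [av_succ]
          refine expect_congr rfl fun i _ => av_congr fun y hy => ?_
          simp [nn, ← hx, hy, hc]
        simp only [this]
        rw [← R.av_rv a fun v x => 𝔼 i, av c fun y => T v x i y]
        refine expect_congr rfl fun u _ => ?_
        simp only [T, wk_rv, av_expect]
        refine expect_congr rfl fun i _ => ?_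
        simp only [av, ← mul_expect, ← expect_mul, I]
      rw [sum_congr rfl fun c hc => e2 c (mem_range.1 hc),
        ← sum_image (s := range H) (g := fun c => a + (c + 1)) (f := fun l => 𝔼 v, av l (nn a v))
          fun _ _ _ _ h => by simpa using h]
      refine sum_le_sum_of_subset_of_nonneg (fun l hl => ?_) fun _ _ _ =>
        expect_nonneg fun _ _ => expect_nonneg fun _ _ => n0 _ _ _
      simp only [mem_image, mem_range] at hl ⊢
      omega
    have e3 : η * (H / q) ^ 2 ≤ 𝔼 u, 𝔼 i, b u i * (∑ a ∈ range H, av a (I u)) * ∑ c ∈ range H, av c (I (R.π i u)) := by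
      rw [← hη, expect_mul]
      refine expect_le_expect fun u _ => ?_
      rw [expect_mul]
      refine expect_le_expect fun i _ => ?_
      rw [mul_assoc, sq]
      have : (0 : ℝ) ≤ H / q := by positivity
      exact mul_le_mul_of_nonneg_left (mul_le_mul (hσ u) (hσ _) this (this.trans (hσ u))) (b0 _ _)
    refine e3.trans (le_trans (le_of_eq ?_) (le_trans (sum_le_sum fun a ha => e1 a (mem_range.1 ha)) (le_of_eq ?_)))
    · simp only [mul_sum, sum_mul, expect_sum_comm]
      exact sum_comm
    · simp only [av, expect_sum_comm]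
      exact sum_comm
  have c0 : 0 < 1 + 6 / κ + 2 * H * η := by have := ε0.trans hεη; positivity
  set lam := 1 / (4 * q ^ 2 * (1 + 6 / κ + 2 * H * η)) with hl
  have l0 : 0 < lam := by positivity
  have pt : ∀ l ∈ range (2 * H), 2 * lam * (𝔼 v, av l fun p => ∑ a ∈ range H, nn a v p) -
      lam ^ 2 * (2 * H * η * (1 + 6 / κ + 2 * H * η)) ≤
      𝔼 v, av l fun p => if R.PR C H v p (A v) (A (R.wk p v)) then (0 : ℝ) else 1 := fun l hl => by
    have h1 := R.second hκ hP b b0 b1 η hη l
    have h2 : (l : ℝ) ≤ 2 * H := by exact_mod_cast (mem_range.1 hl).le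
    have η0 := ε0.trans hεη
    have h3 : l * η * (1 + 6 / κ + l * η) ≤ 2 * H * η * (1 + 6 / κ + 2 * H * η) := by gcongr
    have h4 : 𝔼 v, av l (fun p => 2 * lam * ∑ a ∈ range H, nn a v p - lam ^ 2 * R.B b p v ^ 2) ≤
        𝔼 v, av l fun p => if R.PR C H v p (A v) (A (R.wk p v)) then (0 : ℝ) else 1 :=
      expect_le_expect fun v _ => av_mono fun p _ => by
        split_ifs with h
        · rw [nP v p h]; nlinarith [sq_nonneg (lam * R.B b p v)]
        · have : (∑ a ∈ range H, nn a v p) ^ 2 ≤ R.B b p v ^ 2 :=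
            pow_le_pow_left₀ (sum_nonneg fun _ _ => n0 _ _ _) (nB v p) 2
          nlinarith [sq_nonneg (1 - lam * ∑ a ∈ range H, nn a v p), mul_le_mul_of_nonneg_left this (sq_nonneg lam)]
    simp only [av, expect_sub_distrib, ← mul_expect] at h1 h4 ⊢
    nlinarith [mul_le_mul_of_nonneg_left (h1.trans h3) (sq_nonneg lam)]
  refine le_trans ?_ (sum_le_sum pt)
  rw [sum_sub_distrib, ← mul_sum, sum_const, card_range, nsmul_eq_mul]
  have e : η * H ^ 2 / (4 * q ^ 4 * (1 + 6 / κ + 2 * H * η)) =
      2 * lam * (η * (H / q) ^ 2) - ((2 * H : ℕ) : ℝ) * (lam ^ 2 * (2 * H * η * (1 + 6 / κ + 2 * H * η))) := by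
    rw [hl]; push_cast; field_simp; ring
  have m : ε * H ^ 2 / (4 * q ^ 4 * (1 + 6 / κ + 2 * H * ε)) ≤ η * H ^ 2 / (4 * q ^ 4 * (1 + 6 / κ + 2 * H * η)) := by
    rw [div_le_div_iff₀ (by positivity) (by positivity)]
    have : 0 ≤ (H : ℝ) ^ 2 * (4 * q ^ 4) * (1 + 6 / κ) * (η - ε) := by have := sub_nonneg.2 hεη; positivity
    nlinarith
  nlinarith [mul_le_mul_of_nonneg_left first l0.le]

end RG

theorem exists_ws {H : ℕ} (hH : 0 < H) : ∃ ws : List (List D), ws ≠ [] ∧
    ∀ F : List D → ℝ, (ws.map F).sum = ws.length / (2 * H) * ∑ l ∈ range (2 * H), av l F := by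
  haveI : NeZero (2 * H) := ⟨by omega⟩
  refine ⟨(univ : Finset (Fin (2 * H) × (Fin (2 * H) → D))).toList.map fun x => (List.ofFn x.2).take x.1,
    by simpa using univ_nonempty.ne_empty, ?_⟩
  intro F
  have e : ∀ l : Fin (2 * H), ∑ p : Fin (2 * H) → D, F ((List.ofFn p).take l) =
      Fintype.card (Fin (2 * H) → D) * av l F := fun l => by
    have : ∀ l K, l ≤ K → av l F = av K fun p => F (p.take l) := by
      intro l K h
      obtain ⟨d, rfl⟩ := Nat.exists_eq_add_of_le h
      rw [av_append]
      exact av_congr fun x hx => by simp [← hx, av_const]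
    rw [this _ _ l.2.le, av, ← card_univ, card_mul_expect]
  have h0 : (2 * H : ℝ) ≠ 0 := by positivity
  rw [List.map_map, sum_map_toList, Fintype.sum_prod_type, sum_range]
  simp only [Function.comp, e, ← mul_sum, List.length_map, length_toList, card_univ, Fintype.card_prod, Fintype.card_fin]
  push_cast; field_simp

end Pool.Agent.Lib.helper20.PCP
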