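import Mathlib

/-! Alphabet reduction by the long code. -/

namespace Pool.Agent.Lib.helper20.PCP

open Finset BigOperators Classical

/-- the fixed ten-ary predicate -/
def Pd (L : Fin 10 → ZMod 2) : Prop :=
  L 2 = L 0 + L 1 ∧ L 0 * L 1 = L 3 + L 4 ∧ L 3 + L 5 = 1 ∧ L 3 + L 6 = L 8 ∧ L 3 + L 7 = L 9

def ok (a : ℕ → ZMod 2) (c : List ℕ) : Prop := Pd fun k => a (c.getD k 0)
noncomputable def bad (φ : List (List ℕ)) (a : ℕ → ZMod 2) : ℝ := (φ.map fun c => if ok a c then (0 : ℝ) else 1).sum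
def Sat (φ : List (List ℕ)) : Prop := ∃ a, ∀ c ∈ φ, ok a c
def Gap (ε : ℝ) (φ : List (List ℕ)) : Prop := ∀ a, ε * φ.length ≤ bad φ a
def WF (K : ℕ) (φ : List (List ℕ)) : Prop := φ ≠ [] ∧ ∀ c ∈ φ, c.length = 10 ∧ ∀ x ∈ c, x ≤ K * φ.length

def ee (u : ZMod 2) : ℝ := u.val

theorem ee_lt {u : ZMod 2} (h : ee u < 1) : u = 0 := by
  have : u.val < 1 := by unfold ee at h; exact_mod_cast h
  clear h; revert u; decide

theorem ee_add (u v : ZMod 2) : ee (u + v) ≤ ee u + ee v := by
  have : ∀ u v : ZMod 2, (u + v).val ≤ u.val + v.val := by decide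
  unfold ee; exact_mod_cast this u v

theorem ee_le {u : ZMod 2} {P : Prop} (h : P → u = 0) : ee u ≤ if P then 0 else 1 := by
  split_ifs with hP
  · simp [h hP, ee]
  · have : ∀ u : ZMod 2, u.val ≤ 1 := by decide
    unfold ee; exact_mod_cast this u

section
variable {Z : Type} [Fintype Z] [AddCommGroup Z]

theorem shift (F : Z → ℝ) (z : Z) : 𝔼 r, F (r + z) = 𝔼 r, F r :=
  Fintype.expect_equiv (Equiv.addRight z) _ _ fun _ => rfl

theorem blr (p : Z → ZMod 2) {δ : ℝ} (h : 𝔼 z, 𝔼 z', ee (p z + p z' + p (z + z')) ≤ δ) (hδ : δ < 1 / 6) :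
    ∃ g : Z →+ ZMod 2, (∀ z, 𝔼 r, ee (g z + p r + p (r + z)) ≤ 2 * δ) ∧ 𝔼 z, ee (g z + p z) ≤ 3 * δ := by
  have A : ∀ z, ∃ c, 𝔼 r, ee (c + p r + p (r + z)) ≤ 2 * δ := fun z => by
    have : 𝔼 r', 𝔼 r, ee (p r' + p (r' + z) + p r + p (r + z)) ≤
        𝔼 r', 𝔼 r, (ee (p (r + z) + p r' + p (r + z + r')) + ee (p (r' + z) + p r + p (r' + z + r))) :=
      expect_le_expect fun r' _ => expect_le_expect fun r _ => by
        refine le_trans (le_of_eq (congrArg ee ?_)) (ee_add _ _)
        rw [show r' + z + r = r + z + r' by abel]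
        generalize p (r + z + r') = a; generalize p (r + z) = b; generalize p (r' + z) = c
        generalize p r = d; generalize p r' = e
        revert a b c d e; decide
    have e : ∀ r', 𝔼 r, ee (p (r + z) + p r' + p (r + z + r')) = 𝔼 r, ee (p r + p r' + p (r + r')) := fun r' =>
      shift (fun r => ee (p r + p r' + p (r + r'))) z
    simp only [expect_add_distrib, e] at this
    rw [shift (fun r' => 𝔼 r, ee (p r' + p r + p (r' + r))), expect_comm univ univ fun r' r => ee (p r + p r' + p (r + r'))] at this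
    obtain ⟨r', -, hr⟩ := exists_le_of_expect_le univ_nonempty (this.trans (add_le_add h h))
    exact ⟨_, hr.trans (by linarith)⟩
  choose g hg using A
  refine ⟨AddMonoidHom.mk' g fun z z' => ?_, hg, ?_⟩
  · have : 𝔼 r : Z, ee (g (z + z') + g z + g z') ≤ 𝔼 r, (ee (g (z + z') + p r + p (r + (z + z'))) +
        ee (g z + p r + p (r + z)) + ee (g z' + p (r + z) + p (r + z + z'))) := expect_le_expect fun r _ => by
      refine le_trans (le_of_eq (congrArg ee ?_)) ((ee_add _ _).trans (add_le_add (ee_add _ _) le_rfl))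
      rw [← add_assoc r]
      generalize p (r + z + z') = a; generalize p (r + z) = b; generalize p r = c
      generalize g (z + z') = d; generalize g z = e; generalize g z' = f
      revert a b c d e f; decide
    simp only [expect_add_distrib, Fintype.expect_const, shift fun r => ee (g z' + p r + p (r + z'))] at this
    have := ee_lt (u := g (z + z') + g z + g z') (by linarith [hg (z + z'), hg z, hg z'])
    revert this
    generalize g (z + z') = d; generalize g z = e; generalize g z' = f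
    revert d e f; decide
  · have : 𝔼 z, 𝔼 r : Z, ee (g z + p z) ≤ 𝔼 z, 𝔼 r, (ee (g z + p r + p (r + z)) + ee (p r + p z + p (r + z))) :=
      expect_le_expect fun z _ => expect_le_expect fun r _ => by
        refine le_trans (le_of_eq (congrArg ee ?_)) (ee_add _ _)
        generalize p (r + z) = b; generalize p r = c; generalize g z = e; generalize p z = f
        revert b c e f; decide
    simp only [expect_add_distrib, Fintype.expect_const] at this
    rw [expect_comm univ univ fun z r => ee (p r + p z + p (r + z))] at this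
    have h2 : 𝔼 z, 𝔼 r, ee (g z + p r + p (r + z)) ≤ 2 * δ := expect_le univ_nonempty fun z _ => hg z
    exact this.trans (by linarith)
end

variable {W : Type} [Fintype W]

noncomputable def dc [Nonempty W] (f : (W × W → ZMod 2) → ZMod 2) : W :=
  if h : ∃ w, 𝔼 y, ee (f y + y (w, w)) < 1 / 4 then h.choose else Classical.arbitrary W

theorem dc_eq [Nonempty W] {f : (W × W → ZMod 2) → ZMod 2} {w : W} (h : 𝔼 y, ee (f y + y (w, w)) < 1 / 4) :
    dc f = w := by
  have h' : ∃ w, 𝔼 y, ee (f y + y (w, w)) < 1 / 4 := ⟨w, h⟩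
  have h2 := h'.choose_spec
  rw [dc, dif_pos h']
  generalize h'.choose = v at h2
  by_contra hn
  have h3 : 𝔼 y : W × W → ZMod 2, (1 : ℝ) ≤ 𝔼 y, ((ee (f y + y (w, w)) + ee (f y + y (v, v))) +
      (ee (f (y + Pi.single (w, w) 1) + (y + Pi.single (w, w) 1 : W × W → ZMod 2) (w, w)) +
      ee (f (y + Pi.single (w, w) 1) + (y + Pi.single (w, w) 1 : W × W → ZMod 2) (v, v)))) :=
    expect_le_expect fun y _ => by
      have : ∀ a b c d : ZMod 2, 1 ≤ (a + b).val + (a + c).val + ((d + (b + 1)).val + (d + c).val) := by decide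
      simp only [Pi.add_apply, Pi.single_eq_same, Pi.single_eq_of_ne (show (v, v) ≠ (w, w) by simpa using hn), add_zero, ee]
      exact_mod_cast this _ _ _ _
  simp only [expect_add_distrib, Fintype.expect_const] at h3
  rw [shift fun y => ee (f y + y (w, w)), shift fun y => ee (f y + y (v, v))] at h3
  linarith

noncomputable def ind (R : W × W → Prop) : W × W → ZMod 2 := fun w => if R w then 1 else 0
def d1 (y : W × W → ZMod 2) : W × W → ZMod 2 := fun w => y (w.1, w.1)
def d2 (y : W × W → ZMod 2) : W × W → ZMod 2 := fun w => y (w.2, w.2)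

theorem lc [Nonempty W] (p fa fb : (W × W → ZMod 2) → ZMod 2) (R : W × W → Prop)
    (h : 𝔼 z, 𝔼 z', 𝔼 s, 𝔼 y, (if Pd ![p z, p z', p (z + z'), p s, p (s + z * z'), p (s + ind R), p (s + d1 y),
      p (s + d2 y), fa y, fb y] then (0 : ℝ) else 1) < 1 / 40) : R (dc fa, dc fb) := by
  obtain ⟨δ, hδ⟩ : ∃ δ, 𝔼 z, 𝔼 z', 𝔼 s, 𝔼 y, (if Pd ![p z, p z', p (z + z'), p s, p (s + z * z'), p (s + ind R),
    p (s + d1 y), p (s + d2 y), fa y, fb y] then (0 : ℝ) else 1) = δ := ⟨_, rfl⟩
  rw [hδ] at h
  have sub : ∀ F : _ → _ → _ → _ → ZMod 2, (∀ z z' s y, Pd ![p z, p z', p (z + z'), p s, p (s + z * z'), p (s + ind R),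
      p (s + d1 y), p (s + d2 y), fa y, fb y] → F z z' s y = 0) → 𝔼 z, 𝔼 z', 𝔼 s, 𝔼 y, ee (F z z' s y) ≤ δ :=
    fun F hF => hδ ▸ expect_le_expect fun _ _ => expect_le_expect fun _ _ => expect_le_expect fun _ _ =>
      expect_le_expect fun _ _ => ee_le (hF _ _ _ _)
  have t : ∀ a b : ZMod 2, a = b → a + b = 0 := by decide
  have h1 := sub (fun z z' _ _ => p z + p z' + p (z + z')) fun _ _ _ _ h => t _ _ h.1.symm
  have h2 := sub (fun z z' s _ => p z * p z' + (p s + p (s + z * z'))) fun _ _ _ _ h => t _ _ h.2.1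
  have h3 := sub (fun _ _ s _ => p s + p (s + ind R) + 1) fun _ _ _ _ h => t _ _ h.2.2.1
  have h4 := sub (fun _ _ s y => p s + p (s + d1 y) + fa y) fun _ _ _ _ h => t _ _ h.2.2.2.1
  have h5 := sub (fun _ _ s y => p s + p (s + d2 y) + fb y) fun _ _ _ _ h => t _ _ h.2.2.2.2
  simp only [Fintype.expect_const] at h1 h2 h3 h4 h5
  obtain ⟨g, hg, hd⟩ := blr p h1 (by linarith)
  have m1 : 𝔼 z, 𝔼 z', ee (g z * g z' + g (z * z')) ≤ 9 * δ := by
    have : 𝔼 z, 𝔼 z', 𝔼 s : W × W → ZMod 2, ee (g z * g z' + g (z * z')) ≤ 𝔼 z, 𝔼 z', 𝔼 s,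
        (ee (p z * p z' + (p s + p (s + z * z'))) + ee (g (z * z') + p s + p (s + z * z')) + ee (g z + p z) +
          ee (g z' + p z')) :=
      expect_le_expect fun z _ => expect_le_expect fun z' _ => expect_le_expect fun s _ => by
        have : ∀ a b c d e f g : ZMod 2, (a * b + c).val ≤ (d * e + (f + g)).val + (c + f + g).val + (a + d).val +
          (b + e).val := by decide
        unfold ee; exact_mod_cast this _ _ _ _ _ _ _
    simp only [expect_add_distrib, Fintype.expect_const] at this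
    have h6 : 𝔼 z, 𝔼 z', 𝔼 s, ee (g (z * z') + p s + p (s + z * z')) ≤ 2 * δ :=
      expect_le univ_nonempty fun _ _ => expect_le univ_nonempty fun _ _ => hg _
    linarith
  have mul : ∀ a b, g (a * b) = g a * g b := fun a b => by
    let B := fun z z' => ee (g z * g z' + g (z * z'))
    have : 𝔼 z, 𝔼 z' : W × W → ZMod 2, ee (g a * g b + g (a * b)) ≤
        𝔼 z, 𝔼 z', (B z z' + B (z + a) z' + B z (z' + b) + B (z + a) (z' + b)) :=
      expect_le_expect fun z _ => expect_le_expect fun z' _ => by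
        have : ∀ a b c d e f g h : ZMod 2, (a * b + c).val ≤ (d * e + f).val + ((d + a) * e + (f + g)).val +
          (d * (e + b) + (f + h)).val + ((d + a) * (e + b) + (f + h + (g + c))).val := by decide
        simp only [B, ee, add_mul z, mul_add _ z', map_add]
        exact_mod_cast this _ _ _ _ _ _ _ _
    simp only [expect_add_distrib, Fintype.expect_const, shift (B _), shift fun z => 𝔼 z', B z z'] at this
    have := ee_lt (u := g a * g b + g (a * b)) (by simp only [B] at this; linarith)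
    revert this
    generalize g a * g b = d; generalize g (a * b) = e
    revert d e; decide
  have cor : ∀ (u : (W × W → ZMod 2) → W × W → ZMod 2) (f : (W × W → ZMod 2) → ZMod 2),
      𝔼 s, 𝔼 y, ee (p s + p (s + u y) + f y) ≤ δ → 𝔼 y, ee (f y + g (u y)) ≤ 3 * δ := fun u f hf => by
    have : 𝔼 y, 𝔼 s : W × W → ZMod 2, ee (f y + g (u y)) ≤
        𝔼 y, 𝔼 s, (ee (p s + p (s + u y) + f y) + ee (g (u y) + p s + p (s + u y))) :=
      expect_le_expect fun y _ => expect_le_expect fun s _ => by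
        have : ∀ a b c d : ZMod 2, (a + b).val ≤ (c + d + a).val + (b + c + d).val := by decide
        unfold ee; exact_mod_cast this _ _ _ _
    simp only [expect_add_distrib, Fintype.expect_const] at this
    rw [expect_comm] at hf
    have h6 : 𝔼 y, 𝔼 s, ee (g (u y) + p s + p (s + u y)) ≤ 2 * δ := expect_le univ_nonempty fun _ _ => hg _
    linarith
  have g1 : g (ind R) ≠ 0 := fun e => by
    have := cor (fun _ => ind R) (fun _ => 1) (by simpa using h3)
    simp only [e, Fintype.expect_const, ee] at this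
    norm_num [ZMod.val_one] at this
    linarith
  rw [← univ_sum_single (ind R), map_sum] at g1
  obtain ⟨w, -, hw⟩ := exists_ne_zero_of_sum_ne_zero g1
  have hR : R w := by by_contra hn; simp [ind, hn] at hw
  have two : ∀ a : ZMod 2, a = 0 ∨ a = 1 := by decide
  have hw1 : g (Pi.single w 1) = 1 := by simpa [ind, hR] using (two _).resolve_left hw
  have ev : ∀ z, g z = z w := fun z => by
    rw [← mul_one (g z), ← hw1, ← mul, ← Pi.single_mul_right]
    rcases two (z w) with e | e <;> simp [e, hw1]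
  have e1 := cor d1 fa h4
  have e2 := cor d2 fb h5
  simp only [ev, d1, d2] at e1 e2
  rwa [dc_eq (e1.trans_lt (by linarith)), dc_eq (e2.trans_lt (by linarith))]

def nm (K e u v : ℕ) (x : ℕ × ℕ) : ℕ := (if x.1 = 0 then 2 * e + 1 else if x.1 = 1 then 2 * u else 2 * v) * K + x.2

/-- instantiate the templates along the edges -/
def cmp (K : ℕ) (es : List (ℕ × ℕ × List (List (ℕ × ℕ)))) : List (List ℕ) :=
  es.zipIdx.flatMap fun e => e.1.2.2.map fun c => c.map (nm K e.2 e.1.1 e.1.2.1)

theorem bad_flatMap {α : Type} (l : List α) (f : α → List (List ℕ)) (a) :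
    bad (l.flatMap f) a = (l.map fun x => bad (f x) a).sum := by
  induction l with
  | nil => simp [bad]
  | cons x l ih => simp only [bad] at ih ⊢; simp [ih]

theorem compo (W : Type) [Fintype W] [Nonempty W] : ∃ (K Λ : ℕ) (tm : (W × W → Prop) → List (List (ℕ × ℕ))), 0 < Λ ∧
    ∀ (es : List (ℕ × ℕ × (W × W → Prop))) (φ), φ = cmp K (es.map fun e => (e.1, e.2.1, tm e.2.2)) →
      φ.length = es.length * Λ ∧
      (∀ N, es.length ≤ N → (∀ e ∈ es, e.1 < N ∧ e.2.1 < N) → ∀ c ∈ φ, c.length = 10 ∧ ∀ x ∈ c, x ≤ 2 * K * N) ∧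
      (∀ A : ℕ → W, (∀ e ∈ es, e.2.2 (A e.1, A e.2.1)) → Sat φ) ∧
      ∀ ε : ℝ, (∀ A : ℕ → W, ε * es.length ≤ (es.map fun e => if e.2.2 (A e.1, A e.2.1) then (0 : ℝ) else 1).sum) →
        Gap (ε / 40) φ := by
  let Z := W × W → ZMod 2
  let K := Fintype.card Z
  let cd : Z → ℕ := fun z => Fintype.equivFin Z z
  have cK : ∀ z, cd z < K := fun z => (Fintype.equivFin Z z).2
  have K0 : 0 < K := Fintype.card_pos
  let dec : ℕ → Z := fun j => (Fintype.equivFin Z).symm ⟨j % K, Nat.mod_lt _ K0⟩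
  have dcd : ∀ m z, dec (m * K + cd z) = z := fun m z => by
    simp only [dec, Equiv.symm_apply_eq]
    exact Fin.ext (by simp only [Nat.mul_add_mod_of_lt (cK z)]; rfl)
  have dv : ∀ m z, (m * K + cd z) / K = m := fun m z => by
    rw [mul_comm, Nat.mul_add_div K0, Nat.div_eq_of_lt (cK z)]; rfl
  let q : (W × W → Prop) → Z × Z × Z × Z → List (ℕ × ℕ) := fun R t =>
    [(0, cd t.1), (0, cd t.2.1), (0, cd (t.1 + t.2.1)), (0, cd t.2.2.1), (0, cd (t.2.2.1 + t.1 * t.2.1)),
      (0, cd (t.2.2.1 + ind R)), (0, cd (t.2.2.1 + d1 t.2.2.2)), (0, cd (t.2.2.1 + d2 t.2.2.2)), (1, cd t.2.2.2),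
      (2, cd t.2.2.2)]
  refine ⟨K, Fintype.card (Z × Z × Z × Z), fun R => univ.toList.map (q R), Fintype.card_pos, ?_⟩
  rintro es φ rfl
  have mem : ∀ c, c ∈ cmp K (es.map fun e => (e.1, e.2.1, univ.toList.map (q e.2.2))) →
      ∃ e i t, es[i]? = some e ∧ c = (q e.2.2 t).map (nm K i e.1 e.2.1) := fun c hc => by
    simp only [cmp, List.zipIdx_map, List.mem_flatMap, List.mem_map] at hc
    obtain ⟨_, ⟨x, hx, rfl⟩, _, h, rfl⟩ := hc
    obtain ⟨t, -, rfl⟩ := List.mem_map.1 h
    exact ⟨x.1, x.2, t, List.mem_zipIdx_iff_getElem?.1 hx, rfl⟩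
  have len : (cmp K (es.map fun e => (e.1, e.2.1, univ.toList.map (q e.2.2)))).length =
      es.length * Fintype.card (Z × Z × Z × Z) := by
    simp [cmp, List.zipIdx_map, Function.comp_def, -Fintype.card_prod]
  refine ⟨len, fun N hN h c hc => ?_, fun A hA => ?_, fun ε hA a => ?_⟩
  · obtain ⟨e, i, t, he, rfl⟩ := mem c hc
    refine ⟨rfl, fun x hx => ?_⟩
    obtain ⟨y, hy, rfl⟩ := List.mem_map.1 hx
    have h1 : y.2 < K := by
      simp only [q, List.mem_cons, List.not_mem_nil, or_false] at hy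
      rcases hy with h | h | h | h | h | h | h | h | h | h <;> rw [h] <;> exact cK _
    have h2 := h e (List.mem_of_getElem? he)
    have h3 := (List.getElem?_eq_some_iff.1 he).1
    have h4 : (if y.1 = 0 then 2 * i + 1 else if y.1 = 1 then 2 * e.1 else 2 * e.2.1) + 1 ≤ 2 * N := by
      split_ifs <;> omega
    have := Nat.mul_le_mul_right K h4
    unfold nm; nlinarith
  · refine ⟨fun n => dec n (if n / K % 2 = 0 then (A (n / K / 2), A (n / K / 2)) else
      (es[n / K / 2]?.map fun e => (A e.1, A e.2.1)).getD (A 0, A 0)), fun c hc => ?_⟩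
    obtain ⟨e, i, t, he, rfl⟩ := mem c hc
    have h1 := hA e (List.mem_of_getElem? he)
    have two : ∀ a b : ZMod 2, a + (a + b) = b := by decide
    have e1 : (2 * i + 1) / 2 = i := by omega
    simp [ok, Pd, q, nm, dcd, dv, e1, he, Z, two, ind, h1, d1, d2]
  · let A : ℕ → W := fun u => dc fun y => a (2 * u * K + cd y)
    have h1 := hA A
    rw [len, cmp, List.zipIdx_map, List.flatMap_map, bad_flatMap]
    rw [← List.zipIdx_map_fst 0 es, List.map_map, List.zipIdx_map_fst] at h1
    have c0 : (0 : ℝ) < Fintype.card (Z × Z × Z × Z) := Nat.cast_pos.2 Fintype.card_pos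
    have h2 := mul_le_mul_of_nonneg_left h1 (by positivity : (0 : ℝ) ≤ Fintype.card (Z × Z × Z × Z) / 40)
    refine le_trans (le_of_eq (by push_cast; ring)) (h2.trans ?_)
    rw [← List.sum_map_mul_left]
    refine List.sum_le_sum fun x _ => ?_
    simp only [Function.comp, Prod.map, id, bad, List.map_map, sum_map_toList]
    split_ifs with hR
    · rw [mul_zero]; exact sum_nonneg fun _ _ => by split_ifs <;> norm_num
    · have := mt (lc (fun z => a ((2 * x.2 + 1) * K + cd z)) (fun y => a (2 * x.1.1 * K + cd y))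
        (fun y => a (2 * x.1.2.1 * K + cd y)) x.1.2.2) hR
      rw [← card_mul_expect, card_univ, mul_one, div_eq_mul_one_div]
      refine mul_le_mul_of_nonneg_left ((not_lt.1 this).trans (le_of_eq ?_)) c0.le
      simp only [← univ_product_univ, expect_product]
      rfl

end Pool.Agent.Lib.helper20.PCP
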