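import Pool.Agent.Lib.helper20.PCPA
import Pool.Agent.Lib.helper20.PCPB
import Pool.Agent.Lib.helper20.PCPC
import Pool.Agent.Lib.lead.CXNP

/-! Preprocessing: a constraint list becomes a constraint graph on a regular expander. -/

namespace Pool.Agent.Lib.helper20.PCP

open Finset BigOperators Classical Pool.Agent.Lib.CX

abbrev Sg := Fin 10 → ZMod 2
abbrev DD := Option Bool × G
def sq (n : ℕ) : ℕ := n.sqrt + 1

theorem lt_sq (n : ℕ) : n < sq n * sq n := Nat.lt_succ_sqrt n
theorem sq_le {n : ℕ} (h : 0 < n) : sq n * sq n ≤ 4 * n := by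
  have := Nat.sqrt_le n; have := Nat.sqrt_le_self n; unfold sq; nlinarith

theorem poin01 (M : ℕ) (β : ℕ → ZMod 2) : ∃ c, ∑ t ∈ range (M * M), ee (β t + c) ≤
    24 * ∑ g : G, ∑ t ∈ range (M * M), ee (β (mg M g t) + β t) := by
  rcases Nat.eq_zero_or_pos M with rfl | hM
  · simp
  have n0 : (0 : ℝ) < (M * M : ℕ) := by positivity
  obtain ⟨c, hc⟩ : ∃ c, ∑ t ∈ range (M * M), ee (β t + c) ≤ (M * M : ℕ) / 2 := by
    by_contra! hc
    have : ∑ t ∈ range (M * M), (ee (β t + 0) + ee (β t + 1)) = ∑ t ∈ range (M * M), 1 := sum_congr rfl fun t _ => by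
      have : ∀ u : ZMod 2, (u + 0).val + (u + 1).val = 1 := by decide
      unfold ee; exact_mod_cast this _
    rw [sum_add_distrib, sum_const, card_range, nsmul_one] at this
    linarith [hc 0, hc 1]
  refine ⟨c, ?_⟩
  obtain ⟨s, hs⟩ : ∃ s, ∑ t ∈ range (M * M), ee (β t + c) = s := ⟨_, rfl⟩
  have h1 := poin (M := M) (fun t => ee (β t + c) - s / (M * M : ℕ)) (by
    rw [sum_sub_distrib, hs, sum_const, card_range, nsmul_eq_mul, mul_div_cancel₀ _ n0.ne', sub_self])
  have h2 : ∀ a b : ZMod 2, ∀ μ : ℝ, (ee (a + c) - μ - (ee (b + c) - μ)) ^ 2 = ee (a + b) := fun a b μ => by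
    have : ∀ a b c : ZMod 2, (((a + c).val : ℤ) - (b + c).val) ^ 2 = (a + b).val := by decide
    rw [sub_sub_sub_cancel_right]; unfold ee; exact_mod_cast this _ _ _
  have h3 : ∀ a : ZMod 2, ee a ^ 2 = ee a := fun a => by
    have : ∀ a : ZMod 2, a.val ^ 2 = a.val := by decide
    unfold ee; exact_mod_cast this _
  simp only [h2] at h1
  simp only [sub_sq, h3, sum_add_distrib, sum_sub_distrib, ← sum_mul, ← mul_sum, hs, sum_const, card_range,
    nsmul_eq_mul] at h1
  have s0 : 0 ≤ s := hs ▸ sum_nonneg fun _ _ => Nat.cast_nonneg _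
  have h4 : s / (M * M : ℕ) ≤ 1 / 2 := by rw [div_le_iff₀ n0]; linarith
  have h5 : ((M * M : ℕ) : ℝ) * (s / (M * M : ℕ)) ^ 2 = s * (s / (M * M : ℕ)) := by field_simp
  rw [hs]; nlinarith

variable (φ : List (List ℕ))

def n0 : ℕ := 10 * φ.length
def cx (v : ℕ) : ℕ := (φ.getD (v % n0 φ / 10) []).getD (v % 10) 0
def occ (x : ℕ) : List ℕ := (List.range (n0 φ)).filter fun o => cx φ o = x
def ix (v : ℕ) : ℕ := v / n0 φ * (occ φ (cx φ v)).length + (occ φ (cx φ v)).idxOf (v % n0 φ)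
def un (x t : ℕ) : ℕ := t / (occ φ x).length * n0 φ + (occ φ x).getD (t % (occ φ x).length) 0
def Mx (x : ℕ) : ℕ := sq (occ φ x).length
def MM : ℕ := sq (4 * n0 φ)
def pi (i : DD) (v : ℕ) : ℕ := match i.1 with
  | none => if v < n0 φ then v / 10 * 10 + (v % 10 + if i.2.2.2 then 1 else 9) % 10 else v
  | some false => if ix φ v < Mx φ (cx φ v) * Mx φ (cx φ v) then un φ (cx φ v) (mg (Mx φ (cx φ v)) i.2 (ix φ v)) else v
  | some true => mg (MM φ) i.2 v
def ty (i : DD) (v : ℕ) : ℕ := match i.1 with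
  | none => if v < n0 φ then 1 else 0
  | some false => 2 + 10 * (v % 10) + pi φ i v % 10
  | some true => 0
def rel (t : ℕ) (s s' : Sg) : Prop :=
  t = 0 ∨ (t = 1 ∧ s = s' ∧ Pd s) ∨ (2 ≤ t ∧ s (Fin.ofNat 10 ((t - 2) / 10)) = s' (Fin.ofNat 10 (t - 2)))

theorem ty_lt (i : DD) (v : ℕ) : ty φ i v < 102 := by
  unfold ty; split
  · split_ifs <;> omega
  · omega
  · omega

theorem rel_cl (g : G) (v : ℕ) (s s' : Sg) : rel (ty φ (some false, g) v) s s' ↔
    s (Fin.ofNat 10 v) = s' (Fin.ofNat 10 (pi φ (some false, g) v)) := by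
  simp only [rel, ty]
  generalize pi φ (some false, g) v = w
  rw [show Fin.ofNat 10 ((2 + 10 * (v % 10) + w % 10 - 2) / 10) = Fin.ofNat 10 v from Fin.ext (by simp; omega),
    show Fin.ofNat 10 (2 + 10 * (v % 10) + w % 10 - 2) = Fin.ofNat 10 w from Fin.ext (by simp; omega)]
  have h1 : ¬ 2 + 10 * (v % 10) + w % 10 = 1 := by omega
  have h2 : 2 ≤ 2 + 10 * (v % 10) + w % 10 := by omega
  simp [h1, h2]

variable {φ}

theorem cx_add (j o : ℕ) : cx φ (j * n0 φ + o) = cx φ o := by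
  unfold cx
  rw [Nat.mul_add_mod_self_right, n0, show j * (10 * φ.length) + o = 10 * (j * φ.length) + o by ring, Nat.mul_add_mod]

theorem mem_occ {x o : ℕ} : o ∈ occ φ x ↔ o < n0 φ ∧ cx φ o = x := by simp [occ]

theorem mod_occ (h : 0 < n0 φ) (v : ℕ) : v % n0 φ ∈ occ φ (cx φ v) :=
  mem_occ.2 ⟨Nat.mod_lt _ h, by rw [← cx_add (v / n0 φ), Nat.div_add_mod']⟩

theorem un_ix (h : 0 < n0 φ) (v : ℕ) : un φ (cx φ v) (ix φ v) = v := by
  have h1 := List.idxOf_lt_length_of_mem (mod_occ h v)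
  rw [un, ix, Nat.mul_add_mod_of_lt h1, mul_comm (v / n0 φ), Nat.mul_add_div (by omega), Nat.div_eq_of_lt h1,
    List.getD_eq_getElem _ _ h1, List.getElem_idxOf, add_zero, Nat.div_add_mod']

theorem un_spec {x : ℕ} (h : 0 < (occ φ x).length) (t : ℕ) : cx φ (un φ x t) = x ∧ ix φ (un φ x t) = t ∧
    (t < Mx φ x * Mx φ x → un φ x t < MM φ * MM φ) := by
  have h1 := Nat.mod_lt t h
  have h2 := mem_occ.1 (List.getElem_mem h1)
  have e : cx φ (un φ x t) = x := by rw [un, cx_add, List.getD_eq_getElem _ _ h1, h2.2]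
  refine ⟨e, ?_, fun ht => ?_⟩
  · rw [ix, e, un, List.getD_eq_getElem _ _ h1, Nat.mul_add_mod_of_lt h2.1, mul_comm _ (n0 φ),
      Nat.mul_add_div (by omega), Nat.div_eq_of_lt h2.1, List.Nodup.idxOf_getElem (xs := occ φ x) ((List.nodup_range).filter _), add_zero,
      Nat.div_add_mod']
  · have h3 : t / (occ φ x).length < 4 := Nat.div_lt_of_lt_mul (by have := sq_le h; unfold Mx at ht; omega)
    have := lt_sq (4 * n0 φ)
    rw [un, List.getD_eq_getElem _ _ h1, MM]; nlinarith [h2.1]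

theorem occ_pos (h : 0 < n0 φ) (v : ℕ) : 0 < (occ φ (cx φ v)).length := List.length_pos_of_mem (mod_occ h v)

theorem n0_lt : n0 φ ≤ MM φ * MM φ := by have := lt_sq (4 * n0 φ); unfold MM; omega

/-- the regular graph of a constraint list -/
def RR (h : 0 < n0 φ) : RG (Fin (MM φ * MM φ)) DD where
  π i v := ⟨pi φ i v, by
    obtain ⟨_ | _ | _, g⟩ := i <;> simp only [pi]
    · have := n0_lt (φ := φ); unfold n0 at *; split_ifs <;> omega
    · split_ifs with h1
      exacts [(un_spec (occ_pos h v) _).2.2 (mg_lt _ h1), v.2]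
    · exact mg_lt _ v.2⟩
  inv i := (i.1, ginv i.2)
  inv_inv i := by simp [ginv]
  π_inv i v := Fin.ext (by
    obtain ⟨_ | _ | _, g⟩ := i <;> simp only [pi]
    · obtain ⟨_, _, _ | _⟩ := g <;> simp only [ginv, n0] <;> simp <;> split_ifs <;> omega
    · by_cases h1 : ix φ v < Mx φ (cx φ v) * Mx φ (cx φ v)
      · have := un_spec (occ_pos h v) (mg (Mx φ (cx φ v)) g (ix φ v))
        simp only [h1, if_true, this.1, this.2.1, mg_lt _ h1, mg_inv _ h1, un_ix h]
      · simp [h1]
    · exact mg_inv _ v.2)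

theorem sum_DD (F : DD → ℝ) :
    ∑ i, F i = ∑ g, F (none, g) + (∑ g, F (some true, g) + ∑ g, F (some false, g)) := by
  rw [Fintype.sum_prod_type, Fintype.sum_option, Fintype.sum_bool]

theorem exp2 {n : ℕ} (F : Fin n → DD → ℝ) : 𝔼 v, 𝔼 i, F v i = (∑ i, ∑ v, F v i) / (24 * n) := by
  rw [expect_comm]
  simp only [expect_eq_sum_div_card, ← sum_div, card_univ, Fintype.card_fin, div_div]
  rw [show Fintype.card DD = 24 from rfl]; push_cast; rw [mul_comm]

theorem RR_poin (h : 0 < n0 φ) : (RR h).Poin (1 / 288) := fun f hf => by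
  let f' : ℕ → ℝ := fun r => if h : r < MM φ * MM φ then f ⟨r, h⟩ else 0
  have e : ∀ v, f v = f' v := fun v => by simp [f']
  have N0 : (0 : ℝ) < (MM φ * MM φ : ℕ) := by exact_mod_cast h.trans_le n0_lt
  rw [expect_eq_sum_div_card, div_eq_zero_iff] at hf
  have := poin (M := MM φ) f' (by
    rw [← Fin.sum_univ_eq_sum_range]; simp only [← e]
    exact hf.resolve_right (by simpa using N0.ne'))
  rw [exp2, expect_eq_sum_div_card, sum_DD, card_univ, Fintype.card_fin, ← mul_div_assoc, mul_comm (24 : ℝ), ← div_div,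
    le_div_iff₀ (by norm_num), div_mul_eq_mul_div]
  refine div_le_div_of_nonneg_right ?_ N0.le
  simp only [← Fin.sum_univ_eq_sum_range] at this
  simp only [e]
  have a1 : 0 ≤ ∑ g : G, ∑ v, (f' ((RR h).π (none, g) v) - f' v) ^ 2 := by positivity
  have a2 : 0 ≤ ∑ g : G, ∑ v, (f' ((RR h).π (some false, g) v) - f' v) ^ 2 := by positivity
  have a3 : ∑ g : G, ∑ v, (f' ((RR h).π (some true, g) v) - f' v) ^ 2 =
    ∑ g : G, ∑ v : Fin _, (f' (mg (MM φ) g v) - f' v) ^ 2 := rfl
  linarith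

theorem pre_sat (h : 0 < n0 φ) (hs : Sat φ) : ∃ σ : ℕ → Sg, ∀ i v, rel (ty φ i v) (σ v) (σ (pi φ i v)) := by
  obtain ⟨a, ha⟩ := hs
  refine ⟨fun v k => a ((φ.getD (v % n0 φ / 10) []).getD k 0), fun i v => ?_⟩
  obtain ⟨_ | _ | _, g⟩ := i
  · simp only [rel, ty, pi]
    by_cases hv : v < n0 φ
    · simp only [hv, if_true]
      have h1 : v / 10 < φ.length := by unfold n0 at hv; omega
      refine .inr (.inl ⟨trivial, ?_, ?_⟩)
      · rw [Nat.mod_eq_of_lt hv, Nat.mod_eq_of_lt (by unfold n0 at *; omega)]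
        exact congrArg (fun j (k : Fin 10) => a ((φ.getD j []).getD k 0)) (by omega)
      · rw [Nat.mod_eq_of_lt hv, List.getD_eq_getElem _ _ h1]; exact ha _ (List.getElem_mem h1)
    · simp [hv]
  · rw [rel_cl]
    refine congrArg a (?_ : cx φ v = cx φ _)
    simp only [pi]; split_ifs
    exacts [(un_spec (occ_pos h v) _).1.symm, rfl]
  · exact .inl rfl

theorem sum_getD {α : Type} (l : List α) (d : α) (F : α → ℝ) : (l.map F).sum = ∑ i ∈ range l.length, F (l.getD i d) := by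
  induction l with
  | nil => simp
  | cons x l ih => simp [sum_range_succ', ih, add_comm]

theorem sum_ten (F : ℕ → ℝ) (m : ℕ) : ∑ o ∈ range (10 * m), F o = ∑ c ∈ range m, ∑ k ∈ range 10, F (10 * c + k) := by
  induction m with
  | zero => simp
  | succ m ih => rw [mul_add, mul_one, sum_range_add, ih, sum_range_succ _ m]

theorem pre_gap (h : 0 < n0 φ) {ε : ℝ} (hg : Gap ε φ) (ε0 : 0 ≤ ε) (σ : Fin (MM φ * MM φ) → Sg) :
    ε / 92160 ≤ 𝔼 v : Fin (MM φ * MM φ), 𝔼 i, if rel (ty φ i v) (σ v) (σ ((RR h).π i v)) then (0 : ℝ) else 1 := by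
  let s : ℕ → Sg := fun r => if h : r < MM φ * MM φ then σ ⟨r, h⟩ else 0
  have e : ∀ v, σ v = s v := fun v => by simp [s]
  let vi : DD → ℕ → ℝ := fun i v => if rel (ty φ i v) (s v) (s (pi φ i v)) then 0 else 1
  have v0 : ∀ i v, 0 ≤ vi i v := fun i v => by simp only [vi]; split_ifs <;> norm_num
  let β : ℕ → ZMod 2 := fun v => s v (Fin.ofNat 10 v)
  choose a ha using fun x => poin01 (Mx φ x) fun t => β (un φ x t)
  let S := (range (MM φ * MM φ)).filter fun v => ix φ v < Mx φ (cx φ v) * Mx φ (cx φ v)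
  have sS : ∀ F : ℕ → ℝ, ∑ v ∈ S, F v = ∑ x ∈ S.image (cx φ), ∑ t ∈ range (Mx φ x * Mx φ x), F (un φ x t) := fun F => by
    rw [← sum_fiberwise_of_maps_to fun v hv => mem_image_of_mem (cx φ) hv]
    refine sum_congr rfl fun x hx => ?_
    obtain ⟨w, -, rfl⟩ := mem_image.1 hx
    have := un_spec (occ_pos h w)
    refine sum_nbij' (ix φ) (un φ (cx φ w)) ?_ ?_ ?_ (fun t _ => (this t).2.1) ?_ <;>
      simp only [S, mem_filter, mem_range]
    · rintro v ⟨⟨-, h1⟩, h2⟩; rwa [h2] at h1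
    · intro t ht; rw [(this t).1, (this t).2.1]; exact ⟨⟨(this t).2.2 ht, ht⟩, rfl⟩
    · rintro v ⟨-, h2⟩; rw [← h2, un_ix h]
    · rintro v ⟨-, h2⟩; rw [← h2, un_ix h]
  have h1 : ∑ o ∈ range (n0 φ), ee (β o + a (cx φ o)) ≤ 24 * ∑ g, ∑ v ∈ range (MM φ * MM φ), vi (some false, g) v := by
    calc _ ≤ ∑ o ∈ S, ee (β o + a (cx φ o)) := sum_le_sum_of_subset_of_nonneg (fun o ho => by
            have ho := mem_range.1 ho
            have := List.idxOf_lt_length_of_mem (mod_occ h o)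
            refine mem_filter.2 ⟨mem_range.2 (ho.trans_le n0_lt), ?_⟩
            rw [ix, Nat.div_eq_of_lt ho, zero_mul, zero_add]
            exact this.trans (lt_sq _)) fun _ _ _ => Nat.cast_nonneg _
      _ ≤ 24 * ∑ g, ∑ v ∈ S, vi (some false, g) v := by
          simp only [sS]
          rw [sum_comm, mul_sum]
          refine sum_le_sum fun x hx => ?_
          obtain ⟨w, -, rfl⟩ := mem_image.1 hx
          have := un_spec (occ_pos h w)
          simp only [(this _).1]
          refine (ha _).trans ?_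
          gcongr with g _ t ht
          refine ee_le fun hr => ?_
          rw [rel_cl] at hr
          simp only [pi, (this _).1, (this _).2.1, mem_range.1 ht, if_true] at hr
          simp only [β, hr, CharTwo.add_self_eq_zero]
      _ ≤ _ := by gcongr; exacts [filter_subset _ _]
  have h2 : bad φ a ≤ ∑ o ∈ range (n0 φ), (ee (β o + a (cx φ o)) + vi (none, true, true, true) o) := by
    rw [bad, sum_getD φ [], n0, sum_ten]
    refine sum_le_sum fun c hc => ?_
    have p0 : ∀ o, 0 ≤ ee (β o + a (cx φ o)) + vi (none, true, true, true) o := fun o =>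
      add_nonneg (Nat.cast_nonneg _) (v0 _ _)
    split_ifs with hk
    · exact sum_nonneg fun _ _ => p0 _
    by_contra! hlt
    have h3 : ∀ k < 10, β (10 * c + k) = a (cx φ (10 * c + k)) ∧ s (10 * c + k) = s (10 * c + (k + 1) % 10) ∧
        Pd (s (10 * c + k)) := fun k hk => by
      have := (single_le_sum (fun o _ => p0 (10 * c + o)) (mem_range.2 hk)).trans_lt hlt
      have h4 : 10 * c + k < n0 φ := by have := mem_range.1 hc; unfold n0; omega
      refine ⟨CharTwo.add_eq_zero.1 (ee_lt (by linarith [v0 (none, true, true, true) (10 * c + k)])), ?_⟩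
      have h5 : rel (ty φ (none, true, true, true) (10 * c + k)) (s (10 * c + k))
          (s (pi φ (none, true, true, true) (10 * c + k))) := by
        by_contra hn
        simp only [vi, hn, if_false, ee] at this
        linarith [Nat.cast_nonneg (α := ℝ) (β (10 * c + k) + a (cx φ (10 * c + k))).val]
      simp only [rel, ty, pi, h4, if_true] at h5
      rw [show (10 * c + k) / 10 * 10 + ((10 * c + k) % 10 + 1) % 10 = 10 * c + (k + 1) % 10 by omega] at h5
      simpa using h5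
    have h4 : ∀ k < 10, s (10 * c + k) = s (10 * c + 0) := fun k => by
      induction k with
      | zero => exact fun _ => rfl
      | succ k ih => intro hk; rw [← ih (by omega), (h3 k (by omega)).2.1, Nat.mod_eq_of_lt hk]
    refine hk (Eq.mp (congrArg Pd ?_) (h3 0 (by norm_num)).2.2)
    funext k
    have := (h3 k k.2).1
    simp only [β, cx, h4 k k.2] at this
    rw [Nat.mod_eq_of_lt (by have := mem_range.1 hc; unfold n0; omega), show (10 * c + k) / 10 = c by omega,
      show (10 * c + k) % 10 = k by omega, show Fin.ofNat 10 (10 * c + k) = k from Fin.ext (by simp)] at this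
    exact this
  have h3 : ∑ o ∈ range (n0 φ), vi (none, true, true, true) o ≤ ∑ g, ∑ v ∈ range (MM φ * MM φ), vi (none, g) v :=
    le_trans (sum_le_sum_of_subset_of_nonneg (range_subset_range.2 n0_lt) fun _ _ _ => v0 _ _)
      (single_le_sum (f := fun g => ∑ v ∈ range (MM φ * MM φ), vi (none, g) v)
        (fun _ _ => sum_nonneg fun _ _ => v0 _ _) (mem_univ _))
  have a1 : ∀ o, 0 ≤ ∑ g : G, ∑ v ∈ range (MM φ * MM φ), vi (o, g) v := fun o =>
    sum_nonneg fun _ _ => sum_nonneg fun _ _ => v0 _ _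
  have N0 : (0 : ℝ) < (MM φ * MM φ : ℕ) := by exact_mod_cast h.trans_le n0_lt
  have N1 : ((MM φ * MM φ : ℕ) : ℝ) ≤ 160 * φ.length := by
    have := sq_le (n := 4 * n0 φ) (by omega)
    unfold n0 at this; exact_mod_cast (show MM φ * MM φ ≤ 160 * φ.length by unfold MM n0; omega)
  rw [exp2, le_div_iff₀ (by positivity)]
  have e2 : ∑ i, ∑ v : Fin (MM φ * MM φ), (if rel (ty φ i v) (σ v) (σ ((RR h).π i v)) then (0 : ℝ) else 1) =
      ∑ i, ∑ v ∈ range (MM φ * MM φ), vi i v := by
    simp only [e, ← Fin.sum_univ_eq_sum_range]; rfl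
  rw [e2, sum_DD]
  rw [sum_add_distrib] at h2
  nlinarith [hg a, a1 none, a1 (some true), a1 (some false), mul_le_mul_of_nonneg_left N1 ε0]

variable {α : Type} [Enc α]

@[fun_prop] theorem pt_sq {n : α → ℕ} (hn : PT n) (hb : PB n) : PT fun a => sq (n a) :=
  (show PT fun a => (List.range (n a + 2)).findIdx fun k => decide (n a < k * k) by fun_prop).congr fun a => by
    have := Nat.sqrt_le_self (n a)
    refine ((List.findIdx_eq (by simp [sq]; omega)).2 ⟨by simpa using lt_sq _, fun j hj => ?_⟩).symm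
    simpa using Nat.le_sqrt.1 (Nat.lt_succ_iff.1 hj)

@[fun_prop] theorem pt_mg (g : G) {m n : α → ℕ} (hm : PT m) (hn : PT n) : PT fun a => mg (m a) g (n a) := by
  unfold mg; fun_prop

theorem pt_pi (i : DD) : PT fun x : List (List ℕ) × ℕ => pi x.1 i x.2 := by
  obtain ⟨_ | _ | _, g⟩ := i <;> simp only [pi, ix, un, Mx, MM, occ, cx, n0] <;> fun_prop

theorem pt_ty (i : DD) : PT fun x : List (List ℕ) × ℕ => ty x.1 i x.2 := by
  have := pt_pi i
  obtain ⟨_ | _ | _, g⟩ := i <;> simp only [ty, n0] <;> fun_prop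

end Pool.Agent.Lib.helper20.PCP
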