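import Mathlib

set_option autoImplicit false
open Finset Polynomial

namespace Pool.Agent.Lib.helper20.Quad

lemma half_prod {M : Type*} [CommMonoid M] (f : ℕ → M) (n : ℕ) :
    ∏ k ∈ range (2 * n), f (k + 1) = ∏ k ∈ range n, f (k + 1) * f (2 * n - k) := by
  rw [two_mul, prod_range_add, prod_mul_distrib, ← prod_range_reflect (fun k => f (n + k + 1))]
  congr 1
  exact prod_congr rfl fun k hk => by have := mem_range.1 hk; congr 1; omega

lemma sum_monic {p : ℕ} [Fact p.Prime] {Q : (ZMod p)[X]} (h : Q.Monic) (hd : Q.natDegree = p - 1) :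
    ∑ a, Q.eval a = -1 := by
  have h2 := (Fact.out : p.Prime).two_le
  simp only [eval_eq_sum_range, hd]
  rw [sum_comm, sum_range_succ, sum_eq_zero fun i hi => by
    rw [← mul_sum, FiniteField.sum_pow_lt_card_sub_one _ _ (by simpa using hi), mul_zero],
    ← mul_sum, ← hd, h.coeff_natDegree, hd, ← add_sum_erase _ _ (mem_univ 0), zero_pow (by omega),
    sum_congr rfl fun a ha => ZMod.pow_card_sub_one_eq_one (ne_of_mem_erase ha)]
  simp [Nat.cast_sub (by omega : 1 ≤ p)]

lemma wilson {p : ℕ} [Fact p.Prime] {n : ℕ} (hp : p = 2 * n + 1) :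
    (n.factorial : ZMod p) * n.factorial = (-1) ^ (n + 1) := by
  have h1 := ZMod.wilsons_lemma p
  have h0 : (2 * n + 1 : ZMod p) = 0 := by
    simpa using (congrArg (Nat.cast : ℕ → ZMod p) hp).symm
  rw [show p - 1 = 2 * n by omega, ← prod_range_add_one_eq_factorial, Nat.cast_prod,
    half_prod fun k => (k : ZMod p), prod_congr rfl (g := fun k => -(((k + 1 : ℕ) : ZMod p) *
      (k + 1 : ℕ))) fun k hk => by
        have := mem_range.1 hk
        rw [Nat.cast_sub (by omega)]
        push_cast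
        linear_combination (k + 1 : ZMod p) * h0,
    prod_neg, prod_mul_distrib, ← Nat.cast_prod, prod_range_add_one_eq_factorial, card_range] at h1
  have h2 : ((-1 : ZMod p) ^ n) * (-1) ^ n = 1 := by rw [← mul_pow]; simp
  linear_combination (-1) ^ n * h1 - (n.factorial : ZMod p) * n.factorial * h2

lemma sum_zmod {M : Type*} [AddCommMonoid M] {p : ℕ} [NeZero p] (f : ZMod p → M) :
    ∑ a, f a = ∑ k ∈ range p, f k :=
  (sum_bij (fun (k : ℕ) _ => (k : ZMod p)) (by simp) (fun a ha b hb h => by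
    have := congrArg ZMod.val h
    rwa [ZMod.val_cast_of_lt (mem_range.1 ha), ZMod.val_cast_of_lt (mem_range.1 hb)] at this)
    (fun b _ => ⟨b.val, mem_range.2 b.val_lt, by simp⟩) fun _ _ => rfl).symm

lemma gauss_prod {p : ℕ} [Fact p.Prime] {n : ℕ} (hp : p = 2 * n + 1) {ζ : ℂ}
    (hζ : IsPrimitiveRoot ζ p) (h : (∑ a ∈ range p, legendreSym p a * ζ ^ a) ^ 2 = (-1) ^ n * p) :
    ∑ a ∈ range p, legendreSym p a * ζ ^ a =
      legendreSym p 2 * (-1) ^ n * ∏ k ∈ range n, (ζ ^ (k + 1) - ζ ^ (2 * n - k)) := by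
  have hp1 : p.Prime := Fact.out
  have hn : 0 < n := by have := hp1.two_le; omega
  have h1 : (∏ k ∈ range n, (ζ ^ (k + 1) - ζ ^ (2 * n - k))) ^ 2 = (-1) ^ n * p := by
    have h2 := (hp ▸ hζ.pow_of_coprime 2 ((Nat.coprime_primes Nat.prime_two hp1).2 (by omega)) :
      IsPrimitiveRoot (ζ ^ 2) (2 * n + 1)).prod_one_sub_pow_eq_order
    rw [half_prod fun k => 1 - (ζ ^ 2) ^ k] at h2
    rw [show (p : ℂ) = (2 * n : ℕ) + 1 by rw [hp]; push_cast; ring, ← h2, ← prod_pow,
      ← congrArg ((-1 : ℂ) ^ ·) (card_range n), ← prod_neg]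
    refine prod_congr rfl fun k hk => ?_
    have := mem_range.1 hk
    have h3 : ζ ^ (k + 1) * ζ ^ (2 * n - k) = 1 := by
      rw [← pow_add, show k + 1 + (2 * n - k) = p by omega, hζ.pow_eq_one]
    rw [pow_right_comm ζ 2, pow_right_comm ζ 2]
    linear_combination (ζ ^ (k + 1) * ζ ^ (2 * n - k) - 1) * h3
  obtain ⟨e, he, h2⟩ : ∃ e : ℤ, (e = 1 ∨ e = -1) ∧ ∑ a ∈ range p, legendreSym p a * ζ ^ a =
      e * ∏ k ∈ range n, (ζ ^ (k + 1) - ζ ^ (2 * n - k)) := by
    rcases sq_eq_sq_iff_eq_or_eq_neg.1 (h.trans h1.symm) with h | h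
    exacts [⟨1, Or.inl rfl, by simp [h]⟩, ⟨-1, Or.inr rfl, by simp [h]⟩]
  have h3 := minpoly.isIntegrallyClosed_dvd (hζ.isIntegral hp1.pos)
    (p := ∑ a ∈ range p, C (legendreSym p a) * X ^ a -
      C e * ∏ k ∈ range n, (X ^ (k + 1) - X ^ (2 * n - k))) (by simp [map_prod, h2])
  rw [← cyclotomic_eq_minpoly hζ hp1.pos] at h3
  have h4 := map_dvd (taylorAlgHom (1 : ZMod p)) (map_dvd (mapRingHom (Int.castRingHom (ZMod p))) h3)
  have h5 := cyclotomic_mul_prime_eq_pow_of_not_dvd (ZMod p) (n := 1) (p := p) hp1.not_dvd_one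
  rw [one_mul, cyclotomic_one] at h5
  simp only [coe_mapRingHom, map_cyclotomic_int, h5, map_X, map_C, map_sub, map_sum,
    map_mul, map_prod, map_pow, map_one, taylorAlgHom_apply, taylor_X, taylor_C, C_1,
    add_sub_cancel_right, Int.coe_castRingHom] at h4
  have h6 := X_pow_dvd_iff.1 h4 n (by omega)
  have h0 : (2 * n + 1 : ZMod p) = 0 := by
    simpa using (congrArg (Nat.cast : ℕ → ZMod p) hp).symm
  have h7 : (∏ k ∈ range n, ((X + 1) ^ (k + 1) - (X + 1) ^ (2 * n - k)) : (ZMod p)[X]).coeff n =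
      2 ^ n * n.factorial := by
    rw [prod_congr rfl (g := fun k => X * divX ((X + 1) ^ (k + 1) - (X + 1) ^ (2 * n - k)))
      fun k _ => (X_mul_divX_add _).symm.trans (by simp [coeff_X_add_one_pow]),
      prod_mul_distrib, prod_const, card_range, coeff_X_pow_mul', if_pos le_rfl, Nat.sub_self,
      coeff_zero_prod, ← prod_range_add_one_eq_factorial, Nat.cast_prod]
    nth_rw 3 [← card_range n]
    rw [← prod_const, ← prod_mul_distrib]
    refine prod_congr rfl fun k hk => ?_
    have := mem_range.1 hk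
    rw [coeff_divX, coeff_sub, coeff_X_add_one_pow, coeff_X_add_one_pow, Nat.choose_one_right,
      Nat.choose_one_right, Nat.cast_sub (by omega)]
    push_cast
    linear_combination -h0
  have h8 := sum_monic (p := p) ((monic_X_pow n).mul (monic_descPochhammer _ n)) (by
    rw [(monic_X_pow n).natDegree_mul (monic_descPochhammer _ n), descPochhammer_natDegree]
    simp; omega)
  rw [sum_zmod] at h8
  simp only [eval_mul, eval_pow, eval_X, descPochhammer_eval_eq_descFactorial,
    Nat.descFactorial_eq_factorial_mul_choose, Nat.cast_mul] at h8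
  have h9 : ∀ a : ℤ, (legendreSym p a : ZMod p) = a ^ n := fun a => by
    rw [legendreSym.eq_pow, show p / 2 = n by omega]
  simp only [coeff_sub, finsetSum_coeff, coeff_C_mul, coeff_X_add_one_pow, h7, h9,
    Int.cast_natCast] at h6
  have h10 : (e : ZMod p) * 2 ^ n * (-1) ^ (n + 1) = -1 := by
    rw [← wilson hp, ← h8]
    simp only [mul_left_comm _ (n.factorial : ZMod p), ← mul_sum]
    linear_combination -(n.factorial : ZMod p) * h6
  have h11 : ((e * (legendreSym p 2 * (-1) ^ n) : ℤ) : ZMod p) = 1 := by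
    push_cast [h9]
    linear_combination -h10
  have h5 : ((2 : ℤ) : ZMod p) ≠ 0 := fun h => by
    have := Int.le_of_dvd two_pos ((ZMod.intCast_zmod_eq_zero_iff_dvd 2 p).1 h); omega
  have : e = legendreSym p 2 * (-1) ^ n := by
    rcases legendreSym.eq_one_or_neg_one p h5 with h | h <;> rcases neg_one_pow_eq_or ℤ n with h' | h'
      <;> rw [h, h'] at h11 ⊢ <;> rcases he with rfl | rfl <;> first
        | rfl
        | exact absurd (by push_cast at h11 ⊢; linear_combination -h11) h5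
  rw [h2, this]
  push_cast
  rfl

open Complex Real in
theorem gauss_sign {p : ℕ} [Fact p.Prime] (h2 : p ≠ 2) :
    ∑ a ∈ range p, legendreSym p a * cexp (2 * π * I / p) ^ a =
      (if p % 4 = 1 then 1 else I) * √p := by
  have hp1 : p.Prime := Fact.out
  obtain ⟨n, hp⟩ : ∃ n, p = 2 * n + 1 := hp1.odd_of_ne_two h2
  have hr : ringChar (ZMod p) ≠ 2 := by rwa [ZMod.ringChar_zmod_n]
  have hg := gaussSum_sq ((MulChar.ringHomComp_ne_one_iff (RingHom.injective_int
    (Int.castRingHom ℂ))).2 (quadraticChar_ne_one hr)) ((quadraticChar_isQuadratic _).comp _)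
    (ZMod.isPrimitive_stdAddChar p)
  have h1 : (∑ a ∈ range p, legendreSym p a * cexp (2 * π * I / p) ^ a) ^ 2 = (-1) ^ n * p := by
    rw [gaussSum, sum_zmod, ZMod.card, MulChar.ringHomComp_apply, quadraticChar_neg_one hr,
      ZMod.card, ZMod.χ₄_eq_neg_one_pow (by omega), show p / 2 = n by omega] at hg
    simp only [map_pow, map_neg, map_one] at hg
    rw [← hg]
    congr 1
    refine sum_congr rfl fun a _ => ?_
    rw [← Int.cast_natCast (R := ZMod p), ZMod.stdAddChar_coe, ← Complex.exp_nat_mul]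
    congr 2
    push_cast; ring
  have h3 := gauss_prod hp (Complex.isPrimitiveRoot_exp p hp1.ne_zero) h1
  have hp0 : (0 : ℝ) < p := Nat.cast_pos.2 hp1.pos
  rw [prod_congr (s₁ := range n) rfl
    (g := fun k : ℕ => I * (2 * Real.sin (2 * π * (k + 1) / p) : ℝ)) fun k hk => by
    have := mem_range.1 hk
    have h4 : (p : ℂ) ≠ 0 := Nat.cast_ne_zero.2 hp1.ne_zero
    rw [← Complex.exp_nat_mul, ← Complex.exp_nat_mul, Nat.cast_sub (by omega),
      show (((2 * n : ℕ) : ℂ) - k) * (2 * π * I / p) = -(2 * π * (k + 1) / p) * I + 2 * π * I by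
        field_simp; rw [hp]; push_cast; ring, Complex.exp_periodic]
    push_cast
    rw [Complex.two_sin, show ((k : ℂ) + 1) * (2 * π * I / p) = 2 * π * (k + 1) / p * I by ring]
    linear_combination (cexp (2 * π * (k + 1) / p * I) - cexp (-(2 * π * (k + 1) / p) * I)) * I_sq,
    prod_mul_distrib, prod_const, card_range, ← ofReal_prod] at h3
  have h4 : 0 < ∏ k ∈ range n, 2 * Real.sin (2 * π * (k + 1) / p) := prod_pos fun k hk =>
    mul_pos two_pos (Real.sin_pos_of_pos_of_lt_pi (by positivity) (by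
      have : (k : ℝ) + 1 ≤ n := by exact_mod_cast mem_range.1 hk
      rw [div_lt_iff₀ hp0, hp]; push_cast; nlinarith [pi_pos]))
  generalize ∏ k ∈ range n, 2 * Real.sin (2 * π * (k + 1) / p) = R at *
  have h5 : (legendreSym p 2 : ℂ) * (-1) ^ n * I ^ n = if p % 4 = 1 then 1 else I := by
    rw [legendreSym.at_two h2, ZMod.χ₈_nat_eq_if_mod_eight, mul_assoc, ← mul_pow,
      ← Nat.div_add_mod n 4, pow_add, pow_mul, show (-1 * I) ^ 4 = 1 by rw [mul_pow, I_pow_four]; norm_num]
    have : n % 4 < 4 := Nat.mod_lt _ four_pos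
    obtain ⟨r, hr⟩ : ∃ r, n % 4 = r := ⟨_, rfl⟩
    rw [hr] at this ⊢
    interval_cases r <;> split_ifs <;> first | omega | simp [pow_succ]
  rw [h3, ← mul_assoc, h5] at h1 ⊢
  congr 2
  refine (Real.sqrt_eq_iff_eq_sq hp0.le h4.le).2 ?_ |>.symm
  apply ofReal_injective
  push_cast
  split_ifs at h1 with h
  · rw [Even.neg_one_pow ⟨n / 2, by omega⟩] at h1
    linear_combination -h1
  · rw [Odd.neg_one_pow ⟨n / 2, by omega⟩, mul_pow, I_sq] at h1
    linear_combination h1

end Pool.Agent.Lib.helper20.Quad
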