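import Pool.Agent.Lib.helper20.QField
import Pool.Agent.Lib.helper20.QGauss

set_option autoImplicit false
set_option linter.unusedSectionVars false
open Finset NumberField Complex Real

namespace Pool.Agent.Lib.helper20.Quad

lemma half_sum {M : Type*} [AddCommMonoid M] (f : ℕ → M) (n : ℕ) :
    ∑ k ∈ range (2 * n + 1), f k = f 0 + ∑ k ∈ range n, (f (k + 1) + f (2 * n - k)) := by
  rw [sum_range_succ', add_comm]
  exact congrArg _ (half_prod (M := Multiplicative M) f n)

lemma log_one_sub {x : ℝ} (h0 : 0 < x) (h1 : x < 1) : Complex.log (1 - cexp (2 * π * I * x)) =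
    Real.log (2 * Real.sin (π * x)) + (π * (x - 1 / 2) : ℝ) * I := by
  have h2 : 0 < Real.sin (π * x) := sin_pos_of_pos_of_lt_pi (by positivity) (by nlinarith [pi_pos])
  have h3 : 1 - cexp (2 * π * I * x) =
      (2 * Real.sin (π * x) : ℝ) * cexp ((π * (x - 1 / 2) : ℝ) * I) := by
    push_cast
    rw [Complex.two_sin, show π * (x - 1 / 2 : ℂ) * I = π * x * I + -π / 2 * I by ring,
      Complex.exp_add, Complex.exp_neg_pi_div_two_mul_I,
      show 2 * π * I * x = π * x * I + π * x * I by ring, Complex.exp_add, neg_mul, Complex.exp_neg]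
    have := Complex.exp_ne_zero (π * x * I)
    field_simp
    linear_combination (1 - cexp (π * x * I) ^ 2) * I_sq
  rw [h3, Complex.log_ofReal_mul (by positivity) (Complex.exp_ne_zero _), Complex.log_exp] <;>
    simp only [mul_I_im, ofReal_re] <;> nlinarith [pi_pos]

lemma unit_ne {x : ℝ} (h0 : 0 < x) (h1 : x < 1) :
    ‖cexp (2 * π * I * x)‖ = 1 ∧ cexp (2 * π * I * x) ≠ 1 := by
  refine ⟨by rw [show 2 * π * I * x = (2 * π * x : ℝ) * I by push_cast; ring,
    Complex.norm_exp_ofReal_mul_I], fun h => ?_⟩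
  obtain ⟨n, hn⟩ := Complex.exp_eq_one_iff.1 h
  have h2 : x = n := by
    have := mul_left_cancel₀ Complex.two_pi_I_ne_zero (hn.trans (mul_comm _ _))
    exact_mod_cast this
  rw [h2] at h0 h1
  norm_cast at h0 h1
  omega

lemma tri {q : ℕ} [Fact q.Prime] (hq : q ≠ 2) (t m : ℤ) {c : ℤ}
    (hc : c = legendreSym q (t * t + 4 * m)) :
    (c = 1 ∧ ∃ r : ℤ, (q : ℤ) ∣ r * r - t * r - m ∧ ¬ (q : ℤ) ∣ 2 * r - t) ∨
      (c = 0 ∧ ∃ r : ℤ, (q : ℤ) ∣ r * r - t * r - m ∧ (q : ℤ) ∣ 2 * r - t) ∨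
      (c = -1 ∧ ∀ r : ℤ, ¬ (q : ℤ) ∣ r * r - t * r - m) := by
  have h2 : (2 : ZMod q) ≠ 0 := fun h => hq ((Nat.prime_dvd_prime_iff_eq Fact.out
    Nat.prime_two).1 ((ZMod.natCast_eq_zero_iff 2 q).1 h))
  have h4 : (2 * 2 : ZMod q) ≠ 0 := mul_ne_zero h2 h2
  simp only [← ZMod.intCast_zmod_eq_zero_iff_dvd, hc]
  by_cases h0 : ((t * t + 4 * m : ℤ) : ZMod q) = 0
  · obtain ⟨r, hr⟩ := ZMod.intCast_surjective (t / 2 : ZMod q)
    rw [eq_div_iff h2] at hr
    refine Or.inr (Or.inl ⟨(legendreSym.eq_zero_iff q _).2 h0, r, mul_left_cancel₀ h4 ?_, ?_⟩) <;>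
      push_cast at h0 ⊢
    · linear_combination (2 * r - t : ZMod q) * hr - h0
    · linear_combination hr
  rcases legendreSym.eq_one_or_neg_one q h0 with h | h
  · obtain ⟨y, hy⟩ := (legendreSym.eq_one_iff q h0).1 h
    obtain ⟨r, hr⟩ := ZMod.intCast_surjective ((t + y) / 2 : ZMod q)
    rw [eq_div_iff h2] at hr
    refine Or.inl ⟨h, r, mul_left_cancel₀ h4 ?_, fun h3 => h0 ?_⟩ <;> push_cast at *
    · linear_combination (2 * r - t + y : ZMod q) * hr - hy
    · linear_combination hy + y * h3 - y * hr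
  · refine Or.inr (Or.inr ⟨h, fun r hr => (legendreSym.eq_neg_one_iff q).1 h ⟨2 * r - t, ?_⟩⟩)
    push_cast at *
    linear_combination -4 * hr

variable {p : ℕ} [Fact p.Prime]

lemma gsum (h2 : p ≠ 2) (k : ℤ) : ∑ a ∈ range p, legendreSym p a * cexp (2 * π * I * (a * k / p)) =
    legendreSym p k * ((if p % 4 = 1 then 1 else I) * √p) := by
  have hr : ringChar (ZMod p) ≠ 2 := by rwa [ZMod.ringChar_zmod_n]
  obtain ⟨χ, hχ⟩ : ∃ χ : MulChar (ZMod p) ℂ,
    χ = (quadraticChar (ZMod p)).ringHomComp (Int.castRingHom ℂ) := ⟨_, rfl⟩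
  have hl : ∀ k : ℤ, χ k = legendreSym p k := fun k => by rw [hχ]; rfl
  have h1 : χ ≠ 1 := hχ ▸ (MulChar.ringHomComp_ne_one_iff (RingHom.injective_int _)).2
    (quadraticChar_ne_one hr)
  have h3 : χ.IsQuadratic := hχ ▸ (quadraticChar_isQuadratic _).comp _
  have e : ∀ k : ℤ, ∑ a ∈ range p, legendreSym p a * cexp (2 * π * I * (a * k / p)) =
      ∑ a : ZMod p, χ a * ZMod.stdAddChar (a * (k : ZMod p)) := fun k => by
    rw [sum_zmod]
    refine sum_congr rfl fun a _ => ?_
    rw [← hl, ← Int.cast_natCast (R := ZMod p) a, ← Int.cast_mul, ZMod.stdAddChar_coe]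
    congr 2
    push_cast; ring
  have e1 : gaussSum χ ZMod.stdAddChar = (if p % 4 = 1 then 1 else I) * √p := by
    rw [← gauss_sign h2]
    refine Eq.trans (by simp [gaussSum]) ((e 1).symm.trans (sum_congr rfl fun a _ => ?_))
    rw [← Complex.exp_nat_mul]
    congr 2
    push_cast; ring
  rw [e, ← e1, ← hl]
  by_cases hb : (k : ZMod p) = 0
  · simp [hb, MulChar.sum_eq_zero_of_ne_one h1, MulChar.map_zero]
  · have := gaussSum_mulShift_eq χ ZMod.stdAddChar (Units.mk0 _ hb)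
    rw [h3.inv] at this
    simpa [gaussSum, mul_comm (k : ZMod p)] using this

lemma gsum' (h2 : p ≠ 2) (n : ℕ) : ((if p % 4 = 1 then 1 else I) * √p) * legendreSym p n =
    ∑ a ∈ Ico 1 p, legendreSym p a * cexp (2 * π * I * (a / p : ℝ)) ^ n := by
  rw [mul_comm, ← gsum h2, range_eq_Ico, sum_eq_sum_Ico_succ_bot (Fact.out : p.Prime).pos]
  simp only [Nat.cast_zero, legendreSym.at_zero, Int.cast_zero, zero_mul, zero_add]
  refine sum_congr rfl fun a _ => ?_
  rw [← Complex.exp_nat_mul]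
  congr 2
  push_cast; ring

lemma frac {a : ℕ} (ha : a ∈ Ico 1 p) : (0 : ℝ) < a / p ∧ (a / p : ℝ) < 1 := by
  obtain ⟨h1, h2⟩ := mem_Ico.1 ha
  have h3 : (0 : ℝ) < p := Nat.cast_pos.2 (by omega)
  exact ⟨div_pos (Nat.cast_pos.2 h1) h3, (div_lt_one h3).2 (Nat.cast_lt.2 h2)⟩

lemma leg_sum (h2 : p ≠ 2) : ∑ a ∈ Ico 1 p, legendreSym p a = 0 := by
  have := gsum' h2 0
  simp only [Nat.cast_zero, legendreSym.at_zero, Int.cast_zero, mul_zero, pow_zero, mul_one] at this
  exact_mod_cast this.symm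

variable {K : Type*} [Field K] [NumberField K] (h2 : Module.finrank ℚ K = 2) {s : K}
include h2

lemma star {d : ℤ} (hs : s * s = d) (hd : (p % 4 = 1 ∧ d = p) ∨ (p % 4 = 3 ∧ d = -p)) :
    ∃ (θ : 𝓞 K) (m : ℤ) (b : Module.Basis (Fin 2) ℤ (𝓞 K)), θ * θ = (1 : ℤ) * θ + m ∧ b 0 = 1 ∧
      b 1 = θ ∧ 1 * 1 + 4 * m = d ∧ 2 * (θ : K) = 1 + s ∧
      ((if p % 4 = 1 then 1 else I) * √p) * dedekindZeta_residue K =
        -∑ a ∈ Ico 1 p, legendreSym p a *
          (Real.log (2 * Real.sin (π * (a / p))) + (π * (a / p - 1 / 2) : ℝ) * I) := by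
  have hp : p.Prime := Fact.out
  have h1 := hp.two_le
  have sq : Squarefree (p : ℤ) := Int.squarefree_natCast.2 hp.squarefree
  obtain ⟨m, hm⟩ : ∃ m, d = 4 * m + 1 := ⟨d / 4, by omega⟩
  obtain ⟨θ, b, e1, e2, e3, e4⟩ := basis h2 hs (t := 1) (m := m) (by
    rcases hd with ⟨-, rfl⟩ | ⟨-, rfl⟩
    exacts [sq, (Associated.refl _).neg_right.squarefree_iff.1 sq]) (by omega) (Or.inl ⟨rfl, hm⟩)
  refine ⟨θ, m, b, e1, e2, e3, by omega, by rw [e4]; norm_num, ?_⟩
  rw [residue K (fun n => legendreSym p n) (count e1 b e2 e3 _ (by simp)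
    (fun a b => by simp [legendreSym.mul]) fun q hq => ?_) (Ico 1 p) (fun a => legendreSym p a)
    (fun a => cexp (2 * π * I * (a / p : ℝ))) (mul_ne_zero (by split_ifs <;> simp)
      (by simpa using hp.ne_zero)) (fun a ha => unit_ne (frac ha).1 (frac ha).2)
    fun n _ => gsum' (by omega) n]
  · exact congrArg _ (sum_congr rfl fun a ha => by rw [log_one_sub (frac ha).1 (frac ha).2])
  by_cases h : q = 2
  · subst h
    rw [Nat.cast_ofNat, legendreSym.at_two (by omega), ZMod.χ₈_nat_eq_if_mod_eight]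
    by_cases h : m % 2 = 0
    · exact Or.inl ⟨by split_ifs <;> omega, 0, by omega, by omega⟩
    · refine Or.inr (Or.inr ⟨by split_ifs <;> omega, fun r hr => ?_⟩)
      obtain ⟨k, hk⟩ := Int.even_mul_pred_self r
      rw [show r * r - 1 * r = k + k by linear_combination hk] at hr
      omega
  have := Fact.mk hq
  refine tri h 1 m ?_
  have ho := hq.odd_of_ne_two h
  rw [show 1 * 1 + 4 * m = d by omega, jacobiSym.legendreSym.to_jacobiSym,
    jacobiSym.legendreSym.to_jacobiSym]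
  rcases hd with ⟨h4, rfl⟩ | ⟨h4, rfl⟩
  · exact jacobiSym.quadratic_reciprocity_one_mod_four' ho h4
  · rw [jacobiSym.neg _ ho]
    rcases Nat.odd_mod_four_iff.1 (Nat.odd_iff.1 ho) with h5 | h5
    · rw [ZMod.χ₄_nat_one_mod_four h5, one_mul]
      exact jacobiSym.quadratic_reciprocity_one_mod_four h5 (Nat.odd_iff.2 (by omega))
    · rw [ZMod.χ₄_nat_three_mod_four h5, neg_one_mul]
      exact jacobiSym.quadratic_reciprocity_three_mod_four h5 h4

/-- Class number formula for the field of discriminant `-p`. -/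
theorem h_neg (hs : s * s = -p) (h4 : p % 4 = 3) (h3 : 3 < p) :
    (p : ℤ) * classNumber K = -∑ a ∈ range p, a * legendreSym p a := by
  obtain ⟨θ, m, b, e1, e2, e3, e4, -, e5⟩ := star h2 (d := -p) (by simpa using hs)
    (Or.inr ⟨h4, rfl⟩)
  have hp : (0 : ℝ) < p := Nat.cast_pos.2 (by omega)
  rw [imag e1 b e2 e3 h2 (by omega), e4, if_neg (by omega)] at e5
  have h5 := congrArg Complex.im e5
  have h6 := congrArg (Int.cast : ℤ → ℝ) (leg_sum (p := p) (by omega))
  have h7 := (Real.sqrt_pos.2 hp).ne'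
  simp only [mul_assoc I, ← ofReal_mul, ofReal_re, neg_im, im_sum, mul_im, intCast_re,
    intCast_im, zero_mul, add_zero, add_im, ofReal_im, zero_add, I_re, I_im, Int.cast_neg, neg_neg,
    Int.cast_natCast, mul_div_cancel₀ _ h7, one_mul, mul_one] at h5
  rw [range_eq_Ico, sum_eq_sum_Ico_succ_bot (by omega : 0 < p)]
  apply Int.cast_injective (α := ℝ)
  push_cast at h6 ⊢
  refine mul_left_cancel₀ (div_pos pi_pos hp).ne' ?_
  rw [← mul_assoc, div_mul_cancel₀ _ hp.ne', h5, zero_mul, zero_add, mul_neg, mul_sum, neg_inj,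
    ← add_zero (∑ a ∈ Ico 1 p, _), ← mul_zero (π / 2), ← h6, mul_sum, ← sum_add_distrib]
  exact sum_congr rfl fun a _ => by ring

theorem h_half (hs : s * s = -p) (h4 : p % 4 = 3) (h3 : 3 < p) :
    (2 - legendreSym p 2) * classNumber K = ∑ k ∈ range (p / 2), legendreSym p (k + 1) := by
  have h1 := h_neg h2 hs h4 h3
  obtain ⟨n, hn⟩ : ∃ n, p / 2 = n := ⟨_, rfl⟩
  have hp : p = 2 * n + 1 := by omega
  have l1 : ∀ a : ℤ, legendreSym p (p - a) = -legendreSym p a := fun a => by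
    rw [legendreSym.mod, sub_eq_neg_add, Int.add_emod_right, ← legendreSym.mod, ← neg_one_mul,
      legendreSym.mul, legendreSym.at_neg_one (by omega), ZMod.χ₄_nat_three_mod_four h4, neg_one_mul]
  have e1 : ∑ a ∈ range p, a * legendreSym p a = ∑ k ∈ range n,
      (2 * ((k + 1) * legendreSym p (k + 1)) - p * legendreSym p (k + 1)) := by
    rw [congrArg range hp, half_sum, Nat.cast_zero, zero_mul, zero_add]
    refine sum_congr rfl fun k hk => ?_
    have := mem_range.1 hk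
    rw [show ((2 * n - k : ℕ) : ℤ) = p - (k + 1) by omega, l1]
    push_cast; ring
  have e2 : ∑ a ∈ range p, a * legendreSym p a = legendreSym p 2 * ∑ k ∈ range n,
      (4 * ((k + 1) * legendreSym p (k + 1)) - p * legendreSym p (k + 1)) := by
    have sp : ∀ (f : ℕ → ℤ) n, ∑ a ∈ range (2 * n + 1), f a =
        f 0 + (∑ k ∈ range n, f (2 * k + 2) + ∑ k ∈ range n, f (2 * k + 1)) := fun f n => by
      induction n with
      | zero => simp
      | succ n ih => rw [mul_add, mul_one, sum_range_succ, sum_range_succ, ih, sum_range_succ,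
          sum_range_succ]; ring
    rw [congrArg range hp, sp, Nat.cast_zero, zero_mul, zero_add, mul_sum,
      ← sum_range_reflect (fun k => ((2 * k + 1 : ℕ) : ℤ) * _), ← sum_add_distrib]
    refine sum_congr rfl fun k hk => ?_
    have := mem_range.1 hk
    rw [show ((2 * (n - 1 - k) + 1 : ℕ) : ℤ) = p - 2 * (k + 1) by omega, l1,
      show ((2 * k + 2 : ℕ) : ℤ) = 2 * (k + 1) by omega, legendreSym.mul]
    ring
  have h5 := legendreSym.sq_one p (a := 2) fun h => by
    have := Int.le_of_dvd two_pos ((ZMod.intCast_zmod_eq_zero_iff_dvd 2 p).1 h); omega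
  simp only [sum_sub_distrib, ← mul_sum] at e1 e2
  rw [hn]
  refine mul_left_cancel₀ (show (p : ℤ) ≠ 0 by omega) ?_
  linear_combination (2 - legendreSym p 2) * h1 - 2 * e1 + legendreSym p 2 * e2 +
    (4 * ∑ k ∈ range n, (k + 1) * legendreSym p (k + 1) -
      p * ∑ k ∈ range n, legendreSym p (k + 1)) * h5

/-- Class number formula for the real field of discriminant `p`. -/
theorem h_pos (hs : s * s = p) (h4 : p % 4 = 1) (φ : K →+* ℝ) (ε : (𝓞 K)ˣ) (h1 : 1 < φ ε)
    (hε : ∀ η : (𝓞 K)ˣ, 1 < φ η → φ ε ≤ φ η) : 2 * Real.log (φ ε) * classNumber K =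
      -∑ a ∈ Ico 1 p, legendreSym p a * Real.log (2 * Real.sin (π * (a / p))) := by
  obtain ⟨θ, m, b, e1, e2, e3, e4, -, e5⟩ := star h2 (d := p) (by simpa using hs)
    (Or.inl ⟨h4, rfl⟩)
  have hp : (0 : ℝ) < p := Nat.cast_pos.2 (by omega)
  rw [real e1 b e2 e3 h2 (by omega) φ ε h1 hε, e4, if_pos h4] at e5
  have h5 := congrArg Complex.re e5
  have h7 := (Real.sqrt_pos.2 hp).ne'
  simpa only [one_mul, ← ofReal_mul, ofReal_re, neg_re, re_sum, mul_re, intCast_re,
    intCast_im, zero_mul, sub_zero, add_re, ofReal_im, I_re, mul_zero, add_zero,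
    Int.cast_natCast, mul_div_cancel₀ _ h7] using h5

/-- Class number formula for the field of discriminant `-4p`. -/
theorem h_four (hs : s * s = -p) (h4 : p % 4 = 1) : (classNumber K : ℤ) =
    -∑ a ∈ Ico 1 p, legendreSym p a * if p < 4 * a ∧ 4 * a < 3 * p then 1 else 0 := by
  have hp : p.Prime := Fact.out
  have h1 := hp.two_le
  have sq : Squarefree (p : ℤ) := Int.squarefree_natCast.2 hp.squarefree
  obtain ⟨θ, b, e1, e2, e3, -⟩ := basis h2 (d := -p) (by simpa using hs) (t := 0) (m := -p)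
    ((Associated.refl _).neg_right.squarefree_iff.1 sq) (by omega) (Or.inr ⟨rfl, rfl, by omega⟩)
  have hp0 : (0 : ℝ) < p := Nat.cast_pos.2 (by omega)
  have h7 := (Real.sqrt_pos.2 hp0).ne'
  obtain ⟨x, hx⟩ : ∃ x : ℕ → ℕ → ℝ, ∀ a e, x a e =
    a / p + e / 4 - if 4 * p < 4 * a + e * p then 1 else 0 := ⟨_, fun _ _ => rfl⟩
  have x1 : ∀ a e, cexp (2 * π * I * x a e) = I ^ e * cexp (2 * π * I * (a / p : ℝ)) := fun a e => by
    rw [hx, ← Complex.exp_pi_div_two_mul_I, ← Complex.exp_nat_mul, ← Complex.exp_add,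
      Complex.exp_pi_div_two_mul_I]
    split_ifs
    · rw [← Complex.exp_periodic]; congr 1; push_cast; ring
    · congr 1; push_cast; ring
  have x2 : ∀ a ∈ Ico 1 p ×ˢ ({1, 3} : Finset ℕ), 0 < x a.1 a.2 ∧ x a.1 a.2 < 1 := fun a ha => by
    obtain ⟨a, e⟩ := a
    simp only [mem_product, mem_insert, mem_singleton] at ha
    have h5 := frac ha.1
    have h6 : (a / p + e / 4 : ℝ) = (4 * a + e * p : ℕ) / (4 * p : ℕ) := by push_cast; field_simp
    have h8 : (0 : ℝ) < (4 * p : ℕ) := by positivity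
    rw [hx]
    split_ifs with h
    · refine ⟨sub_pos.2 (h6 ▸ (one_lt_div h8).2 (Nat.cast_lt.2 h)), ?_⟩
      rcases ha.2 with rfl | rfl <;> push_cast <;> linarith
    · refine ⟨by rw [sub_zero]; exact add_pos_of_pos_of_nonneg h5.1 (by positivity), ?_⟩
      rw [sub_zero, h6, div_lt_one h8, Nat.cast_lt]
      rcases ha.2 with rfl | rfl <;> omega
  have e5 := residue K (fun n => ZMod.χ₄ n * legendreSym p n) (count e1 b e2 e3 _ (by simp)
    (fun a b => by rw [Nat.cast_mul, Nat.cast_mul, map_mul, legendreSym.mul]; ring)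
    fun q hq => ?_) (Ico 1 p ×ˢ ({1, 3} : Finset ℕ))
    (fun a => legendreSym p a.1 * (2 - a.2)) (fun a => cexp (2 * π * I * x a.1 a.2))
    (c := 2 * I * √p) (by simpa using hp.ne_zero) (fun a ha => unit_ne (x2 a ha).1 (x2 a ha).2)
    fun n _ => by
      have h5 := gsum' (p := p) (by omega) n
      rw [if_pos h4, one_mul] at h5
      have h6 : 2 * I * (ZMod.χ₄ n : ℂ) = I ^ n - (I ^ 3) ^ n := by
        rw [ZMod.χ₄_nat_eq_if_mod_four, ← Nat.div_add_mod n 4, pow_add, pow_add, pow_mul, pow_mul,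
          pow_right_comm I 3 4, I_pow_four, Nat.mul_add_mod, Nat.mod_mod]
        have : n % 4 < 4 := Nat.mod_lt _ four_pos
        obtain ⟨r, hr⟩ : ∃ r, n % 4 = r := ⟨_, rfl⟩
        rw [hr] at this ⊢
        interval_cases r <;> split_ifs <;> first | omega | (simp [pow_succ]; try ring)
      push_cast [-ofReal_div]
      rw [mul_mul_mul_comm, h6, h5, mul_sum, sum_product]
      refine sum_congr rfl fun a _ => ?_
      rw [sum_pair (by norm_num), x1, x1]
      push_cast [-ofReal_div]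
      ring
  · rw [sum_congr rfl fun a ha => by rw [log_one_sub (x2 a ha).1 (x2 a ha).2],
      imag e1 b e2 e3 h2 (by omega), sum_product] at e5
    have h5 := congrArg Complex.im e5
    have h6 := congrArg (Int.cast : ℤ → ℝ) (leg_sum (p := p) (by omega))
    have h8 : √(-((0 * 0 + 4 * -p : ℤ) : ℝ)) = 2 * √p := by
      rw [show -((0 * 0 + 4 * -p : ℤ) : ℝ) = 2 ^ 2 * p by push_cast; ring,
        Real.sqrt_mul (by norm_num), Real.sqrt_sq zero_le_two]
    rw [h8] at h5
    simp only [mul_im, mul_re, re_ofNat, im_ofNat, I_re, I_im, ofReal_re, ofReal_im, neg_im,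
      im_sum, intCast_re, intCast_im, sub_re, sub_im, natCast_re, natCast_im, add_re, add_im,
      mul_zero, zero_mul, add_zero, zero_add, sub_zero, mul_one, sum_pair (show 1 ≠ 3 by simp)] at h5
    apply Int.cast_injective (α := ℝ)
    push_cast at h6 ⊢
    refine mul_left_cancel₀ pi_pos.ne' ?_
    rw [show π * classNumber K = 2 * √p * (π * classNumber K / (2 * √p)) by field_simp, h5, mul_neg,
      neg_inj, mul_sum, ← sub_eq_zero, ← sum_sub_distrib]
    refine Eq.trans ?_ ((congrArg (-π / 2 * ·) h6).trans (mul_zero _))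
    rw [mul_sum]
    refine sum_congr rfl fun a ha => ?_
    have := mem_Ico.1 ha
    rw [hx, hx]
    split_ifs <;> first | omega | (push_cast; ring)
  by_cases h : q = 2
  · subst h
    exact Or.inr (Or.inl ⟨by simp, 1, by omega, by omega⟩)
  have := Fact.mk hq
  refine tri h 0 (-p) ?_
  have ho := hq.odd_of_ne_two h
  rw [show (0 * 0 + 4 * -p : ℤ) = 2 ^ 2 * -p by ring, legendreSym.mul, legendreSym.sq_one' q (by
      intro h5
      have := Int.le_of_dvd two_pos ((ZMod.intCast_zmod_eq_zero_iff_dvd 2 q).1 h5)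
      have := hq.two_le
      omega), one_mul,
    jacobiSym.legendreSym.to_jacobiSym, jacobiSym.legendreSym.to_jacobiSym, jacobiSym.neg _ ho,
    jacobiSym.quadratic_reciprocity_one_mod_four h4 ho]

end Pool.Agent.Lib.helper20.Quad
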