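import Mathlib

set_option autoImplicit false
open Finset Filter Topology

namespace Pool.Agent.Lib.helper20.Quad

lemma gbound (n : ℕ) {s : ℝ} (hs : s ∈ Set.Icc (1 : ℝ) 2) :
    |((n + 1 : ℕ) : ℝ) ^ (-s) - ((n + 2 : ℕ) : ℝ) ^ (-s)| ≤ 2 * (1 / ((n + 1 : ℕ) : ℝ) ^ 2) := by
  push_cast
  obtain ⟨x, hx, h1⟩ : ∃ x : ℝ, x = n + 1 ∧ 1 ≤ x := ⟨_, rfl, by simp⟩
  rw [← hx, show (n : ℝ) + 2 = x * (1 + 1 / x) by field_simp; linarith,
    Real.mul_rpow (by positivity) (by positivity), ← mul_one_sub]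
  have h0 : 1 ≤ 1 + 1 / x := le_add_of_nonneg_right (by positivity)
  have h2 : (1 + 1 / x) ^ (-s) ≤ 1 := Real.rpow_le_one_of_one_le_of_nonpos h0 (by linarith [hs.1])
  have h3 : (1 + 1 / x) ^ (-2 : ℝ) ≤ (1 + 1 / x) ^ (-s) :=
    Real.rpow_le_rpow_of_exponent_le h0 (by linarith [hs.2])
  have h4 : x ^ (-s) ≤ x ^ (-1 : ℝ) := Real.rpow_le_rpow_of_exponent_le h1 (by linarith [hs.1])
  have h5 : 1 - 2 / x ≤ (1 + 1 / x) ^ (-2 : ℝ) := by
    rw [Real.rpow_neg (by positivity), Real.rpow_two, ← one_div, le_div_iff₀ (by positivity)]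
    obtain ⟨y, hy, h6⟩ : ∃ y : ℝ, y = 1 / x ∧ 0 < y := ⟨_, rfl, by positivity⟩
    rw [div_eq_mul_one_div 2, ← hy]
    nlinarith [mul_pos h6 h6, mul_pos h6 (mul_pos h6 h6)]
  rw [abs_of_nonneg (mul_nonneg (by positivity) (by linarith)), Real.rpow_neg_one] at *
  calc _ ≤ x⁻¹ * (2 / x) := mul_le_mul h4 (by linarith) (by linarith) (by positivity)
    _ = _ := by field_simp

lemma li {z : ℂ} (hz : ‖z‖ = 1) (h1 : z ≠ 1) :
    Tendsto (fun s : ℝ => LSeries (fun n => z ^ n) s) (𝓝[>] 1) (𝓝 (-Complex.log (1 - z))) := by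
  obtain ⟨F, hF⟩ : ∃ F : ℝ × ℝ → ℂ, F = fun a => ∑' n : ℕ, (a.1 * z) ^ (n + 2) *
    ((((n + 1 : ℕ) : ℝ) ^ (-a.2) - ((n + 2 : ℕ) : ℝ) ^ (-a.2) : ℝ) : ℂ) := ⟨_, rfl⟩
  have hs : Summable fun n : ℕ => 2 * (1 / ((n + 1 : ℕ) : ℝ) ^ 2) :=
    ((summable_nat_add_iff 1).2 (Real.summable_one_div_nat_pow.2 one_lt_two)).mul_left 2
  have hc : ContinuousOn F (Set.Icc 0 1 ×ˢ Set.Icc 1 2) := by
    rw [hF]
    refine continuousOn_tsum (fun n => Continuous.continuousOn ?_) hs fun n a ha => ?_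
    · refine Continuous.mul (by fun_prop) (Complex.continuous_ofReal.comp (Continuous.sub ?_ ?_)) <;>
        exact Continuous.rpow continuous_const (by fun_prop) fun _ => Or.inl (by positivity)
    · rw [norm_mul, norm_pow, norm_mul, hz, mul_one, Complex.norm_real, Complex.norm_real,
        Real.norm_eq_abs, Real.norm_eq_abs, abs_of_nonneg ha.1.1]
      exact (mul_le_of_le_one_left (abs_nonneg _) (pow_le_one₀ ha.1.1 ha.1.2)).trans (gbound n ha.2)
  have key : ∀ (r s : ℝ) (L : ℂ), HasSum (fun n : ℕ => (r * z) ^ (n + 1) *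
      ((((n + 1 : ℕ) : ℝ) ^ (-s) : ℝ) : ℂ)) L → (1 - r * z) * L = r * z - F (r, s) := by
    intro r s L hL
    have h2 := (hasSum_nat_add_iff' 1).2 hL
    have h3 := ((hL.mul_left (r * z)).sub h2).tsum_eq
    simp only [sum_range_one, zero_add, pow_one, Nat.cast_one, Real.one_rpow, Complex.ofReal_one,
      mul_one] at h3
    have h4 : F (r, s) = r * z * L - (L - r * z) := by
      rw [hF, ← h3]
      exact tsum_congr fun n => by push_cast; ring
    rw [h4]; ring
  have h0 : 1 - z ≠ 0 := sub_ne_zero.2 h1.symm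
  have h2 : (1 - z) * -Complex.log (1 - z) = z - F (1, 1) := by
    have hl : 1 - z ∈ Complex.slitPlane := by
      refine Or.inl (sub_pos.2 (((Complex.re_le_norm z).trans_eq hz).lt_of_ne fun h => h1 ?_))
      have := Complex.sq_norm_sub_sq_re z
      rw [hz, h] at this
      exact Complex.ext h (by simpa using this.symm)
    have c1 : ContinuousAt (fun r : ℝ => (1 - r * z) * -Complex.log (1 - r * z) - r * z) 1 :=
      (ContinuousAt.mul (by fun_prop) (ContinuousAt.clog (by fun_prop) (by simpa using hl)).neg).sub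
        (by fun_prop)
    have c2 : Tendsto (fun r : ℝ => -F (r, 1)) (𝓝[<] 1) (𝓝 (-F (1, 1))) := by
      refine ((hc (1, 1) (by simp)).tendsto.comp (tendsto_nhdsWithin_iff.2 ⟨?_, ?_⟩)).neg
      · exact (Continuous.tendsto (by fun_prop) _).mono_left nhdsWithin_le_nhds
      · filter_upwards [Ioo_mem_nhdsLT zero_lt_one] with r hr
        simp [hr.1.le, hr.2.le]
    have := tendsto_nhds_unique_of_eventuallyEq (c1.tendsto.mono_left nhdsWithin_le_nhds) c2 (by
      filter_upwards [Ioo_mem_nhdsLT zero_lt_one] with r hr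
      have h3 := Complex.hasSum_taylorSeries_neg_log' (z := r * z) (by
        simp [hz, abs_of_pos hr.1, hr.2])
      rw [key r 1 _ (by simpa [Real.rpow_neg_one, div_eq_mul_inv] using h3)]
      ring)
    simp only [Complex.ofReal_one, one_mul] at this
    linear_combination this
  have c2 : Tendsto (fun s : ℝ => (z - F (1, s)) / (1 - z)) (𝓝[>] 1)
      (𝓝 ((z - F (1, 1)) / (1 - z))) := by
    refine (tendsto_const_nhds.sub ((hc (1, 1) (by simp)).tendsto.comp
      (tendsto_nhdsWithin_iff.2 ⟨?_, ?_⟩))).div_const _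
    · exact (Continuous.tendsto (by fun_prop) _).mono_left nhdsWithin_le_nhds
    · filter_upwards [Ioo_mem_nhdsGT one_lt_two] with r hr
      simp [hr.1.le, hr.2.le]
  rw [← h2, mul_div_cancel_left₀ _ h0] at c2
  refine c2.congr' ?_
  filter_upwards [self_mem_nhdsWithin] with s hs
  have h3 : LSeriesSummable (fun n => z ^ n) s :=
    LSeriesSummable_of_bounded_of_one_lt_real (m := 1) (fun n _ => by simp [hz]) hs
  have h4 := key 1 s (LSeries (fun n => z ^ n) s) (by
    have := (hasSum_nat_add_iff' 1).2 h3.hasSum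
    simp only [sum_range_one, LSeries.term_zero, sub_zero] at this
    refine this.congr_fun fun n => ?_
    rw [LSeries.term_of_ne_zero n.succ_ne_zero, Complex.ofReal_cpow (by positivity),
      Complex.ofReal_neg, Complex.cpow_neg]
    simp [div_eq_mul_inv])
  rw [div_eq_iff h0]
  simp only [Complex.ofReal_one, one_mul] at h4
  linear_combination -h4

open NumberField in
theorem residue (K : Type*) [Field K] [NumberField K] (χ : ℕ → ℤ)
    (hχ : ∀ N, N ≠ 0 → (Nat.card {I : Ideal (𝓞 K) // Ideal.absNorm I = N} : ℤ) =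
      ∑ d ∈ N.divisors, χ d) {ι : Type*} (S : Finset ι) (α z : ι → ℂ) {c : ℂ} (hc : c ≠ 0)
    (hz : ∀ i ∈ S, ‖z i‖ = 1 ∧ z i ≠ 1) (h : ∀ n, n ≠ 0 → c * χ n = ∑ i ∈ S, α i * z i ^ n) :
    c * dedekindZeta_residue K = -∑ i ∈ S, α i * Complex.log (1 - z i) := by
  have h1 := (tendsto_sub_one_mul_dedekindZeta_nhdsGT K).const_mul c
  have h2 : Tendsto (fun s : ℝ => ((s : ℂ) - 1) * riemannZeta s) (𝓝[>] 1) (𝓝 1) :=
    riemannZeta_residue_one.comp (tendsto_nhdsWithin_iff.2
      ⟨(Complex.continuous_ofReal.tendsto 1).mono_left nhdsWithin_le_nhds, by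
        filter_upwards [self_mem_nhdsWithin] with s hs h
        exact (show (1 : ℝ) < s from hs).ne' (Complex.ofReal_injective h)⟩)
  have h3 := h2.mul (tendsto_finsetSum S fun i hi => (li (hz i hi).1 (hz i hi).2).const_mul (α i))
  rw [one_mul] at h3
  refine (tendsto_nhds_unique_of_eventuallyEq h1 h3 ?_).trans (by simp)
  filter_upwards [self_mem_nhdsWithin] with s hs
  have h4 : ∀ i ∈ S, LSeriesSummable (α i • fun n => z i ^ n) s := fun i hi =>
    (LSeriesSummable_of_bounded_of_one_lt_real (m := 1) (fun n _ => by simp [(hz i hi).1]) hs).smul _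
  have h5 : ∀ {n}, n ≠ 0 → (c • fun n => (χ n : ℂ)) n = (∑ i ∈ S, α i • fun n => z i ^ n) n :=
    fun hn => by simpa using h _ hn
  have h6 := (LSeriesSummable.of_smul hc ((LSeriesSummable_congr _ h5).2 (.sum h4)))
  have h7 : dedekindZeta K s = riemannZeta s * LSeries (fun n => (χ n : ℂ)) s := by
    rw [← LSeries_one_eq_riemannZeta (by simpa using hs), ← LSeries_convolution'
      (LSeriesSummable_one_iff.2 (by simpa using hs)) h6, LSeries.convolution_def]
    refine LSeries_congr (fun {n} hn => ?_) _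
    rw [Nat.sum_divisorsAntidiagonal' fun a b => (1 : ℕ → ℂ) a * (χ b : ℂ)]
    simpa using congrArg (Int.cast : ℤ → ℂ) (hχ n hn)
  simp only [← LSeries_smul]
  rw [h7, ← LSeries_sum h4, ← LSeries_congr h5, LSeries_smul]
  ring

end Pool.Agent.Lib.helper20.Quad
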