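import Pool.Agent.Lib.helper20.QIdeal
import Pool.Agent.Lib.helper20.QLim

set_option autoImplicit false
set_option linter.unusedSectionVars false
open Finset NumberField Polynomial NumberField.InfinitePlace NumberField.Units

namespace Pool.Agent.Lib.helper20.Quad

lemma rat_int {q : ℚ} {d w : ℤ} (hd : Squarefree d) (h : d * q ^ 2 = w) : ∃ z : ℤ, q = z := by
  have h4 : (q.den : ℤ) * q.den ∣ d * q.num ^ 2 := ⟨w, by
    have := q.num_div_den
    have h5 : (q.den : ℚ) ≠ 0 := by simp
    rw [div_eq_iff h5] at this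
    apply Int.cast_injective (α := ℚ)
    push_cast
    rw [← h, this]; ring⟩
  have h5 : IsCoprime (q.den : ℤ) q.num := by
    rw [Int.isCoprime_iff_gcd_eq_one, Int.gcd_comm]; exact q.reduced
  have h6 := hd _ ((h5.mul_left h5).pow_right.dvd_of_dvd_mul_right h4)
  exact ⟨q.num, (Rat.coe_int_num_of_den_eq_one (by simpa using Int.isUnit_iff_natAbs_eq.1 h6)).symm⟩

variable {K : Type*} [Field K] [NumberField K]

lemma basis (h2 : Module.finrank ℚ K = 2) {s : K} {d t m : ℤ} (hs : s * s = d) (hd : Squarefree d)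
    (hd1 : d ≠ 1) (ht : (t = 1 ∧ d = 4 * m + 1) ∨ (t = 0 ∧ m = d ∧ d % 4 = 3)) :
    ∃ (θ : 𝓞 K) (b : Module.Basis (Fin 2) ℤ (𝓞 K)), θ * θ = t * θ + m ∧ b 0 = 1 ∧ b 1 = θ ∧
      2 * (θ : K) = t + (2 - t) * s := by
  have li : ∀ u v : ℚ, (u : K) + v * s = 0 → u = 0 ∧ v = 0 := fun u v h => by
    by_cases hv : v = 0
    · simpa [hv] using h
    · have h1 : s = (-u / v : ℚ) := by
        have : (v : K) ≠ 0 := by simpa using hv
        push_cast; field_simp; linear_combination h
      obtain ⟨k, hk⟩ := (Rat.isSquare_intCast_iff (z := d)).1 ⟨-u / v, Rat.cast_injective (α := K) (by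
        rw [Rat.cast_mul, ← h1, hs]; simp)⟩
      rcases Int.isUnit_iff.1 (hd k (dvd_of_eq hk.symm)) with rfl | rfl <;> simp_all
  obtain ⟨c, c0, c1⟩ : ∃ c : Module.Basis (Fin 2) ℚ K, c 0 = 1 ∧ c 1 = s :=
    ⟨basisOfLinearIndependentOfCardEqFinrank (b := ![1, s]) (LinearIndependent.pair_iff.2
      fun u v h => li u v (by simpa [Algebra.smul_def] using h)) (by simp [h2]), by simp, by simp⟩
  have de : ∀ x : K, ∃ u v : ℚ, x = u + v * s := fun x => ⟨c.repr x 0, c.repr x 1, by
    conv_lhs => rw [← c.sum_repr x]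
    simp [c0, c1, Algebra.smul_def]⟩
  obtain ⟨f, hf⟩ : ∃ f : K →ₗ[ℚ] K, ∀ u v : ℚ, f (u + v * s) = u - v * s :=
    ⟨c.constr ℚ ![1, -s], fun u v => by
      have : (u : K) + v * s = u • c 0 + v • c 1 := by simp [c0, c1, Algebra.smul_def]
      rw [this, map_add, map_smul, map_smul, c.constr_basis, c.constr_basis]
      simp [Algebra.smul_def, sub_eq_add_neg]⟩
  let σ : K →ₐ[ℚ] K := AlgHom.ofLinearMap f (by simpa using hf 1 0) fun x y => by
    obtain ⟨u, v, rfl⟩ := de x
    obtain ⟨u', v', rfl⟩ := de y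
    rw [show (u + v * s : K) * (u' + v' * s) = (u * u' + v * v' * d : ℚ) +
      (u * v' + v * u' : ℚ) * s by push_cast; linear_combination v * v' * hs, hf, hf, hf]
    push_cast
    linear_combination (-v * v' : K) * hs
  have ri : ∀ q : ℚ, IsIntegral ℤ (q : K) → ∃ z : ℤ, (z : ℚ) = q := fun q h =>
    IsIntegrallyClosed.isIntegral_iff.1 ((isIntegral_algebraMap_iff (algebraMap ℚ K).injective).1 h)
  obtain ⟨θ, h1⟩ : ∃ θ : K, 2 * θ = t + (2 - t) * s := ⟨(t + (2 - t) * s) / 2, by ring⟩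
  have h3 : θ * θ = t * θ + m := by
    rcases ht with ⟨rfl, rfl⟩ | ⟨rfl, rfl, -⟩ <;> push_cast at * <;> grind
  have h4 : IsIntegral ℤ θ := ⟨X ^ 2 - C t * X - C m, by monicity!, by
    rw [eval₂_sub, eval₂_sub, eval₂_mul, eval₂_X_pow, eval₂_C, eval₂_C, eval₂_X, eq_intCast,
      eq_intCast]
    linear_combination h3⟩
  refine ⟨⟨θ, h4⟩, Module.Basis.mk (v := ![1, ⟨θ, h4⟩]) (LinearIndependent.pair_iff.2
    fun u v h => ?_) fun x _ => ?_, RingOfIntegers.ext (by simpa using h3), by simp, by simp, h1⟩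
  · have h5 := congrArg (algebraMap (𝓞 K) K) h
    simp only [zsmul_eq_mul, map_add, map_mul, map_intCast, mul_one, RingOfIntegers.map_mk,
      map_zero] at h5
    obtain ⟨h6, h7⟩ := li (2 * u + v * t) (v * (2 - t)) (by
      push_cast; linear_combination 2 * h5 - v * h1)
    have h8 : v = 0 := by
      rcases ht with ⟨rfl, -⟩ | ⟨rfl, -⟩ <;> norm_num at h7 <;> exact h7
    simpa [h8] using h6
  · obtain ⟨u, v, hx⟩ := de x
    have i1 : IsIntegral ℤ (u + v * s : K) := hx ▸ x.isIntegral_coe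
    have i2 : IsIntegral ℤ (u - v * s : K) := hf u v ▸ i1.map (σ.restrictScalars ℤ)
    obtain ⟨A, hA⟩ := ri (2 * u) ((show (u + v * s : K) + (u - v * s) = (2 * u : ℚ) by
      push_cast; ring) ▸ i1.add i2)
    obtain ⟨n, hn⟩ := ri (u * u - d * v * v) ((show (u + v * s : K) * (u - v * s) =
      (u * u - d * v * v : ℚ) by push_cast; linear_combination -v * v * hs) ▸ i1.mul i2)
    obtain ⟨B, hB⟩ := rat_int (q := 2 * v) (w := A * A - 4 * n) hd (by
      push_cast; rw [hA, hn]; ring)
    have h5 : A * A - d * B * B = 4 * n := by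
      apply Int.cast_injective (α := ℚ)
      push_cast; rw [hA, hn, ← hB]; ring
    have h6 : ∃ a e : ℤ, B = (2 - t) * e ∧ A = 2 * a + t * e := by
      obtain ⟨a, rfl | rfl⟩ := Int.even_or_odd' A <;> obtain ⟨e, rfl | rfl⟩ := Int.even_or_odd' B <;>
        rcases ht with ⟨rfl, rfl⟩ | ⟨rfl, rfl, h⟩
      exacts [⟨a - e, 2 * e, by ring, by ring⟩, ⟨a, e, by ring, by ring⟩,
        by ring_nf at h5; omega, by ring_nf at h5; omega, by ring_nf at h5; omega,
        by ring_nf at h5; omega, ⟨a - e, 2 * e + 1, by ring, by ring⟩, by ring_nf at h5; omega]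
    obtain ⟨a, e, rfl, rfl⟩ := h6
    rw [Matrix.range_cons_cons_empty, Submodule.mem_span_pair]
    refine ⟨a, e, RingOfIntegers.ext ?_⟩
    have h7 := congrArg (Rat.cast : ℚ → K) hA
    have h8 := congrArg (Rat.cast : ℚ → K) hB
    push_cast at h7 h8
    simp only [zsmul_eq_mul, map_add, map_mul, map_intCast, mul_one, RingOfIntegers.map_mk, hx]
    linear_combination h7 / 2 - s / 2 * h8 + e / 2 * h1

variable {θ : 𝓞 K} {t m : ℤ} (hθ : θ * θ = t * θ + m) (b : Module.Basis (Fin 2) ℤ (𝓞 K))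
  (b0 : b 0 = 1) (b1 : b 1 = θ) (h2 : Module.finrank ℚ K = 2)
include hθ b0 b1

lemma disc : discr K = t * t + 4 * m := by
  have t0 : Algebra.trace ℤ (𝓞 K) 1 = 2 := by
    simp [Algebra.trace_eq_matrix_trace b]
  have t1 : Algebra.trace ℤ (𝓞 K) θ = t := by
    have e : θ * b 1 = m • b 0 + t • b 1 := by rw [b0, b1, hθ]; simp [add_comm]
    have e' : θ * b 0 = b 1 := by rw [b0, b1, mul_one]
    simp [Algebra.trace_eq_matrix_trace b, Matrix.trace, Algebra.leftMulMatrix_eq_repr_mul, e, e',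
      -zsmul_eq_mul]
  have t2 : Algebra.trace ℤ (𝓞 K) (θ * θ) = t * t + 2 * m := by
    rw [hθ, ← zsmul_eq_mul, ← zsmul_one m, map_add, map_zsmul, map_zsmul, t0, t1]
    simp [mul_comm]
  rw [← discr_eq_discr K b, Algebra.discr_def, Matrix.det_fin_two]
  simp only [Algebra.traceMatrix_apply, Algebra.traceForm_apply, b0, b1, mul_one, one_mul, t0, t1,
    t2]
  ring

omit hθ b0 b1 in
lemma tors (h : ∀ x : 𝓞 K, (∀ φ : K →+* ℂ, ‖φ x‖ = 1) → x = 1 ∨ x = -1) : torsionOrder K = 2 := by
  refine Nat.card_eq_two_iff.2 ⟨1, ⟨-1, (mem_torsion K).2 fun w => by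
    simp [← norm_embedding_eq]⟩, fun h => ?_, ?_⟩
  · have := congrArg (fun x : torsion K => ((x : (𝓞 K)ˣ) : 𝓞 K)) h
    simp only [OneMemClass.coe_one, Units.val_one, Units.val_neg] at this
    exact two_ne_zero (α := 𝓞 K) (by linear_combination this)
  · refine Set.eq_univ_of_forall fun ⟨x, hx⟩ => ?_
    exact (h x ((eq_iff_eq _ _).1 ((mem_torsion K).1 hx))).imp (fun h => Subtype.ext (Units.ext h))
      fun h => Subtype.ext (Units.ext h)

include h2

theorem imag (hD : t * t + 4 * m < -4) :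
    dedekindZeta_residue K = Real.pi * classNumber K / √(-(t * t + 4 * m : ℤ)) := by
  classical
  have hK := congrArg (algebraMap (𝓞 K) K) hθ
  simp only [map_add, map_mul, map_intCast] at hK
  have hD' : (t * t + 4 * m : ℝ) < -4 := by exact_mod_cast hD
  have r0 : nrRealPlaces K = 0 := Fintype.card_eq_zero_iff.2 ⟨fun ⟨w, hw⟩ => by
    have := congrArg (embedding_of_isReal hw) hK
    simp only [map_add, map_mul, map_intCast] at this
    nlinarith [sq_nonneg (2 * embedding_of_isReal hw (algebraMap (𝓞 K) K θ) - t)]⟩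
  have r1 : nrComplexPlaces K = 1 := by have := card_add_two_mul_card_eq_rank K; omega
  have r2 : rank K = 0 := by rw [rank, card_eq_nrRealPlaces_add_nrComplexPlaces, r0, r1]
  have r3 : regulator K = 1 := by
    have : IsEmpty {w : InfinitePlace K // w ≠ dirichletUnitTheorem.w₀} :=
      (equivFinRank K).symm.isEmpty_congr.2 (by rw [r2]; infer_instance)
    classical
    rw [regulator_eq_det', Matrix.det_isEmpty, abs_one]
  have r4 : torsionOrder K = 2 := tors fun x h => by
    obtain ⟨φ⟩ : Nonempty (K →+* ℂ) := inferInstance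
    have h1 := h φ
    have h3 := congrArg φ hK
    rw [dec b b0 b1 x] at h1 ⊢
    generalize b.repr x 0 = u, b.repr x 1 = v at *
    simp only [map_add, map_mul, map_intCast] at h1 h3
    generalize φ (algebraMap (𝓞 K) K θ) = y at *
    have h4 := congrArg Complex.re h3
    have h5 := congrArg Complex.im h3
    rw [← sq_eq_sq₀ (norm_nonneg _) zero_le_one, Complex.sq_norm, Complex.normSq_apply] at h1
    simp at h1 h4 h5
    have h6 : y.im ≠ 0 := fun h => by rw [h] at h4; nlinarith [sq_nonneg (2 * y.re - t)]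
    have h7 : y.re = t / 2 := mul_right_cancel₀ h6 (by linarith)
    rw [h7] at h1 h4
    have h8 : (2 * u + t * v) ^ 2 - (t * t + 4 * m) * v ^ 2 = 4 := by
      apply Int.cast_injective (α := ℝ)
      push_cast
      linear_combination 4 * h1 + 4 * v ^ 2 * h4
    have h9 : v = 0 := by
      by_contra h9
      nlinarith [sq_nonneg (2 * u + t * v), sq_pos_of_ne_zero h9]
    subst h9
    have : u * u = 1 := by linarith
    rcases mul_self_eq_one_iff.1 this with rfl | rfl <;> simp
  rw [dedekindZeta_residue_def, r0, r1, r3, r4, disc hθ b b0 b1, abs_of_neg (by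
    push_cast; linarith)]
  push_cast
  field_simp

theorem real (hD : 0 < t * t + 4 * m) (φ : K →+* ℝ) (ε : (𝓞 K)ˣ) (h1 : 1 < φ ε)
    (hε : ∀ η : (𝓞 K)ˣ, 1 < φ η → φ ε ≤ φ η) :
    dedekindZeta_residue K = 2 * Real.log (φ ε) * classNumber K / √(t * t + 4 * m : ℤ) := by
  classical
  have hK := congrArg (algebraMap (𝓞 K) K) hθ
  simp only [map_add, map_mul, map_intCast] at hK
  have hD' : (0 : ℝ) < t * t + 4 * m := by exact_mod_cast hD
  have re : ∀ ψ : K →+* ℂ, ComplexEmbedding.IsReal ψ := fun ψ => by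
    have h3 := congrArg ψ hK
    simp only [map_add, map_mul, map_intCast] at h3
    have h4 := congrArg Complex.re h3
    have h5 := congrArg Complex.im h3
    simp at h4 h5
    have h6 : (ψ (algebraMap (𝓞 K) K θ)).im = 0 := by
      by_contra h6
      have h7 : (ψ (algebraMap (𝓞 K) K θ)).re = t / 2 := mul_right_cancel₀ h6 (by linarith)
      rw [h7] at h4
      nlinarith [mul_self_nonneg (ψ (algebraMap (𝓞 K) K θ)).im]
    refine ComplexEmbedding.isReal_iff.2 (IsLocalization.ringHom_ext (nonZeroDivisors (𝓞 K)) ?_)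
    ext x
    rw [dec b b0 b1 x]
    simp [Complex.conj_eq_iff_im.2 h6]
  have r1 : nrComplexPlaces K = 0 := Fintype.card_eq_zero_iff.2 ⟨fun ⟨w, hw⟩ =>
    isComplex_iff.1 hw (re _)⟩
  have r0 : nrRealPlaces K = 2 := by have := card_add_two_mul_card_eq_rank K; omega
  have r5 : Fintype.card (InfinitePlace K) = 2 := by
    rw [card_eq_nrRealPlaces_add_nrComplexPlaces, r0, r1]
  have r2 : rank K = 1 := by rw [rank, r5]
  obtain ⟨w, hw⟩ : ∃ w : InfinitePlace K, ∀ x, w x = |φ x| :=
    ⟨mk (Complex.ofRealHom.comp φ), fun x => by simp [apply]⟩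
  have r6 : ∀ x : 𝓞 K, |φ x| = 1 → x = 1 ∨ x = -1 := fun x h =>
    ((abs_eq zero_le_one).1 h).imp (fun h => RingOfIntegers.ext (φ.injective (by simpa using h)))
      fun h => RingOfIntegers.ext (φ.injective (by simpa using h))
  have r4 : torsionOrder K = 2 := tors fun x h => r6 x (by
    simpa using h (Complex.ofRealHom.comp φ))
  obtain ⟨w', hw'⟩ := Fintype.exists_ne_of_one_lt_card (by omega) w
  have u1 : Unique (Fin (rank K)) := by rw [r2]; infer_instance
  have u2 : Unique {v // v ≠ w'} := ((Fintype.card_eq_one_iff_nonempty_unique).1 (by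
    simp [Fintype.card_subtype_compl, r5])).some
  have r3 : regulator K = abs (Real.log |φ (fundSystem K default : (𝓞 K)ˣ)|) := by
    rw [regulator_eq_det K w' (Equiv.ofUnique _ _), Matrix.det_unique, Matrix.of_apply,
      ← Unique.eq_default (⟨w, hw'.symm⟩ : {v // v ≠ w'}), hw,
      (isReal_iff.2 (re _)).mult_eq_one]
    simp
  obtain ⟨η, hη⟩ : ∃ η, η = fundSystem K default := ⟨_, rfl⟩
  obtain ⟨⟨ζ, k⟩, h3, -⟩ := exist_unique_eq_mul_prod K ε
  have hp := regulator_pos K
  simp only [Fintype.prod_unique, ← hη] at h3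
  rw [← hη] at r3
  have h4 : Real.log (φ ε) = k default * Real.log |φ η| := by
    rw [← Real.log_abs, h3, NumberField.Units.coe_mul, map_mul, abs_mul, ← hw, (mem_torsion K).1 ζ.2, one_mul,
      NumberField.Units.coe_zpow,
      map_zpow₀, abs_zpow, Real.log_zpow]
  have h5 : Real.log (φ ε) ≤ regulator K := by
    have key : ∀ η : (𝓞 K)ˣ, 0 < Real.log |φ η| → Real.log (φ ε) ≤ Real.log |φ η| := fun η h => by
      have h6 := (Real.log_pos_iff (abs_nonneg _)).1 h
      refine Real.log_le_log (by linarith) ?_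
      rcases le_total 0 (φ η) with h7 | h7
      · rw [abs_of_nonneg h7] at h6 ⊢; exact hε _ h6
      · rw [abs_of_nonpos h7] at h6 ⊢; simpa using hε (-η) (by simpa using h6)
    rw [r3] at hp ⊢
    rcases le_total 0 (Real.log |φ η|) with h7 | h7
    · rw [abs_of_nonneg h7] at hp ⊢; exact key _ hp
    · rw [abs_of_nonpos h7] at hp ⊢
      have e : Real.log |φ (η⁻¹ : (𝓞 K)ˣ)| = -Real.log |φ η| := by
        rw [← zpow_neg_one, NumberField.Units.coe_zpow, map_zpow₀, abs_zpow, Real.log_zpow]; simp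
      exact e ▸ key _ (e ▸ hp)
  have h6 : regulator K ≤ Real.log (φ ε) := by
    have h7 := Real.log_pos h1
    rw [← abs_of_pos h7, h4, abs_mul, ← r3]
    refine le_mul_of_one_le_left hp.le ?_
    rw [← Int.cast_abs]
    exact_mod_cast Int.one_le_abs fun h => by simp [h4, h] at h7
  rw [dedekindZeta_residue_def, r0, r1, le_antisymm h6 h5, r4, disc hθ b b0 b1, abs_of_pos (by
    push_cast; linarith)]
  push_cast
  field_simp

end Pool.Agent.Lib.helper20.Quad
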