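import Mathlib

set_option autoImplicit false
set_option linter.unusedSectionVars false
open Finset Ideal

namespace Pool.Agent.Lib.helper20.Quad

lemma div_rec (χ : ℕ → ℤ) (hχ : ∀ a b, χ (a * b) = χ a * χ b) {q : ℕ} (hq : q.Prime) {N : ℕ}
    (hN : N ≠ 0) : ∑ d ∈ (q * N).divisors, χ d = (1 + χ q) * ∑ d ∈ N.divisors, χ d -
      χ q * if q ∣ N then ∑ d ∈ (N / q).divisors, χ d else 0 := by
  have h1 : ∀ N, N ≠ 0 → ∑ d ∈ (q * N).divisors with q ∣ d, χ d = χ q * ∑ d ∈ N.divisors, χ d :=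
    fun N hN => by
      rw [mul_sum]
      symm
      refine sum_bij (fun d _ => q * d) (fun d hd => ?_) (fun a _ b _ h => ?_) (fun d hd => ?_)
        fun d _ => (hχ _ _).symm
      · simpa [hq.ne_zero, hN] using mul_dvd_mul_left q (Nat.dvd_of_mem_divisors hd)
      · exact Nat.eq_of_mul_eq_mul_left hq.pos h
      · obtain ⟨h2, e, rfl⟩ := mem_filter.1 hd
        exact ⟨e, Nat.mem_divisors.2 ⟨Nat.dvd_of_mul_dvd_mul_left hq.pos
          (Nat.dvd_of_mem_divisors h2), hN⟩, rfl⟩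
  have h2 : {d ∈ (q * N).divisors | ¬q ∣ d} = {d ∈ N.divisors | ¬q ∣ d} := by
    ext d
    simp only [mem_filter, Nat.mem_divisors, and_congr_left_iff]
    exact fun h => ⟨fun h3 => ⟨((hq.coprime_iff_not_dvd.2 h).symm).dvd_of_dvd_mul_left h3.1, hN⟩,
      fun h3 => ⟨h3.1.mul_left _, mul_ne_zero hq.ne_zero hN⟩⟩
  rw [← sum_filter_add_sum_filter_not _ (q ∣ ·), h1 N hN, h2, add_mul, one_mul]
  have h3 := sum_filter_add_sum_filter_not N.divisors (q ∣ ·) χ
  split_ifs with h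
  · obtain ⟨e, rfl⟩ := h
    rw [h1 e (right_ne_zero_of_mul hN)] at h3
    rw [Nat.mul_div_cancel_left _ hq.pos]
    linear_combination h3
  · rw [filter_false_of_mem (p := (q ∣ ·)) fun d hd h3 => h (h3.trans (Nat.dvd_of_mem_divisors hd)),
      sum_empty] at h3
    linear_combination h3

variable {S : Type*} [CommRing S] [IsDedekindDomain S] [Module.Free ℤ S] [Module.Finite ℤ S]
  [CharZero S]

variable (S) in
/-- Ideals of given norm. -/
noncomputable def A (M : ℕ) : Finset (Ideal S) := (finite_setOfPred_absNorm_eq M).toFinset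

lemma mem_A {M : ℕ} {I : Ideal S} : I ∈ A S M ↔ absNorm I = M := by simp [A]

open Classical in
lemma card_dvd {J : Ideal S} {k : ℕ} (hJ : absNorm J = k) (hk : k ≠ 0) (M : ℕ) :
    #{I ∈ A S M | J ∣ I} = if k ∣ M then #(A S (M / k)) else 0 := by
  split_ifs with h
  · obtain ⟨N, rfl⟩ := h
    rw [Nat.mul_div_cancel_left _ (Nat.pos_of_ne_zero hk)]
    symm
    refine card_bij (fun I _ => J * I) (fun I hI => ?_) (fun a _ b _ h => ?_) fun I hI => ?_
    · simp [mem_A, hJ, mem_A.1 hI]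
    · exact mul_left_cancel₀ (fun h0 => hk (by simp [← hJ, h0])) h
    · obtain ⟨h2, e, rfl⟩ := mem_filter.1 hI
      refine ⟨e, mem_A.2 (Nat.eq_of_mul_eq_mul_left (Nat.pos_of_ne_zero hk) ?_), rfl⟩
      rw [← mem_A.1 h2, map_mul, hJ]
  · rw [card_eq_zero, filter_eq_empty_iff]
    exact fun I hI h1 => h (hJ ▸ mem_A.1 hI ▸ map_dvd absNorm h1)

lemma ex_prime {I : Ideal S} {q : ℕ} (hq : q.Prime) (h0 : absNorm I ≠ 0) (h : q ∣ absNorm I) :
    ∃ P : Ideal S, P.IsPrime ∧ P ∣ I ∧ (q : S) ∈ P := by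
  have := (absNorm_ne_zero_iff I).1 h0
  have := Fact.mk hq
  obtain ⟨x, hx⟩ := exists_prime_addOrderOf_dvd_card' (G := S ⧸ I) q h
  obtain ⟨x, rfl⟩ := Ideal.Quotient.mk_surjective x
  obtain ⟨P, h1, h2⟩ := exists_le_maximal (I ⊔ span {(q : S)}) fun h1 => by
    obtain ⟨a, ha, b, hb, h2⟩ := Submodule.mem_sup.1 ((eq_top_iff_one _).1 h1)
    obtain ⟨c, rfl⟩ := mem_span_singleton'.1 hb
    have h3 := addOrderOf_nsmul_eq_zero (Ideal.Quotient.mk I x)
    have h4 : Ideal.Quotient.mk I x = 0 := by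
      rw [hx, nsmul_eq_mul] at h3
      rw [← one_mul x, ← h2]
      simp [Ideal.Quotient.eq_zero_iff_mem.2 ha, add_mul, mul_assoc, h3]
    rw [h4, addOrderOf_zero] at hx
    exact hq.one_lt.ne hx
  exact ⟨P, h1.isPrime, dvd_iff_le.2 (le_sup_left.trans h2),
    h2 (mem_sup_right (mem_span_singleton_self _))⟩

variable {θ : S} {t m : ℤ} (hθ : θ * θ = t * θ + m) (b : Module.Basis (Fin 2) ℤ S)
  (b0 : b 0 = 1) (b1 : b 1 = θ)
include hθ b0 b1

omit hθ in
lemma dec (x : S) : x = b.repr x 0 + b.repr x 1 * θ := by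
  conv_lhs => rw [← b.sum_repr x]
  simp [b0, b1]

lemma root {q : ℕ} (hq : q.Prime) {r : ℤ} (hr : (q : ℤ) ∣ r * r - t * r - m) :
    ∃ P : Ideal S, P.IsMaximal ∧ absNorm P = q ∧ (∀ k : ℤ, θ - k ∈ P ↔ (q : ℤ) ∣ r - k) ∧
      ∀ Q : Ideal S, Q.IsPrime → (q : S) ∈ Q → θ - r ∈ Q → Q = P := by
  have := Fact.mk hq
  obtain ⟨f, hf⟩ : ∃ f : S →ₗ[ℤ] ZMod q, f = b.constr ℤ ![1, (r : ZMod q)] := ⟨_, rfl⟩
  have f0 : f 1 = 1 := by rw [← b0, hf]; simp
  have f1 : f θ = r := by rw [← b1, hf]; simp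
  have f2 : ∀ u v : ℤ, f (u + v * θ) = u + v * r := fun u v => by
    rw [← zsmul_eq_mul, ← zsmul_one u, map_add, map_zsmul, map_zsmul, f0, f1]; simp
  have h1 := (ZMod.intCast_zmod_eq_zero_iff_dvd _ _).2 hr
  push_cast at h1
  let g : S →+* ZMod q :=
    { toFun := f, map_one' := f0, map_zero' := f.map_zero, map_add' := f.map_add
      map_mul' := fun x y => by
        rw [dec b b0 b1 x, dec b b0 b1 y]
        generalize b.repr x 0 = u, b.repr x 1 = v, b.repr y 0 = u', b.repr y 1 = v'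
        rw [show (u + v * θ) * (u' + v' * θ) = (u * u' + v * v' * m : ℤ) +
          (u * v' + v * u' + v * v' * t : ℤ) * θ by push_cast; linear_combination v * v' * hθ,
          f2, f2, f2]
        push_cast
        linear_combination (-v * v' : ZMod q) * h1 }
  have hs : Function.Surjective g := ZMod.ringHom_surjective g
  have hm := RingHom.ker_isMaximal_of_surjective g hs
  refine ⟨RingHom.ker g, hm, ?_, fun k => ?_, fun Q h2 h3 h4 => ?_⟩
  · rw [absNorm_apply, Submodule.cardQuot_apply,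
      Nat.card_congr (RingHom.quotientKerEquivOfSurjective hs).toEquiv, Nat.card_zmod]
  · rw [RingHom.mem_ker, map_sub, map_intCast, ← ZMod.intCast_zmod_eq_zero_iff_dvd, Int.cast_sub,
      ← f1]
    rfl
  · refine (hm.eq_of_le h2.ne_top fun x hx => ?_).symm
    rw [dec b b0 b1 x] at hx ⊢
    generalize b.repr x 0 = u, b.repr x 1 = v at *
    obtain ⟨c, hc⟩ := (ZMod.intCast_zmod_eq_zero_iff_dvd (u + v * r) q).1
      (by push_cast; exact (f2 u v).symm.trans hx)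
    have h5 := congrArg (Int.cast : ℤ → S) hc
    push_cast at h5
    convert Q.add_mem (Q.mul_mem_right (c : S) h3) (Q.mul_mem_left (v : S) h4) using 1
    linear_combination h5

open Classical in
lemma loc {q : ℕ} (hq : q.Prime) {c : ℤ}
    (hc : (c = 1 ∧ ∃ r : ℤ, (q : ℤ) ∣ r * r - t * r - m ∧ ¬ (q : ℤ) ∣ 2 * r - t) ∨
      (c = 0 ∧ ∃ r : ℤ, (q : ℤ) ∣ r * r - t * r - m ∧ (q : ℤ) ∣ 2 * r - t) ∨
      (c = -1 ∧ ∀ r : ℤ, ¬ (q : ℤ) ∣ r * r - t * r - m)) {N : ℕ} (hN : N ≠ 0) :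
    (#(A S (q * N)) : ℤ) = (1 + c) * #(A S N) - c * if q ∣ N then (#(A S (N / q)) : ℤ) else 0 := by
  have e1 : ∀ I ∈ A S (q * N), ∃ P : Ideal S, P.IsPrime ∧ P ∣ I ∧ (q : S) ∈ P := fun I hI =>
    ex_prime hq (mem_A.1 hI ▸ mul_ne_zero hq.ne_zero hN) (mem_A.1 hI ▸ dvd_mul_right _ _)
  have e2 : ∀ J : Ideal S, absNorm J = q → #{I ∈ A S (q * N) | J ∣ I} = #(A S N) := fun J hJ => by
    rw [card_dvd hJ hq.ne_zero, if_pos (dvd_mul_right _ _), Nat.mul_div_cancel_left _ hq.pos]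
  have e3 : ∀ J : Ideal S, absNorm J = q * q → (#{I ∈ A S (q * N) | J ∣ I} : ℤ) =
      if q ∣ N then (#(A S (N / q)) : ℤ) else 0 := fun J hJ => by
    rw [card_dvd hJ (mul_ne_zero hq.ne_zero hq.ne_zero), Nat.mul_div_mul_left _ _ hq.pos]
    simp [Nat.mul_dvd_mul_iff_left hq.pos]
  have e4 : ∀ r : ℤ, (q : ℤ) ∣ r * r - t * r - m → ∀ Q : Ideal S, Q.IsPrime → (q : S) ∈ Q →
      θ - r ∈ Q ∨ θ - (t - r : ℤ) ∈ Q := fun r ⟨k, hk⟩ Q h1 h2 => by
    have h5 := congrArg (Int.cast : ℤ → S) hk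
    push_cast at h5 ⊢
    refine h1.mem_or_mem ?_
    convert Q.mul_mem_right (-k : S) h2 using 1
    linear_combination hθ - h5
  rcases hc with ⟨rfl, r, h1, h2⟩ | ⟨rfl, r, h1, h2⟩ | ⟨rfl, h1⟩
  · obtain ⟨P, p1, p2, p3, p4⟩ := root hθ b b0 b1 hq h1
    obtain ⟨Q, q1, q2, q3, q4⟩ := root hθ b b0 b1 hq (r := t - r) (by convert h1 using 1; ring)
    have hne : P ≠ Q := fun h => h2 (by
      convert (p3 (t - r)).1 (h ▸ (q3 (t - r)).2 (by simp)) using 1; ring)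
    have h3 := card_union_add_card_inter {I ∈ A S (q * N) | P ∣ I} {I ∈ A S (q * N) | Q ∣ I}
    rw [← filter_or, ← filter_and, filter_true_of_mem, e2 P p2, e2 Q q2] at h3
    · rw [← e3 (P * Q) (by rw [map_mul, p2, q2]), filter_congr (q := fun I => P ∣ I ∧ Q ∣ I)
        fun I _ => ⟨fun h => ⟨dvd_of_mul_right_dvd h, dvd_of_mul_left_dvd h⟩, fun h =>
          (isCoprime_iff_sup_eq.2 (p1.coprime_of_ne q1 hne)).mul_dvd h.1 h.2⟩]
      linarith [congrArg (Nat.cast : ℕ → ℤ) h3]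
    · intro I hI
      obtain ⟨R, r1, r2, r3⟩ := e1 I hI
      exact (e4 r h1 R r1 r3).imp (fun h => p4 R r1 r3 h ▸ r2) fun h => q4 R r1 r3 h ▸ r2
  · obtain ⟨P, p1, p2, p3, p4⟩ := root hθ b b0 b1 hq h1
    rw [← e2 P p2, filter_true_of_mem]
    · simp
    intro I hI
    obtain ⟨R, r1, r2, r3⟩ := e1 I hI
    refine p4 R r1 r3 ((e4 r h1 R r1 r3).elim id fun h => ?_) ▸ r2
    obtain ⟨k, hk⟩ := h2
    have h5 := congrArg (Int.cast : ℤ → S) hk
    push_cast at h5 h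
    convert R.sub_mem h (R.mul_mem_right (k : S) r3) using 1
    linear_combination -h5
  · rw [← e3 (span {(q : S)}) (by
      rw [absNorm_span_natCast, Module.finrank_eq_card_basis b]; simp [sq]), filter_true_of_mem]
    · simp
    intro I hI
    obtain ⟨R, r1, r2, r3⟩ := e1 I hI
    refine (dvd_iff_le.2 fun x hx => ?_).trans r2
    rw [dec b b0 b1 x] at hx ⊢
    generalize b.repr x 0 = u, b.repr x 1 = v at *
    have := Fact.mk hq
    have h2 : ∀ k : ℤ, (k : S) ∈ R → (q : ℤ) ∣ k := fun k hk => by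
      by_contra h3
      obtain ⟨a, c, h4⟩ := ((Nat.prime_iff_prime_int.1 hq).coprime_iff_not_dvd.2 h3)
      have h5 := congrArg (Int.cast : ℤ → S) h4
      push_cast at h5
      exact r1.ne_top ((eq_top_iff_one _).2 (h5 ▸ R.add_mem (R.mul_mem_left _ r3)
        (R.mul_mem_left _ hk)))
    have h3 := h2 (u * u + t * u * v - m * v * v) (by
      convert R.mul_mem_left (u + t * v - v * θ) hx using 1
      push_cast; linear_combination v * v * hθ)
    have h4 : (q : ℤ) ∣ v := by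
      by_contra h4
      obtain ⟨a, w, h5⟩ := ((Nat.prime_iff_prime_int.1 hq).coprime_iff_not_dvd.2 h4)
      refine h1 (-u * w) ?_
      have h6 : (q : ℤ) ∣ q * (a * (t * u * w - m * (1 + w * v))) := dvd_mul_right _ _
      refine ((h3.mul_left (w * w)).add h6).trans (dvd_of_eq ?_)
      linear_combination (t * u * w - m * (1 + w * v)) * h5
    have h5 : (q : ℤ) ∣ u := by
      refine Or.elim ((Nat.prime_iff_prime_int.1 hq).dvd_or_dvd (a := u) (b := u) ?_) id id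
      convert h3.sub (h4.mul_left (t * u - m * v)) using 1; ring
    obtain ⟨a, rfl⟩ := h4
    obtain ⟨c, rfl⟩ := h5
    exact mem_span_singleton'.2 ⟨c + a * θ, by push_cast; ring⟩

theorem count (χ : ℕ → ℤ) (h1 : χ 1 = 1) (hχ : ∀ a b, χ (a * b) = χ a * χ b)
    (hc : ∀ q : ℕ, q.Prime →
      (χ q = 1 ∧ ∃ r : ℤ, (q : ℤ) ∣ r * r - t * r - m ∧ ¬ (q : ℤ) ∣ 2 * r - t) ∨
      (χ q = 0 ∧ ∃ r : ℤ, (q : ℤ) ∣ r * r - t * r - m ∧ (q : ℤ) ∣ 2 * r - t) ∨
      (χ q = -1 ∧ ∀ r : ℤ, ¬ (q : ℤ) ∣ r * r - t * r - m)) (N : ℕ) (hN : N ≠ 0) :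
    (Nat.card {I : Ideal S // absNorm I = N} : ℤ) = ∑ d ∈ N.divisors, χ d := by
  rw [show Nat.card {I : Ideal S // absNorm I = N} = #(A S N) from
    Nat.subtype_card _ fun _ => mem_A]
  induction N using Nat.strong_induction_on with
  | _ N ih =>
    by_cases h : N = 1
    · rw [h, show A S 1 = {⊤} by ext I; simp [mem_A]]; simp [h1]
    obtain ⟨q, hq, N, rfl⟩ := Nat.exists_prime_and_dvd h
    have h2 := right_ne_zero_of_mul hN
    have h3 : N < q * N := lt_mul_left (Nat.pos_of_ne_zero h2) hq.one_lt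
    rw [loc hθ b b0 b1 hq (hc q hq) h2, div_rec χ hχ hq h2, ih N h3 h2]
    split_ifs with h4
    · rw [ih _ ((Nat.div_le_self _ _).trans_lt h3)
        (Nat.div_pos (Nat.le_of_dvd (Nat.pos_of_ne_zero h2) h4) hq.pos).ne']
    · rfl

end Pool.Agent.Lib.helper20.Quad
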