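import Mathlib

set_option autoImplicit false

namespace Pool.Agent.Lib.helper20.TreeInd

open SimpleGraph Finset Classical

variable {V : Type} [DecidableEq V]

/-- rooted trees inside `G`, built by joining a root to the root of another tree -/
inductive RT (G : SimpleGraph V) : V → Finset V → Prop
  | single (r : V) : RT G r {r}
  | join (r c : V) (S T : Finset V) : RT G r S → RT G c T → r ∈ S → c ∈ T → Disjoint S T →
      G.Adj r c → (∀ x ∈ S, ∀ y ∈ T, G.Adj x y → x = r ∧ y = c) → RT G r (S ∪ T)

omit [DecidableEq V] in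
theorem cyc {G : SimpleGraph V} {x y z : V} (p : G.Walk y z) (hp : p.IsPath)
    (hx : x ∉ p.support) (hyz : y ≠ z) (h1 : G.Adj x y) (h2 : G.Adj x z) :
    ∃ C : G.Walk x x, C.IsCycle := by
  refine ⟨Walk.cons h1 (p.concat h2.symm), ?_⟩
  rw [Walk.cons_isCycle_iff]
  refine ⟨hp.concat hx _, fun h => ?_⟩
  rw [Walk.edges_concat, List.concat_eq_append, List.mem_append] at h
  rcases h with h | h
  · exact hx (Walk.fst_mem_support_of_mem_edges _ h)
  · rw [List.mem_singleton, Sym2.eq_iff] at h
    rcases h with h | h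
    · exact h2.ne h.1
    · exact hyz h.2

/-- reachability inside `S` -/
def In (G : SimpleGraph V) (S : Finset V) : V → V → Prop :=
  Relation.ReflTransGen (fun a b => G.Adj a b ∧ a ∈ S ∧ b ∈ S)

theorem rt_aux {G : SimpleGraph V} (hG : G.IsAcyclic) (S : Finset V) :
    ∀ r ∈ S, (∀ x ∈ S, In G S r x) → RT G r S := by
  induction S using Finset.strongInduction with
  | H S ih =>
    intro r hr hc
    by_cases h1 : ∀ x ∈ S, x = r
    · have : S = {r} := eq_singleton_iff_unique_mem.2 ⟨hr, h1⟩
      rw [this]; exact RT.single r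
    push Not at h1
    obtain ⟨x0, hx0, hne⟩ := h1
    obtain ⟨c, hrc, -, hcS⟩ : ∃ c, G.Adj r c ∧ r ∈ S ∧ c ∈ S := by
      rcases (hc x0 hx0).cases_head with h | ⟨c, h, -⟩
      · exact absurd h.symm hne
      · exact ⟨c, h⟩
    let T := S.filter (fun y => y ≠ r ∧ In G (S.erase r) c y)
    have hcT : c ∈ T := mem_filter.2 ⟨hcS, hrc.ne', Relation.ReflTransGen.refl⟩
    have hrT : r ∉ T := fun h => (mem_filter.1 h).2.1 rfl
    have hTS : T ⊆ S := filter_subset _ _
    have hed : ∀ x ∈ S \ T, ∀ y ∈ T, G.Adj x y → x = r ∧ y = c := by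
      intro x hx y hy hxy
      obtain ⟨hxS, hxT⟩ := mem_sdiff.1 hx
      obtain ⟨hyS, hyr, hyc⟩ := mem_filter.1 hy
      have hxr : x = r := by
        by_contra hxr
        exact hxT (mem_filter.2 ⟨hxS, hxr, hyc.tail
          ⟨hxy.symm, mem_erase.2 ⟨hyr, hyS⟩, mem_erase.2 ⟨hxr, hxS⟩⟩⟩)
      subst hxr
      refine ⟨rfl, ?_⟩
      by_contra hyc'
      have : ∀ z, In G (S.erase x) c z → ∃ p : G.Walk c z, x ∉ p.support := by
        intro z hz
        induction hz with
        | refl => exact ⟨Walk.nil, by simpa using hrc.ne⟩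
        | tail _ h ih =>
          obtain ⟨p, hp⟩ := ih
          refine ⟨p.concat h.1, ?_⟩
          rw [Walk.support_concat, List.mem_append, List.mem_singleton]
          rintro (h' | h')
          · exact hp h'
          · exact (mem_erase.1 h.2.2).1 h'.symm
      obtain ⟨p, hp⟩ := this y hyc
      obtain ⟨C, hC⟩ := cyc p.bypass p.bypass_isPath
        (fun h => hp (p.support_bypass_subset_support h)) (Ne.symm hyc') hrc hxy
      exact hG C hC
    have hr1 : r ∈ S \ T := mem_sdiff.2 ⟨hr, hrT⟩
    have e : S = (S \ T) ∪ T := (sdiff_union_of_subset hTS).symm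
    rw [e]
    refine RT.join r c _ _ (ih _ (sdiff_ssubset hTS ⟨c, hcT⟩) r hr1 fun x hx => ?_)
      (ih _ ⟨hTS, fun h => hrT (h hr)⟩ c hcT fun y hy => ?_) hr1 hcT sdiff_disjoint hrc hed
    · have : ∀ x, In G S r x → x ∈ S \ T → In G (S \ T) r x := by
        intro x h
        induction h with
        | refl => exact fun _ => Relation.ReflTransGen.refl
        | @tail z x _ h ih =>
          intro hx
          by_cases hz : z ∈ T
          · rw [(hed x hx z hz h.1.symm).1]; exact Relation.ReflTransGen.refl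
          · have hz' := mem_sdiff.2 ⟨h.2.1, hz⟩
            exact (ih hz').tail ⟨h.1, hz', hx⟩
      exact this x (hc x (mem_sdiff.1 hx).1) hx
    · have : ∀ y, In G (S.erase r) c y → y ∈ T ∧ In G T c y := by
        intro y h
        induction h with
        | refl => exact ⟨hcT, Relation.ReflTransGen.refl⟩
        | @tail z y h0 h ih =>
          have hy : y ∈ T := mem_filter.2 ⟨(mem_erase.1 h.2.2).2, (mem_erase.1 h.2.2).1,
            Relation.ReflTransGen.tail h0 h⟩
          exact ⟨hy, ih.2.tail ⟨h.1, ih.1, hy⟩⟩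
      exact (this y (mem_filter.1 hy).2.2).2

theorem rt_of_tree [Fintype V] {G : SimpleGraph V} (hG : G.IsTree) (r : V) : RT G r univ := by
  refine rt_aux hG.isAcyclic univ r (mem_univ _) fun x _ => ?_
  obtain ⟨p⟩ := hG.connected.preconnected r x
  induction p with
  | nil => exact Relation.ReflTransGen.refl
  | cons h _ ih => exact Relation.ReflTransGen.head ⟨h, mem_univ _, mem_univ _⟩ (ih (mem_univ _))

end Pool.Agent.Lib.helper20.TreeInd
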